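import Pool.Agent.Helper56.Ulr.TraceL

namespace Pool.Agent.Helper56.Ulr

open MvPolynomial Matrix Pool.Agent.Helper56.Disc

section subst

variable {n : ℕ}

theorem subst_subst (A B : Matrix (Fin n) (Fin n) ℂ) (F : MvPolynomial (Fin n) ℂ) :
    subst A (subst B F) = subst (B * A) F := by
  unfold subst
  have h : (aeval (fun i => ∑ j, C (A i j) * X j)).comp
      (aeval (fun i => ∑ j, C (B i j) * X j)) =
      (aeval (fun i => ∑ j, C ((B * A) i j) * X j) :
        MvPolynomial (Fin n) ℂ →ₐ[ℂ] MvPolynomial (Fin n) ℂ) := by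
    apply MvPolynomial.algHom_ext
    intro i
    rw [AlgHom.comp_apply, aeval_X, aeval_X, map_sum]
    simp only [map_mul, aeval_X, aeval_C, algebraMap_eq, Matrix.mul_apply, map_sum,
      Finset.sum_mul, Finset.mul_sum]
    rw [Finset.sum_comm]
    apply Finset.sum_congr rfl
    intro j _
    apply Finset.sum_congr rfl
    intro l _
    ring
  exact DFunLike.congr_fun h F

theorem subst_one (F : MvPolynomial (Fin n) ℂ) : subst 1 F = F := by
  unfold subst
  have h : (aeval (fun i => ∑ j, C ((1 : Matrix (Fin n) (Fin n) ℂ) i j) * X j) :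
      MvPolynomial (Fin n) ℂ →ₐ[ℂ] MvPolynomial (Fin n) ℂ) = AlgHom.id _ _ := by
    apply MvPolynomial.algHom_ext
    intro i
    rw [aeval_X, Finset.sum_eq_single i]
    · rw [one_apply_eq, C_1, one_mul]
      rfl
    · intro j _ hj
      rw [one_apply_ne (Ne.symm hj), C_0, zero_mul]
    · simp
  exact DFunLike.congr_fun h F

theorem subst_isHomogeneous {N : ℕ} (A : Matrix (Fin n) (Fin n) ℂ) (F : MvPolynomial (Fin n) ℂ)
    (hF : F.IsHomogeneous N) : (subst A F).IsHomogeneous N := by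
  unfold subst
  have h := hF.aeval (fun i => ∑ j, C (A i j) * X j) (n := 1) (fun i => by
    refine IsHomogeneous.sum _ _ _ fun j _ => ?_
    exact (isHomogeneous_X _ _).C_mul _)
  rwa [one_mul] at h

theorem subst_mul (A : Matrix (Fin n) (Fin n) ℂ) (F G : MvPolynomial (Fin n) ℂ) :
    subst A (F * G) = subst A F * subst A G := map_mul _ _ _

theorem eval_subst (A : Matrix (Fin n) (Fin n) ℂ) (F : MvPolynomial (Fin n) ℂ) (z : Fin n → ℂ) :
    eval z (subst A F) = eval (A.mulVec z) F := by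
  unfold subst
  rw [eval_aeval_gen]
  congr 2
  funext i
  rw [map_sum, mulVec, dotProduct]
  apply Finset.sum_congr rfl
  intro j _
  rw [map_mul, eval_C, eval_X]

theorem apolar_subst' (A : Matrix (Fin n) (Fin n) ℂ) (F s : MvPolynomial (Fin n) ℂ) :
    apolar (subst Aᵀ F) s = apolar F (subst A s) := apolar_subst A F s

theorem perp_subst {N k : ℕ} (A : Matrix (Fin n) (Fin n) ℂ) (hA : A.det ≠ 0)
    (F : MvPolynomial (Fin n) ℂ) (g : Fin n → MvPolynomial (Fin n) ℂ) (hF : Perp N k F g) :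
    Perp N k (subst Aᵀ F) (fun i => subst A⁻¹ (g i)) := by
  intro i h hh
  rw [apolar_subst', subst_mul, subst_subst, nonsing_inv_mul _ (isUnit_iff_ne_zero.2 hA),
    subst_one]
  exact hF i _ (subst_isHomogeneous A h hh)

theorem regular_subst {k : ℕ} (A : Matrix (Fin n) (Fin n) ℂ) (hA : A.det ≠ 0)
    (g : Fin n → MvPolynomial (Fin n) ℂ) (hg : IsRegularTuple k g) :
    IsRegularTuple k (fun i => subst A⁻¹ (g i)) := by
  refine ⟨fun i => subst_isHomogeneous _ _ (hg.1 i), fun z hz => ?_⟩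
  have h1 : A⁻¹.mulVec z = 0 := by
    apply hg.2
    intro i
    rw [← eval_subst]
    exact hz i
  have h2 := congrArg A.mulVec h1
  rwa [mulVec_mulVec, mul_nonsing_inv _ (isUnit_iff_ne_zero.2 hA), one_mulVec, mulVec_zero] at h2

/-- The action on coefficient vectors. -/
noncomputable def act {N : ℕ} (A : Matrix (Fin n) (Fin n) ℂ) (c : Mon n N → ℂ) : Mon n N → ℂ :=
  cv (subst Aᵀ (form c))

theorem form_act {N : ℕ} (A : Matrix (Fin n) (Fin n) ℂ) (c : Mon n N → ℂ) :
    form (act A c) = subst Aᵀ (form c) :=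
  form_cv _ (subst_isHomogeneous _ _ (form_isHomogeneous c))

theorem act_one {N : ℕ} (c : Mon n N → ℂ) : act 1 c = c := by
  unfold act
  rw [transpose_one, subst_one, cv_form]

theorem act_mul {N : ℕ} (A B : Matrix (Fin n) (Fin n) ℂ) (c : Mon n N → ℂ) :
    act (A * B) c = act A (act B c) := by
  have h : form (act (A * B) c) = form (act A (act B c)) := by
    rw [form_act, form_act, form_act, subst_subst, transpose_mul]
  rw [← cv_form (act (A * B) c), h, cv_form]

/-- The matrix of the action. -/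
noncomputable def PP' (n : ℕ) (ν : Fin n →₀ ℕ) :
    MvPolynomial (Fin n) (MvPolynomial (Fin n × Fin n) ℂ) :=
  ∏ i, (∑ j, C (X (j, i)) * X j) ^ ν i

noncomputable def rho (n N : ℕ) : Matrix (Mon n N) (Mon n N) (MvPolynomial (Fin n × Fin n) ℂ) :=
  Matrix.of fun μ ν => coeff μ.1 (PP' n ν.1)

theorem Hc_PP' {N : ℕ} (ν : Mon n N) : Hc N (PP' n ν.1) := by
  unfold PP'
  have h : ∑ i, ν.1 i = N := by
    have := mon_degree ν
    rw [Finsupp.degree_eq_sum] at this
    exact this
  have h1 : Hc (∑ i, ν.1 i) (∏ i, (∑ j, C (X (j, i)) * X j :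
      MvPolynomial (Fin n) (MvPolynomial (Fin n × Fin n) ℂ)) ^ ν.1 i) := by
    apply Hc.prod
    intro i _
    have h2 : Hc 1 (∑ j, C (X (j, i)) * X j :
        MvPolynomial (Fin n) (MvPolynomial (Fin n × Fin n) ℂ)) := by
      apply Hc.sum
      intro j _
      have h3 := (Hc.C (τ := Fin n) (isHomogeneous_X ℂ (j, i))).mul (Hc.map_C (X j))
      rwa [map_X] at h3
    have h3 := h2.pow (ν.1 i)
    rwa [one_mul] at h3
  rw [h] at h1
  exact h1

theorem rho_isHomogeneous {N : ℕ} (μ ν : Mon n N) : (rho n N μ ν).IsHomogeneous N :=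
  Hc_PP' ν μ.1

theorem map_PP' (A : Matrix (Fin n) (Fin n) ℂ) (ν : Fin n →₀ ℕ) :
    MvPolynomial.map (eval (fun x : Fin n × Fin n => A x.1 x.2)) (PP' n ν) =
      subst Aᵀ (monomial ν 1) := by
  unfold PP' subst
  rw [aeval_monomial, map_one, one_mul, Finsupp.prod_fintype _ _ (by simp), map_prod]
  apply Finset.prod_congr rfl
  intro i _
  rw [map_pow, map_sum]
  congr 1
  apply Finset.sum_congr rfl
  intro j _
  rw [map_mul, map_C, map_X, eval_X, transpose_apply]

theorem act_apply {N : ℕ} (A : Matrix (Fin n) (Fin n) ℂ) (c : Mon n N → ℂ) (μ : Mon n N) :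
    act A c μ = ∑ ν, eval (fun x : Fin n × Fin n => A x.1 x.2) (rho n N μ ν) * c ν := by
  have h1 : subst Aᵀ (form c) = ∑ ν : Mon n N, C (c ν) * subst Aᵀ (monomial ν.1 1) := by
    conv_lhs => unfold form
    unfold subst
    rw [map_sum]
    apply Finset.sum_congr rfl
    intro ν _
    have h2 : (monomial ν.1 (c ν) : MvPolynomial (Fin n) ℂ) = C (c ν) * monomial ν.1 1 := by
      rw [C_mul_monomial, mul_one]
    rw [h2, map_mul, aeval_C, algebraMap_eq]
  unfold act cv
  rw [h1, coeff_sum]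
  apply Finset.sum_congr rfl
  intro ν _
  rw [coeff_C_mul, ← map_PP', coeff_map, mul_comm]
  rfl

end subst

section J0

variable {m : ℕ}

theorem card_IA_eq (m δ : ℕ) : Fintype.card (IA m δ) = Fintype.card (IB m δ) := by
  rw [Fintype.card_pi, Fintype.card_pi]
  simp only [Fintype.card_fin]
  rw [← Equiv.prod_comp Fin.revPerm (fun l : Fin m => (m - (l : ℕ)) * δ)]
  apply Finset.prod_congr rfl
  intro l _
  rw [Fin.revPerm_apply, Fin.val_rev]
  congr 1
  omega

noncomputable def eAB (m δ : ℕ) : IA m δ ≃ IB m δ := Fintype.equivOfCardEq (card_IA_eq m δ)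

/-- The determinant, as a polynomial in the coefficients. -/
noncomputable def J0 (m δ N : ℕ) : MvPolynomial (Mon (m + 1) N) ℂ :=
  (Matrix.of fun a a' : IA m δ => ∑ μ : Mon (m + 1) N,
    C (coeff μ.1 (TT m N (monomial (fs a + fs (eAB m δ a')) 1)) * wt μ.1) * X μ).det

theorem J0_isHomogeneous (m δ N : ℕ) : (J0 m δ N).IsHomogeneous (Fintype.card (IA m δ)) := by
  unfold J0
  rw [det_apply]
  refine IsHomogeneous.sum _ _ _ fun τ _ => ?_
  have h1 : (∏ a : IA m δ, (Matrix.of fun a a' : IA m δ => ∑ μ : Mon (m + 1) N,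
      C (coeff μ.1 (TT m N (monomial (fs a + fs (eAB m δ a')) 1)) * wt μ.1) * X μ)
      (τ a) a).IsHomogeneous (∑ _a : IA m δ, 1) := by
    apply IsHomogeneous.prod
    intro a _
    rw [of_apply]
    refine IsHomogeneous.sum _ _ _ fun μ _ => ?_
    exact (isHomogeneous_X _ _).C_mul _
  rw [Finset.sum_const, Finset.card_univ, smul_eq_mul, mul_one] at h1
  rcases Int.units_eq_one_or (Equiv.Perm.sign τ) with h | h
  · rw [h, one_smul]; exact h1
  · rw [h, Units.neg_smul, one_smul]; exact h1.neg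

theorem eval_J0 (m δ N : ℕ) (c : Mon (m + 1) N → ℂ) :
    eval c (J0 m δ N) = ((Phi δ (LL m N (form c))).submatrix id (eAB m δ)).det := by
  unfold J0
  rw [RingHom.map_det]
  congr 1
  ext1 a a'
  rw [RingHom.mapMatrix_apply, map_apply, of_apply, submatrix_apply, Phi, of_apply, LL_apply,
    apolar_form, map_sum]
  apply Finset.sum_congr rfl
  intro μ _
  rw [map_mul, eval_C, eval_X, id]
  ring

theorem eval_J0_ne_zero (δ N : ℕ) (hδ : 2 ≤ δ) (hm : 1 ≤ m) (hN : N = (m + 1) * (δ - 1))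
    (c : Mon (m + 1) N → ℂ) (hc : form c ≠ 0)
    (g : Fin (m + 1) → MvPolynomial (Fin (m + 1)) ℂ) (hg : IsRegularTuple δ g)
    (hF : Perp N δ (form c) g) : eval c (J0 m δ N) ≠ 0 := by
  subst hN
  obtain ⟨a, ha1, ha2⟩ := main_scalar δ hδ hm (form c) g hg.1 hF
  have hkN : δ ≤ (m + 1) * (δ - 1) := by
    obtain ⟨ε, rfl⟩ := Nat.exists_eq_add_of_le hδ
    have h1 : 2 + ε - 1 = ε + 1 := by omega
    rw [h1]
    nlinarith
  have h1 := apolar_jac_ne_zero (by omega) hkN (form c) hc (form_isHomogeneous c) g hg hF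
  have ha : a ≠ 0 := by
    intro h0
    rw [h0, zero_mul, zero_mul] at ha2
    rcases mul_eq_zero.1 ha2.symm with h | h
    · rw [Nat.cast_eq_zero] at h
      exact Nat.factorial_ne_zero _ h
    · exact h1 h
  rw [eval_J0]
  intro hdet
  have h2 : ((Phi δ (LL m ((m + 1) * (δ - 1)) (form c))).submatrix id (eAB m δ)) *
      ((Bz δ (fun i => EE m (g i))).submatrix (eAB m δ) id) =
      a • (1 : Matrix (IA m δ) (IA m δ) ℂ) := by
    rw [← ha1, submatrix_mul_equiv]
    rfl
  have h3 := congrArg Matrix.det h2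
  rw [det_mul, hdet, zero_mul, det_smul, det_one, mul_one] at h3
  exact pow_ne_zero _ ha h3.symm

/-- Nonvanishing along the orbit. -/
theorem eval_act_J0_ne_zero (δ N : ℕ) (hδ : 2 ≤ δ) (hm : 1 ≤ m) (hN : N = (m + 1) * (δ - 1))
    (c : Mon (m + 1) N → ℂ) (hc : form c ≠ 0)
    (g : Fin (m + 1) → MvPolynomial (Fin (m + 1)) ℂ) (hg : IsRegularTuple δ g)
    (hF : Perp N δ (form c) g) (A : Matrix (Fin (m + 1)) (Fin (m + 1)) ℂ) (hA : A.det ≠ 0) :
    eval (act A c) (J0 m δ N) ≠ 0 := by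
  apply eval_J0_ne_zero δ N hδ hm hN (act A c) ?_ (fun i => subst A⁻¹ (g i))
    (regular_subst A hA g hg)
  · rw [form_act]
    exact perp_subst A hA (form c) g hF
  · intro h0
    apply hc
    rw [form_act] at h0
    have h1 := congrArg (subst (A⁻¹)ᵀ) h0
    rw [subst_subst, ← transpose_mul, nonsing_inv_mul _ (isUnit_iff_ne_zero.2 hA),
      transpose_one, subst_one] at h1
    rw [h1]
    exact map_zero _

end J0

end Pool.Agent.Helper56.Ulr
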