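import Mathlib

namespace Pool.Agent.Helper56.Ulr

open MvPolynomial Matrix
open scoped Nat

/-- The apolar pairing. -/
noncomputable def apolar {σ : Type} [Fintype σ] (f q : MvPolynomial σ ℂ) : ℂ :=
  ∑ m ∈ f.support, coeff m f * coeff m q * ((∏ i, (m i)! : ℕ) : ℂ)

section ap

variable {σ : Type} [Fintype σ]

/-- the weight of a monomial -/
noncomputable def wt (m : σ →₀ ℕ) : ℂ := ((∏ i, (m i)! : ℕ) : ℂ)

theorem apolar_eq_sum (f q : MvPolynomial σ ℂ) (s : Finset (σ →₀ ℕ)) (hs : f.support ⊆ s) :
    apolar f q = ∑ m ∈ s, coeff m f * coeff m q * wt m := by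
  unfold apolar
  apply Finset.sum_subset hs
  intro m _ hm
  rw [MvPolynomial.notMem_support_iff.1 hm]
  simp

theorem apolar_add_left (f g q : MvPolynomial σ ℂ) :
    apolar (f + g) q = apolar f q + apolar g q := by
  classical
  rw [apolar_eq_sum (f + g) q (f.support ∪ g.support) MvPolynomial.support_add,
    apolar_eq_sum f q (f.support ∪ g.support) Finset.subset_union_left,
    apolar_eq_sum g q (f.support ∪ g.support) Finset.subset_union_right,
    ← Finset.sum_add_distrib]
  apply Finset.sum_congr rfl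
  intro m _
  rw [coeff_add]; ring

theorem apolar_C_mul_left (a : ℂ) (f q : MvPolynomial σ ℂ) :
    apolar (C a * f) q = a * apolar f q := by
  classical
  rw [apolar_eq_sum (C a * f) q f.support (by
    intro m hm
    rw [MvPolynomial.mem_support_iff] at hm ⊢
    intro h
    apply hm
    rw [coeff_C_mul, h, mul_zero]), apolar_eq_sum f q f.support (le_refl _), Finset.mul_sum]
  apply Finset.sum_congr rfl
  intro m _
  rw [coeff_C_mul]; ring

theorem apolar_add_right (f q r : MvPolynomial σ ℂ) :
    apolar f (q + r) = apolar f q + apolar f r := by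
  unfold apolar
  rw [← Finset.sum_add_distrib]
  apply Finset.sum_congr rfl
  intro m _
  rw [coeff_add]; ring

theorem apolar_C_mul_right (a : ℂ) (f q : MvPolynomial σ ℂ) :
    apolar f (C a * q) = a * apolar f q := by
  unfold apolar
  rw [Finset.mul_sum]
  apply Finset.sum_congr rfl
  intro m _
  rw [coeff_C_mul]; ring

theorem apolar_zero_left (q : MvPolynomial σ ℂ) : apolar 0 q = 0 := by
  simp [apolar]

theorem apolar_zero_right (f : MvPolynomial σ ℂ) : apolar f 0 = 0 := by
  simp [apolar]

theorem apolar_sum_left {κ : Type} (s : Finset κ) (f : κ → MvPolynomial σ ℂ)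
    (q : MvPolynomial σ ℂ) : apolar (∑ k ∈ s, f k) q = ∑ k ∈ s, apolar (f k) q := by
  classical
  induction s using Finset.induction_on with
  | empty => simp [apolar_zero_left]
  | insert a s ha ih => rw [Finset.sum_insert ha, Finset.sum_insert ha, apolar_add_left, ih]

theorem apolar_sum_right {κ : Type} (s : Finset κ) (f : MvPolynomial σ ℂ)
    (q : κ → MvPolynomial σ ℂ) : apolar f (∑ k ∈ s, q k) = ∑ k ∈ s, apolar f (q k) := by
  classical
  induction s using Finset.induction_on with
  | empty => simp [apolar_zero_right]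
  | insert a s ha ih => rw [Finset.sum_insert ha, Finset.sum_insert ha, apolar_add_right, ih]

theorem apolar_monomial (m : σ →₀ ℕ) (a : ℂ) (q : MvPolynomial σ ℂ) :
    apolar (monomial m a) q = a * coeff m q * wt m := by
  classical
  rw [apolar_eq_sum (monomial m a) q {m} (MvPolynomial.support_monomial_subset)]
  simp

theorem wt_add_single [DecidableEq σ] (m : σ →₀ ℕ) (i : σ) :
    wt (m + Finsupp.single i 1) = wt m * ((m i : ℂ) + 1) := by
  unfold wt
  have h : ∏ j, ((m + Finsupp.single i 1 : σ →₀ ℕ) j)! = (∏ j, (m j)!) * (m i + 1) := by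
    rw [← Finset.mul_prod_erase Finset.univ (fun j => ((m + Finsupp.single i 1 : σ →₀ ℕ) j)!)
      (Finset.mem_univ i), ← Finset.mul_prod_erase Finset.univ (fun j => (m j)!)
      (Finset.mem_univ i)]
    have h1 : ∏ x ∈ Finset.univ.erase i, ((m + Finsupp.single i 1 : σ →₀ ℕ) x)! =
        ∏ x ∈ Finset.univ.erase i, (m x)! := by
      apply Finset.prod_congr rfl
      intro x hx
      have hxi : x ≠ i := Finset.ne_of_mem_erase hx
      rw [Finsupp.add_apply, Finsupp.single_eq_of_ne hxi, add_zero]
    rw [h1]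
    simp only [Finsupp.add_apply, Finsupp.single_eq_same]
    rw [Nat.factorial_succ]
    ring
  rw [h]
  push_cast
  ring

theorem apolar_mul_X [DecidableEq σ] (f q : MvPolynomial σ ℂ) (i : σ) :
    apolar (f * X i) q = apolar f (pderiv i q) := by
  induction f using MvPolynomial.induction_on' with
  | monomial m a =>
    have : monomial m a * X i = monomial (m + Finsupp.single i 1) a := by
      rw [X, monomial_mul, mul_one]
    rw [this, apolar_monomial, apolar_monomial, coeff_pderiv, wt_add_single]
    ring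
  | add p q hp hq =>
    rw [add_mul, apolar_add_left, apolar_add_left, hp, hq]

theorem pderiv_subst [DecidableEq σ] (B : Matrix σ σ ℂ) (i : σ) (q : MvPolynomial σ ℂ) :
    pderiv i (aeval (fun i => ∑ j, C (B i j) * X j) q : MvPolynomial σ ℂ) =
      ∑ j, C (B j i) * (aeval (fun i => ∑ j, C (B i j) * X j) (pderiv j q) :
        MvPolynomial σ ℂ) := by
  have hL : ∀ k, pderiv i (∑ j, C (B k j) * X j : MvPolynomial σ ℂ) = C (B k i) := by
    intro k
    rw [map_sum]
    simp only [pderiv_C_mul, pderiv_X]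
    rw [Finset.sum_eq_single i]
    · simp
    · intro b _ hb
      simp [Pi.single_apply, hb]
    · simp
  induction q using MvPolynomial.induction_on with
  | C a => simp
  | add p q hp hq =>
    simp only [map_add, hp, hq, mul_add, Finset.sum_add_distrib]
  | mul_X p k hp =>
    simp only [map_mul, aeval_X, pderiv_mul, hp, hL, pderiv_X, map_add, mul_add,
      Finset.sum_add_distrib, Finset.sum_mul]
    congr 1
    · apply Finset.sum_congr rfl
      intro j _
      ring
    · rw [Finset.sum_eq_single k]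
      · simp; ring
      · intro b _ hb
        simp [Pi.single_apply, hb.symm]
      · simp

theorem coeff_zero_subst [DecidableEq σ] (B : Matrix σ σ ℂ) (q : MvPolynomial σ ℂ) :
    coeff 0 (aeval (fun i => ∑ j, C (B i j) * X j) q : MvPolynomial σ ℂ) = coeff 0 q := by
  induction q using MvPolynomial.induction_on with
  | C a => simp
  | add p q hp hq => simp only [map_add, coeff_add, hp, hq]
  | mul_X p k hp =>
    have h1 : coeff 0 (p * X k) = 0 := by
      rw [← MvPolynomial.constantCoeff_eq, map_mul, constantCoeff_X, mul_zero]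
    rw [h1, map_mul, aeval_X]
    rw [← MvPolynomial.constantCoeff_eq, map_mul, map_sum]
    simp

end ap

theorem apolar_subst {σ : Type} [Fintype σ] [DecidableEq σ] (B : Matrix σ σ ℂ)
    (f q : MvPolynomial σ ℂ) :
    apolar (aeval (fun i => ∑ j, C (B j i) * X j) f) q =
      apolar f (aeval (fun i => ∑ j, C (B i j) * X j) q) := by
  induction f using MvPolynomial.induction_on generalizing q with
  | C a =>
    rw [aeval_C]
    show apolar (C a) q = _
    have : (C a : MvPolynomial σ ℂ) = monomial 0 a := rfl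
    rw [this, apolar_monomial, apolar_monomial, coeff_zero_subst]
  | add f g hf hg => rw [map_add, apolar_add_left, apolar_add_left, hf, hg]
  | mul_X f i hf =>
    rw [map_mul, aeval_X, Finset.mul_sum, apolar_sum_left, apolar_mul_X, pderiv_subst,
      apolar_sum_right]
    apply Finset.sum_congr rfl
    intro j _
    rw [apolar_C_mul_right, ← hf, ← apolar_mul_X, ← apolar_C_mul_left]
    congr 1
    ring

section white

/-- Whitehead's identity in a noncommutative algebra -/
theorem whitehead {R : Type} [Ring R] [Algebra ℂ R] (E F : R) (hE : E * E = 0) (hF : F * F = 0)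
    (hEF : E * F * E = E) (hFE : F * E * F = F) (c : ℂ) (hc : c ≠ 0) :
    (1 + c • E) * (1 + (-c⁻¹) • F) * (1 + c • E) * (1 + (-1 : ℂ) • E) * (1 + (1 : ℂ) • F) *
      (1 + (-1 : ℂ) • E) = 1 + (c - 1) • (E * F) + (c⁻¹ - 1) • (F * E) := by
  have hEF' : E * (F * E) = E := by rw [← mul_assoc]; exact hEF
  have hFE' : F * (E * F) = F := by rw [← mul_assoc]; exact hFE
  have hEEF : E * (E * F) = 0 := by rw [← mul_assoc, hE, zero_mul]
  have hFFE : F * (F * E) = 0 := by rw [← mul_assoc, hF, zero_mul]
  have h1 : (1 + c • E) * (1 + (-c⁻¹) • F) = 1 + c • E - c⁻¹ • F - E * F := by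
    simp only [mul_add, add_mul, mul_one, one_mul, smul_mul_assoc, mul_smul_comm]
    match_scalars <;> field_simp
  have h2 : (1 + (1 : ℂ) • F) * (1 + (-1 : ℂ) • E) = 1 - E + F - F * E := by
    simp only [mul_add, add_mul, mul_one, one_mul, one_smul, neg_smul, mul_neg]
    abel
  have h3 : (1 + c • E) * (1 + (-1 : ℂ) • E) = 1 + (c - 1) • E := by
    simp only [mul_add, add_mul, mul_one, one_mul, one_smul, neg_smul, mul_neg, smul_mul_assoc,
      hE, smul_zero, neg_zero, add_zero, sub_smul]
    abel
  have h4 : (1 + (c - 1) • E) * (1 - E + F - F * E) = 1 - E + F - F * E + (c - 1) • (E * F) := by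
    simp only [mul_add, mul_sub, add_mul, mul_one, one_mul, smul_mul_assoc, hE, hEF', smul_zero]
    abel
  calc (1 + c • E) * (1 + (-c⁻¹) • F) * (1 + c • E) * (1 + (-1 : ℂ) • E) * (1 + (1 : ℂ) • F) *
      (1 + (-1 : ℂ) • E)
      = ((1 + c • E) * (1 + (-c⁻¹) • F)) * (((1 + c • E) * (1 + (-1 : ℂ) • E)) *
        ((1 + (1 : ℂ) • F) * (1 + (-1 : ℂ) • E))) := by simp only [mul_assoc]
    _ = (1 + c • E - c⁻¹ • F - E * F) * (1 - E + F - F * E + (c - 1) • (E * F)) := by
        rw [h1, h2, h3, h4]
    _ = _ := by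
        have e1 : E * F * (E * F) = E * F := by
          rw [← mul_assoc, hEF]
        have e2 : E * F * F = 0 := by rw [mul_assoc, hF, mul_zero]
        have e3 : E * F * (F * E) = 0 := by rw [← mul_assoc, e2, zero_mul]
        simp only [mul_add, mul_sub, add_mul, sub_mul, mul_one, one_mul, smul_mul_assoc,
          mul_smul_comm, hE, hF, hEF, hEF', hFE', hEEF, hFFE, e1, e2, e3, smul_zero, smul_smul,
          sub_zero, zero_sub, add_zero, zero_add]
        match_scalars <;> field_simp <;> ring

end white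

section sl

open Matrix.SpecialLinearGroup in
theorem sl_induction (n : ℕ) (hn : 2 ≤ n) (P : SpecialLinearGroup (Fin n) ℂ → Prop)
    (ht : ∀ (i j : Fin n) (hij : i ≠ j) (a : ℂ), P (SpecialLinearGroup.transvection hij a))
    (hmul : ∀ A B, P A → P B → P (A * B)) (M : SpecialLinearGroup (Fin n) ℂ) : P M := by
  have : Nontrivial (Fin n) := Fin.nontrivial_iff_two_le.2 hn
  refine SpecialLinearGroup.diagonal_transvection_induction' P M ?_ ht hmul
  intro i j hij c hc
  have hs : ∀ (a b : Fin n) (x : ℂ), Matrix.single a b x = x • Matrix.single a b (1 : ℂ) := by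
    intro a b x
    rw [Matrix.smul_single]; simp
  have key : SpecialLinearGroup.diag2n hij c hc =
      SpecialLinearGroup.transvection hij c * SpecialLinearGroup.transvection hij.symm (-c⁻¹) *
      SpecialLinearGroup.transvection hij c * SpecialLinearGroup.transvection hij (-1) *
      SpecialLinearGroup.transvection hij.symm 1 * SpecialLinearGroup.transvection hij (-1) := by
    apply Subtype.ext
    have h := whitehead (Matrix.single i j (1 : ℂ)) (Matrix.single j i (1 : ℂ))
      (Matrix.single_mul_single_of_ne _ _ _ _ hij.symm _)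
      (Matrix.single_mul_single_of_ne _ _ _ _ hij _)
      (by rw [Matrix.single_mul_single_same, Matrix.single_mul_single_same]; simp)
      (by rw [Matrix.single_mul_single_same, Matrix.single_mul_single_same]; simp) c hc
    rw [← hs i j c, ← hs j i (-c⁻¹), ← hs i j (-1)] at h
    change (SpecialLinearGroup.diag2n hij c hc).1 = (1 + Matrix.single i j c) *
      (1 + Matrix.single j i (-c⁻¹)) * (1 + Matrix.single i j c) * (1 + Matrix.single i j (-1)) *
      (1 + Matrix.single j i 1) * (1 + Matrix.single i j (-1))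
    rw [one_smul] at h
    rw [h]
    rw [SpecialLinearGroup.diag2n_coe, Matrix.single_mul_single_same,
      Matrix.single_mul_single_same]
    ext a b
    simp only [Matrix.add_apply, Matrix.smul_apply, Matrix.diagonal_apply, Matrix.one_apply,
      Matrix.single_apply, smul_eq_mul]
    by_cases hab : a = b
    · subst hab
      by_cases hai : a = i
      · subst hai
        simp [hij, hij.symm]
      · by_cases haj : a = j
        · subst haj
          simp [hij, hai]
        · simp [hai, haj, Ne.symm hai, Ne.symm haj]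
    · have h1 : ¬ (i = a ∧ i = b) := by rintro ⟨rfl, h⟩; exact hab h
      have h2 : ¬ (j = a ∧ j = b) := by rintro ⟨rfl, h⟩; exact hab h
      simp [hab, h1, h2]
  rw [key]
  refine hmul _ _ (hmul _ _ (hmul _ _ (hmul _ _ (hmul _ _ ?_ ?_) ?_) ?_) ?_) ?_
  all_goals exact ht _ _ _ _

end sl

section polys

theorem eval_aeval_gen {σ ι : Type} (x : σ → ℂ) (g : ι → MvPolynomial σ ℂ)
    (p : MvPolynomial ι ℂ) :
    eval x (aeval g p : MvPolynomial σ ℂ) = eval (fun i => eval x (g i)) p := by
  induction p using MvPolynomial.induction_on with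
  | C a => simp
  | add p q hp hq => simp only [map_add, hp, hq]
  | mul_X p i hp => simp only [map_mul, aeval_X, eval_X, hp]

theorem eval_aeval_poly {ι : Type} (x : ℂ) (g : ι → Polynomial ℂ) (p : MvPolynomial ι ℂ) :
    Polynomial.eval x (aeval g p : Polynomial ℂ) = eval (fun i => Polynomial.eval x (g i)) p := by
  induction p using MvPolynomial.induction_on with
  | C a => simp
  | add p q hp hq => simp [hp, hq]
  | mul_X p i hp => simp [hp]

/-- a nowhere vanishing one-variable polynomial is constant -/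
theorem const_of_no_root (P : Polynomial ℂ) (h : ∀ s, P.eval s ≠ 0) (s t : ℂ) :
    P.eval s = P.eval t := by
  by_cases hd : P.degree = 0
  · rw [Polynomial.eq_C_of_degree_eq_zero hd]
    simp
  · obtain ⟨x, hx⟩ := IsAlgClosed.exists_root P hd
    exact absurd hx (h x)

theorem eval_smul_homog {ι : Type} (p : MvPolynomial ι ℂ) (k : ℕ) (hp : p.IsHomogeneous k)
    (c : ℂ) (x : ι → ℂ) : eval (fun i => c * x i) p = c ^ k * eval x p := by
  rw [eval_eq, eval_eq, Finset.mul_sum]
  apply Finset.sum_congr rfl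
  intro m hm
  have hk : m.degree = k := by
    by_contra h
    exact (MvPolynomial.mem_support_iff.1 hm) (hp.coeff_eq_zero h)
  have : ∏ i ∈ m.support, (c * x i) ^ m i = c ^ k * ∏ i ∈ m.support, x i ^ m i := by
    simp only [mul_pow]
    rw [Finset.prod_mul_distrib, Finset.prod_pow_eq_pow_sum, ← hk]
    rfl
  rw [this]
  ring

/-- a polynomial function on invertible matrices without zeros is invariant under `SL_n` -/
theorem sl_invariant (n : ℕ) (hn : 2 ≤ n) (ph : MvPolynomial (Fin n × Fin n) ℂ)
    (h : ∀ A : Matrix (Fin n) (Fin n) ℂ, A.det ≠ 0 →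
      eval (fun x : Fin n × Fin n => A x.1 x.2) ph ≠ 0) (M : SpecialLinearGroup (Fin n) ℂ) :
    ∀ A : Matrix (Fin n) (Fin n) ℂ, A.det ≠ 0 →
      eval (fun x : Fin n × Fin n => (A * (M : Matrix (Fin n) (Fin n) ℂ)) x.1 x.2) ph =
        eval (fun x : Fin n × Fin n => A x.1 x.2) ph := by
  refine sl_induction n hn (fun M => ∀ A : Matrix (Fin n) (Fin n) ℂ, A.det ≠ 0 →
      eval (fun x : Fin n × Fin n => (A * (M : Matrix (Fin n) (Fin n) ℂ)) x.1 x.2) ph =
        eval (fun x : Fin n × Fin n => A x.1 x.2) ph) ?_ ?_ M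
  · intro i j hij a A hA
    let P : Polynomial ℂ := aeval (fun x : Fin n × Fin n => Polynomial.C (A x.1 x.2) +
      Polynomial.X * Polynomial.C ((A * Matrix.single i j (1 : ℂ) :
        Matrix (Fin n) (Fin n) ℂ) x.1 x.2)) ph
    have hP : ∀ s : ℂ, P.eval s = eval (fun x : Fin n × Fin n =>
        (A * (SpecialLinearGroup.transvection hij s : Matrix (Fin n) (Fin n) ℂ)) x.1 x.2) ph := by
      intro s
      show Polynomial.eval s (aeval _ ph) = _
      rw [eval_aeval_poly]
      congr 2
      funext x
      have : (Matrix.single i j s : Matrix (Fin n) (Fin n) ℂ) = s • Matrix.single i j 1 := by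
        rw [Matrix.smul_single]; simp
      rw [SpecialLinearGroup.transvection_coe, Matrix.mul_add, Matrix.mul_one, this,
        Matrix.mul_smul]
      simp only [Matrix.add_apply, Matrix.smul_apply, smul_eq_mul, Polynomial.eval_add,
        Polynomial.eval_C, Polynomial.eval_mul, Polynomial.eval_X]
    have h0 : P.eval 0 = eval (fun x : Fin n × Fin n => A x.1 x.2) ph := by
      rw [hP 0]
      simp
    rw [← hP a, ← h0]
    apply const_of_no_root
    intro s
    rw [hP s]
    apply h
    rw [Matrix.det_mul]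
    have : (SpecialLinearGroup.transvection hij s : Matrix (Fin n) (Fin n) ℂ).det = 1 :=
      (SpecialLinearGroup.transvection hij s).2
    rw [this, mul_one]
    exact hA
  · intro M N hM hN A hA
    have hAM : (A * (M : Matrix (Fin n) (Fin n) ℂ)).det ≠ 0 := by
      rw [Matrix.det_mul, M.2, mul_one]; exact hA
    have h3 : ((M * N : SpecialLinearGroup (Fin n) ℂ) : Matrix (Fin n) (Fin n) ℂ) =
      (M : Matrix (Fin n) (Fin n) ℂ) * (N : Matrix (Fin n) (Fin n) ℂ) := rfl
    rw [h3, ← Matrix.mul_assoc, hN _ hAM, hM A hA]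

end polys

section hc

/-- all coefficients are homogeneous of degree `k` in the inner variables -/
def Hc {ι τ : Type} (k : ℕ) (P : MvPolynomial τ (MvPolynomial ι ℂ)) : Prop :=
  ∀ m, (coeff m P).IsHomogeneous k

variable {ι τ : Type}

theorem Hc.mul {a b : ℕ} {P Q : MvPolynomial τ (MvPolynomial ι ℂ)} (hP : Hc a P) (hQ : Hc b Q) :
    Hc (a + b) (P * Q) := by
  classical
  intro m
  rw [coeff_mul]
  apply IsHomogeneous.sum
  intro x _
  exact (hP x.1).mul (hQ x.2)

theorem Hc.sum {κ : Type} {a : ℕ} (s : Finset κ) (P : κ → MvPolynomial τ (MvPolynomial ι ℂ))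
    (h : ∀ k ∈ s, Hc a (P k)) : Hc a (∑ k ∈ s, P k) := by
  intro m
  rw [coeff_sum]
  apply IsHomogeneous.sum
  intro x hx
  exact h x hx m

theorem Hc.one : Hc 0 (1 : MvPolynomial τ (MvPolynomial ι ℂ)) := by
  classical
  intro m
  rw [coeff_one]
  split_ifs
  · exact isHomogeneous_one _ _
  · exact isHomogeneous_zero _ _ _

theorem Hc.pow {a : ℕ} {P : MvPolynomial τ (MvPolynomial ι ℂ)} (hP : Hc a P) (k : ℕ) :
    Hc (a * k) (P ^ k) := by
  induction k with
  | zero => simpa using Hc.one
  | succ k ih =>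
    rw [pow_succ, Nat.mul_succ]
    exact ih.mul hP

theorem Hc.prod {κ : Type} (s : Finset κ) (a : κ → ℕ)
    (P : κ → MvPolynomial τ (MvPolynomial ι ℂ))
    (h : ∀ k ∈ s, Hc (a k) (P k)) : Hc (∑ k ∈ s, a k) (∏ k ∈ s, P k) := by
  classical
  induction s using Finset.induction_on with
  | empty => simpa using Hc.one
  | insert x s hx ih =>
    rw [Finset.sum_insert hx, Finset.prod_insert hx]
    exact (h x (Finset.mem_insert_self x s)).mul
      (ih fun k hk => h k (Finset.mem_insert_of_mem hk))

theorem Hc.C {k : ℕ} {q : MvPolynomial ι ℂ} (hq : q.IsHomogeneous k) :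
    Hc k (MvPolynomial.C q : MvPolynomial τ (MvPolynomial ι ℂ)) := by
  classical
  intro m
  rw [coeff_C]
  split_ifs
  · exact hq
  · exact isHomogeneous_zero _ _ _

theorem Hc.map_C (q : MvPolynomial τ ℂ) :
    Hc 0 (MvPolynomial.map MvPolynomial.C q : MvPolynomial τ (MvPolynomial ι ℂ)) := by
  intro m
  rw [coeff_map]
  exact isHomogeneous_C _ _

theorem Hc.Phi [Fintype ι] (ρ : Matrix ι ι (MvPolynomial τ ℂ)) (J0 : MvPolynomial ι ℂ) (k0 : ℕ)
    (hJ0 : J0.IsHomogeneous k0) :
    Hc k0 (aeval (fun i => ∑ j, MvPolynomial.C (X j) * MvPolynomial.map MvPolynomial.C (ρ i j))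
      J0 : MvPolynomial τ (MvPolynomial ι ℂ)) := by
  rw [aeval_def, eval₂_eq']
  apply Hc.sum
  intro d hd
  have hk : ∑ i, d i = k0 := by
    have : d.degree = k0 := by
      by_contra h
      exact (MvPolynomial.mem_support_iff.1 hd) (hJ0.coeff_eq_zero h)
    rw [← this, Finsupp.degree_eq_sum]
  have h1 : Hc (∑ i, d i) (∏ i, (∑ j, MvPolynomial.C (X j) *
      MvPolynomial.map MvPolynomial.C (ρ i j) : MvPolynomial τ (MvPolynomial ι ℂ)) ^ d i) := by
    apply Hc.prod
    intro i _
    have h2 : Hc 1 (∑ j, MvPolynomial.C (X j) * MvPolynomial.map MvPolynomial.C (ρ i j) :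
        MvPolynomial τ (MvPolynomial ι ℂ)) := by
      apply Hc.sum
      intro j _
      exact (Hc.C (isHomogeneous_X ℂ j)).mul (Hc.map_C (ρ i j))
    have h3 := h2.pow (d i)
    rwa [one_mul] at h3
  rw [hk] at h1
  have h2 := (Hc.C (τ := τ) (isHomogeneous_C ι (coeff d J0))).mul h1
  rw [zero_add] at h2
  exact h2

theorem map_Phi [Fintype ι] (ρ : Matrix ι ι (MvPolynomial τ ℂ)) (J0 : MvPolynomial ι ℂ)
    (v : ι → ℂ) :
    MvPolynomial.map (eval v) (aeval (fun i => ∑ j, MvPolynomial.C (X j) *
      MvPolynomial.map MvPolynomial.C (ρ i j)) J0 : MvPolynomial τ (MvPolynomial ι ℂ)) =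
      aeval (fun i => ∑ j, MvPolynomial.C (v j) * ρ i j) J0 := by
  induction J0 using MvPolynomial.induction_on with
  | C a =>
    rw [aeval_C, aeval_C, MvPolynomial.algebraMap_apply, map_C]
    simp
  | add p q hp hq => simp only [map_add, hp, hq]
  | mul_X p i hp =>
    simp only [map_mul, aeval_X, hp, map_sum, map_C, eval_X]
    congr 1
    apply Finset.sum_congr rfl
    intro j _
    congr 1
    rw [MvPolynomial.map_map]
    have : (eval v).comp (MvPolynomial.C : ℂ →+* MvPolynomial ι ℂ) = RingHom.id ℂ := by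
      ext <;> simp
    rw [this, MvPolynomial.map_id]

end hc

section dpsec

/-- the generic determinant -/
noncomputable def gD (n : ℕ) : MvPolynomial (Fin n × Fin n) ℂ :=
  Matrix.det (Matrix.mvPolynomialX (Fin n) (Fin n) ℂ)

theorem gD_ne (n : ℕ) : gD n ≠ 0 := Matrix.det_mvPolynomialX_ne_zero (Fin n) ℂ

theorem eval_gD (n : ℕ) (A : Matrix (Fin n) (Fin n) ℂ) :
    eval (fun x : Fin n × Fin n => A x.1 x.2) (gD n) = A.det := by
  unfold gD
  rw [Matrix.eval_det_mvPolynomialX]
  rfl

theorem apolar_self_ne (n p : ℕ) : apolar (gD n ^ p) (gD n ^ p) ≠ 0 := by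
  classical
  have hmap : gD n ^ p = MvPolynomial.map (Int.castRingHom ℂ)
      (Matrix.det (Matrix.mvPolynomialX (Fin n) (Fin n) ℤ) ^ p) := by
    rw [map_pow]
    congr 1
    unfold gD
    rw [RingHom.map_det]
    congr 1
    ext i j : 2
    simp [Matrix.mvPolynomialX]
  set dz := Matrix.det (Matrix.mvPolynomialX (Fin n) (Fin n) ℤ) ^ p with hdz
  have hne : gD n ^ p ≠ 0 := pow_ne_zero _ (gD_ne n)
  set s := (gD n ^ p).support with hs
  have hsne : s.Nonempty := by
    rw [hs, MvPolynomial.support_nonempty]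
    exact hne
  have hcoef : ∀ m, coeff m (gD n ^ p) = ((coeff m dz : ℤ) : ℂ) := by
    intro m
    rw [hmap, coeff_map]
    rfl
  have h1 : apolar (gD n ^ p) (gD n ^ p) =
      ((∑ m ∈ s, coeff m dz * coeff m dz * ((∏ i, (m i)! : ℕ) : ℤ) : ℤ) : ℂ) := by
    unfold apolar
    push_cast
    apply Finset.sum_congr rfl
    intro m _
    rw [hcoef m]
  rw [h1]
  have h2 : 0 < ∑ m ∈ s, coeff m dz * coeff m dz * ((∏ i, (m i)! : ℕ) : ℤ) := by
    apply Finset.sum_pos _ hsne
    intro m hm
    have h3 : coeff m dz ≠ 0 := by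
      intro h
      apply MvPolynomial.mem_support_iff.1 hm
      rw [hcoef m, h]; simp
    have h4 : 0 < ((∏ i, (m i)! : ℕ) : ℤ) := by
      have : 0 < ∏ i, (m i)! := Finset.prod_pos fun i _ => Nat.factorial_pos _
      exact_mod_cast this
    have h5 : 0 < coeff m dz * coeff m dz := mul_self_pos.2 h3
    exact mul_pos h5 h4
  exact_mod_cast h2.ne'

end dpsec

/-- Reynolds operator lemma. `act A` is a polynomial representation of degree `N` of the monoid of
`n × n` matrices on `ι → ℂ`. -/
theorem exists_invariant (n : ℕ) (hn : 2 ≤ n) {ι : Type} [Fintype ι] [DecidableEq ι]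
    (N k0 p : ℕ) (hdeg : k0 * N = n * p)
    (ρ : Matrix ι ι (MvPolynomial (Fin n × Fin n) ℂ)) (hρ : ∀ i j, (ρ i j).IsHomogeneous N)
    (act : Matrix (Fin n) (Fin n) ℂ → (ι → ℂ) → (ι → ℂ))
    (hact : ∀ A v i, act A v i = ∑ j, eval (fun x : Fin n × Fin n => A x.1 x.2) (ρ i j) * v j)
    (h1 : ∀ v, act 1 v = v) (hmul : ∀ A B v, act (A * B) v = act A (act B v))
    (J0 : MvPolynomial ι ℂ) (hJ0 : J0.IsHomogeneous k0) :
    ∃ J : MvPolynomial ι ℂ, J.IsHomogeneous k0 ∧
      (∀ A : Matrix (Fin n) (Fin n) ℂ, A.det = 1 → ∀ v, eval (act A v) J = eval v J) ∧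
      (∀ v, (∀ A : Matrix (Fin n) (Fin n) ℂ, A.det ≠ 0 → eval (act A v) J0 ≠ 0) →
        eval v J ≠ 0) ∧
      (∀ v, eval v J ≠ 0 → ∃ A : Matrix (Fin n) (Fin n) ℂ, A.det ≠ 0 ∧
        eval (act A v) J0 ≠ 0) := by
  classical
  let Ph : MvPolynomial (Fin n × Fin n) (MvPolynomial ι ℂ) :=
    aeval (fun i => ∑ j, MvPolynomial.C (X j) * MvPolynomial.map MvPolynomial.C (ρ i j)) J0
  let ph : (ι → ℂ) → MvPolynomial (Fin n × Fin n) ℂ := fun v =>
    aeval (fun i => ∑ j, MvPolynomial.C (v j) * ρ i j) J0
  have hPhom : Hc k0 Ph := Hc.Phi ρ J0 k0 hJ0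
  have hmapP : ∀ v, MvPolynomial.map (eval v) Ph = ph v := fun v => map_Phi ρ J0 v
  have hph : ∀ v (A : Matrix (Fin n) (Fin n) ℂ),
      eval (fun x : Fin n × Fin n => A x.1 x.2) (ph v) = eval (act A v) J0 := by
    intro v A
    show eval _ (aeval _ J0) = _
    rw [eval_aeval_gen]
    congr 2
    funext i
    rw [hact, map_sum]
    apply Finset.sum_congr rfl
    intro j _
    rw [map_mul, eval_C, mul_comm]
  let dp := gD n ^ p
  have hdp : ∀ A : Matrix (Fin n) (Fin n) ℂ,
      eval (fun x : Fin n × Fin n => A x.1 x.2) dp = A.det ^ p := by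
    intro A
    show eval _ (gD n ^ p) = _
    rw [map_pow, eval_gD]
  let J : MvPolynomial ι ℂ := ∑ m ∈ dp.support, MvPolynomial.C (coeff m dp * wt m) * coeff m Ph
  have hJ : ∀ v, eval v J = apolar dp (ph v) := by
    intro v
    show eval v (∑ m ∈ dp.support, _) = _
    rw [map_sum, apolar_eq_sum dp (ph v) dp.support (le_refl _)]
    apply Finset.sum_congr rfl
    intro m _
    rw [map_mul, eval_C, ← hmapP v, coeff_map]
    ring
  refine ⟨J, ?_, ?_, ?_, ?_⟩
  · apply IsHomogeneous.sum
    intro m _
    have := (isHomogeneous_C ι (coeff m dp * wt m)).mul (hPhom m)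
    rwa [zero_add] at this
  · intro B hB v
    rw [hJ, hJ]
    let Mx : Matrix (Fin n × Fin n) (Fin n × Fin n) ℂ := fun x y =>
      if x.1 = y.1 then B y.2 x.2 else 0
    have e1 : ph (act B v) = aeval (fun i => ∑ j, MvPolynomial.C (Mx i j) * X j) (ph v) := by
      apply MvPolynomial.funext
      intro x
      have e3 : eval x (ph (act B v)) = eval (act ((Matrix.of fun a b => x (a, b)) * B) v) J0 := by
        rw [hmul, ← hph]
        rfl
      rw [e3, ← hph, eval_aeval_gen x (fun i => ∑ j, MvPolynomial.C (Mx i j) * X j) (ph v)]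
      congr 2
      funext y
      simp only [map_sum, map_mul, eval_C, eval_X, Mx, Matrix.mul_apply, Fintype.sum_prod_type,
        Matrix.of_apply, ite_mul, zero_mul]
      rw [Finset.sum_comm]
      apply Finset.sum_congr rfl
      intro c _
      simp [mul_comm]
    have e2 : aeval (fun i => ∑ j, MvPolynomial.C (Mx j i) * X j) dp = dp := by
      apply MvPolynomial.funext
      intro x
      rw [eval_aeval_gen]
      have e3 : eval x dp = (Matrix.of fun a b => x (a, b) : Matrix (Fin n) (Fin n) ℂ).det ^ p := by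
        rw [← hdp]
        rfl
      have e4 : (fun i => eval x (∑ j, MvPolynomial.C (Mx j i) * X j)) =
          fun y : Fin n × Fin n => ((Matrix.of fun a b => x (a, b) :
            Matrix (Fin n) (Fin n) ℂ) * Bᵀ) y.1 y.2 := by
        funext y
        simp only [map_sum, map_mul, eval_C, eval_X, Mx, Matrix.mul_apply, Fintype.sum_prod_type,
          Matrix.of_apply, ite_mul, zero_mul, Matrix.transpose_apply]
        rw [Finset.sum_comm]
        apply Finset.sum_congr rfl
        intro c _
        simp [mul_comm]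
      rw [e4, hdp, e3, Matrix.det_mul, Matrix.det_transpose, hB, mul_one]
    rw [e1, ← apolar_subst, e2]
  · intro v hv
    rw [hJ]
    have hF : ∀ A : Matrix (Fin n) (Fin n) ℂ, A.det ≠ 0 →
        eval (fun x : Fin n × Fin n => A x.1 x.2) (ph v) ≠ 0 := by
      intro A hA
      rw [hph]
      exact hv A hA
    set c0 := eval (fun x : Fin n × Fin n => (1 : Matrix (Fin n) (Fin n) ℂ) x.1 x.2) (ph v)
      with hc0
    have hc0' : c0 ≠ 0 := hF 1 (by rw [Matrix.det_one]; exact one_ne_zero)
    have hval : ∀ A : Matrix (Fin n) (Fin n) ℂ, A.det ≠ 0 →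
        eval (fun x : Fin n × Fin n => A x.1 x.2) (ph v) = c0 * A.det ^ p := by
      intro A hA
      obtain ⟨l, hl⟩ := IsAlgClosed.exists_pow_nat_eq A.det (show 0 < n by omega)
      have hl0 : l ≠ 0 := by
        rintro rfl
        rw [zero_pow (by omega)] at hl
        exact hA hl.symm
      have hMdet : (l⁻¹ • A).det = 1 := by
        rw [Matrix.det_smul, Fintype.card_fin, inv_pow, hl, inv_mul_cancel₀ hA]
      let M : SpecialLinearGroup (Fin n) ℂ := ⟨l⁻¹ • A, hMdet⟩
      have hM := sl_invariant n hn (ph v) hF M 1 (by rw [Matrix.det_one]; exact one_ne_zero)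
      rw [Matrix.one_mul, ← hc0] at hM
      have hMv : (M : Matrix (Fin n) (Fin n) ℂ) = l⁻¹ • A := rfl
      rw [hMv, hph] at hM
      have hA' : A = l • (l⁻¹ • A) := by
        rw [smul_smul, mul_inv_cancel₀ hl0, one_smul]
      have hactA : act A v = fun i => l ^ N * act (l⁻¹ • A) v i := by
        funext i
        conv_lhs => rw [hA']
        rw [hact, hact, Finset.mul_sum]
        apply Finset.sum_congr rfl
        intro j _
        have : eval (fun x : Fin n × Fin n => (l • (l⁻¹ • A)) x.1 x.2) (ρ i j) =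
            l ^ N * eval (fun x : Fin n × Fin n => (l⁻¹ • A) x.1 x.2) (ρ i j) := by
          rw [← eval_smul_homog _ _ (hρ i j)]
          rfl
        rw [this]
        ring
      rw [hph, hactA, eval_smul_homog _ _ hJ0, hM, ← pow_mul, mul_comm N k0, hdeg, pow_mul, hl]
      ring
    have hpoly : ph v = MvPolynomial.C c0 * dp := by
      have hD : gD n ≠ 0 := gD_ne n
      apply mul_right_cancel₀ hD
      apply MvPolynomial.funext
      intro x
      let A : Matrix (Fin n) (Fin n) ℂ := Matrix.of fun a b => x (a, b)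
      have hx : eval x = eval (fun y : Fin n × Fin n => A y.1 y.2) := rfl
      rw [hx, map_mul, map_mul, map_mul, eval_C, hdp, eval_gD]
      by_cases hA : A.det = 0
      · rw [hA]; simp
      · rw [hval A hA]
    rw [hpoly, apolar_C_mul_right]
    exact mul_ne_zero hc0' (apolar_self_ne n p)
  · intro v hv
    rw [hJ] at hv
    have hphne : ph v ≠ 0 := by
      intro h
      rw [h, apolar_zero_right] at hv
      exact hv rfl
    by_contra hcon
    push Not at hcon
    apply mul_ne_zero hphne (gD_ne n)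
    apply MvPolynomial.funext
    intro x
    let A : Matrix (Fin n) (Fin n) ℂ := Matrix.of fun a b => x (a, b)
    have hx : eval x = eval (fun y : Fin n × Fin n => A y.1 y.2) := rfl
    rw [hx, map_mul, eval_gD, map_zero, hph]
    by_cases hA : A.det = 0
    · rw [hA, mul_zero]
    · rw [hcon A hA, zero_mul]

end Pool.Agent.Helper56.Ulr
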