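import Pool.Agent.Helper56.Ulr.Defs
import Pool.Agent.Helper56.Ulr.Reynolds
import Pool.Agent.Helper56.Disc.Assoc

namespace Pool.Agent.Helper56.Ulr

open MvPolynomial Matrix Pool.Agent.Helper56.Disc

variable {n : ℕ}

theorem socle_tuple {k : ℕ} (hk : 1 ≤ k) (f : Fin n → MvPolynomial (Fin n) ℂ)
    (hf : IsRegularTuple k f) :
    jac f ∉ Ideal.span (Set.range f) ∧ ∀ s : MvPolynomial (Fin n) ℂ,
      s.IsHomogeneous (n * (k - 1)) → ∃ v : ℂ, s - C v * jac f ∈ Ideal.span (Set.range f) := by
  have hm : (k : ℂ) ≠ 0 := by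
    rw [Nat.cast_ne_zero]; omega
  obtain ⟨h1, h2⟩ := socle f k hm hf.1 hf.2
  refine ⟨h1, fun s hs => ?_⟩
  rw [Fintype.card_fin] at h2
  exact h2 s hs

theorem jac_isHomogeneous (k : ℕ) (f : Fin n → MvPolynomial (Fin n) ℂ)
    (hf : ∀ i, (f i).IsHomogeneous k) : (jac f).IsHomogeneous (n * (k - 1)) := by
  unfold jac
  rw [det_apply]
  refine IsHomogeneous.sum _ _ _ fun τ _ => ?_
  have h1 : (∏ i, (Matrix.of fun i j => pderiv j (f i)) (τ i) i).IsHomogeneous
      (∑ _i : Fin n, (k - 1)) := by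
    apply IsHomogeneous.prod
    intro i _
    rw [of_apply]
    exact (hf _).pderiv
  rw [Finset.sum_const, Finset.card_univ, Fintype.card_fin, smul_eq_mul] at h1
  rcases Int.units_eq_one_or (Equiv.Perm.sign τ) with h | h
  · rw [h, one_smul]; exact h1
  · rw [h, Units.neg_smul, one_smul]; exact h1.neg

theorem apolar_form {N : ℕ} (c : Mon n N → ℂ) (s : MvPolynomial (Fin n) ℂ) :
    apolar (form c) s = ∑ μ : Mon n N, c μ * coeff μ.1 s * wt μ.1 := by
  unfold form
  rw [apolar_sum_left]
  exact Finset.sum_congr rfl fun μ _ => apolar_monomial _ _ _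

theorem multinomial_mul_wt {N : ℕ} (μ : Mon n N) :
    (Nat.multinomial Finset.univ μ.1 : ℂ) * wt μ.1 = (N.factorial : ℂ) := by
  unfold wt
  rw [← Nat.cast_mul, mul_comm, Nat.multinomial_spec]
  congr 2
  have := mon_degree μ
  rw [Finsupp.degree_apply] at this
  refine Eq.trans ?_ this
  symm
  apply Finset.sum_subset (Finset.subset_univ _)
  intro x _ hx
  exact Finsupp.notMem_support_iff.1 hx

theorem apolar_linform_pow {N : ℕ} (c : Mon n N → ℂ) (e : Fin n → ℂ) :
    apolar (form c) ((∑ i, C (e i) * X i) ^ N) = (N.factorial : ℂ) * eval e (form c) := by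
  rw [apolar_form, linform_pow]
  conv_rhs => unfold form
  rw [map_sum, Finset.mul_sum]
  apply Finset.sum_congr rfl
  intro μ _
  rw [coeff_form, eval_monomial, Finsupp.prod_fintype _ _ (by simp)]
  rw [← multinomial_mul_wt μ]
  ring

theorem assoc_aux {N : ℕ} (I : Ideal (MvPolynomial (Fin n) ℂ)) (J : MvPolynomial (Fin n) ℂ)
    (hJ : J ∉ I) (hs : ∀ s : MvPolynomial (Fin n) ℂ, s.IsHomogeneous N → ∃ v : ℂ, s - C v * J ∈ I)
    (c : Mon n N → ℂ)
    (h : ∀ e : Fin n → ℂ, (∑ i, C (e i) * X i) ^ N - C (eval e (form c)) * J ∈ I)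
    (s : MvPolynomial (Fin n) ℂ) (hs' : s.IsHomogeneous N) :
    s - C (apolar (form c) s * (N.factorial : ℂ)⁻¹) * J ∈ I := by
  have hfac : (N.factorial : ℂ) ≠ 0 := by
    rw [Nat.cast_ne_zero]; exact Nat.factorial_ne_zero _
  choose v hv using fun μ : Mon n N => hs (monomial μ.1 1)
    (isHomogeneous_monomial _ (mon_degree μ))
  -- combination over all monomials
  have hcomb : ∀ x : Mon n N → ℂ, form x - C (∑ μ, x μ * v μ) * J ∈ I := by
    intro x
    have e1 : form x - C (∑ μ, x μ * v μ) * J =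
        ∑ μ, C (x μ) * (monomial μ.1 1 - C (v μ) * J) := by
      unfold form
      rw [map_sum, Finset.sum_mul, ← Finset.sum_sub_distrib]
      apply Finset.sum_congr rfl
      intro μ _
      rw [mul_sub, C_mul_monomial, mul_one, map_mul, mul_assoc]
    rw [e1]
    exact Ideal.sum_mem _ fun μ _ => Ideal.mul_mem_left _ _ (hv μ)
  have hc : c = fun μ => (Nat.multinomial Finset.univ μ.1 : ℂ) * v μ := by
    have h2 : form c = form (fun μ => (Nat.multinomial Finset.univ μ.1 : ℂ) * v μ) := by
      apply MvPolynomial.funext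
      intro e
      have h3 := h e
      rw [linform_pow] at h3
      have h4 := hcomb (fun γ : Mon n N =>
        (Nat.multinomial Finset.univ γ.1 : ℂ) * ∏ i, e i ^ γ.1 i)
      have h5 := Ideal.sub_mem _ h3 h4
      have h6 : eval e (form (fun μ : Mon n N =>
          (Nat.multinomial Finset.univ μ.1 : ℂ) * v μ)) =
          ∑ μ : Mon n N, ((Nat.multinomial Finset.univ μ.1 : ℂ) *
            ∏ i, e i ^ μ.1 i) * v μ := by
        unfold form
        rw [map_sum]
        apply Finset.sum_congr rfl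
        intro γ _
        rw [eval_monomial, Finsupp.prod_fintype _ _ (by simp)]
        ring
      rw [← h6] at h5
      set F' := form (fun μ : Mon n N => (Nat.multinomial Finset.univ μ.1 : ℂ) * v μ) with hF'
      have h7 : C (eval e F' - eval e (form c)) * J ∈ I := by
        convert h5 using 1
        rw [map_sub]
        ring
      by_contra hne
      have hne' : eval e F' - eval e (form c) ≠ 0 := sub_ne_zero.2 (Ne.symm hne)
      apply hJ
      have h8 := Ideal.mul_mem_left _ (C (eval e F' - eval e (form c))⁻¹) h7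
      rw [← mul_assoc, ← map_mul, inv_mul_cancel₀ hne', map_one, one_mul] at h8
      exact h8
    rw [← cv_form c, h2, cv_form]
  have h1 := hcomb (cv s)
  rw [form_cv s hs'] at h1
  have h2 : apolar (form c) s * (N.factorial : ℂ)⁻¹ = ∑ μ : Mon n N, cv s μ * v μ := by
    rw [apolar_form, Finset.sum_mul]
    apply Finset.sum_congr rfl
    intro μ _
    have h3 := multinomial_mul_wt μ
    rw [hc]
    simp only [cv]
    have h4 : (Nat.multinomial Finset.univ μ.1 : ℂ) * v μ * coeff μ.1 s * wt μ.1 =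
        coeff μ.1 s * v μ * ((Nat.multinomial Finset.univ μ.1 : ℂ) * wt μ.1) := by ring
    rw [h4, h3, mul_assoc, mul_inv_cancel₀ hfac, mul_one]
  rw [h2]
  exact h1

/-- The associated form in terms of the apolar pairing. -/
theorem isAssociated_iff {d : ℕ} (hd : 3 ≤ d) (f : Fin n → MvPolynomial (Fin n) ℂ)
    (hf : IsRegularTuple (d - 1) f) (c : Mon n (n * (d - 2)) → ℂ) :
    IsAssociated d f (form c) ↔ ∀ s : MvPolynomial (Fin n) ℂ, s.IsHomogeneous (n * (d - 2)) →
      s - C (apolar (form c) s * ((n * (d - 2)).factorial : ℂ)⁻¹) * jac f ∈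
        Ideal.span (Set.range f) := by
  obtain ⟨h1, h2⟩ := socle_tuple (by omega) f hf
  have hd1 : d - 1 - 1 = d - 2 := by omega
  rw [hd1] at h2
  unfold IsAssociated
  generalize n * (d - 2) = N at *
  constructor
  · rintro ⟨_, h⟩
    exact assoc_aux _ _ h1 h2 c h
  · intro h
    refine ⟨form_isHomogeneous _, fun e => ?_⟩
    have h3 := h ((∑ i, C (e i) * X i) ^ N) ?_
    · rw [apolar_linform_pow] at h3
      have hfac : (N.factorial : ℂ) ≠ 0 := by
        rw [Nat.cast_ne_zero]; exact Nat.factorial_ne_zero _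
      have h4 : (N.factorial : ℂ) * eval e (form c) * (N.factorial : ℂ)⁻¹ = eval e (form c) := by
        field_simp
      rwa [h4] at h3
    · rw [linform_pow]
      exact form_isHomogeneous _

/-- `F` is apolar to all multiples of the forms `g i`. -/
def Perp (N k : ℕ) (F : MvPolynomial (Fin n) ℂ) (g : Fin n → MvPolynomial (Fin n) ℂ) : Prop :=
  ∀ i, ∀ h : MvPolynomial (Fin n) ℂ, h.IsHomogeneous (N - k) → apolar F (g i * h) = 0

theorem perp_ideal {N k : ℕ} (hk : k ≤ N) (F : MvPolynomial (Fin n) ℂ)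
    (g : Fin n → MvPolynomial (Fin n) ℂ) (hg : ∀ i, (g i).IsHomogeneous k) (hF : Perp N k F g)
    (s : MvPolynomial (Fin n) ℂ) (hs : s.IsHomogeneous N) (hmem : s ∈ Ideal.span (Set.range g)) :
    apolar F s = 0 := by
  have hs' : s.IsHomogeneous (N - k + k) := by rwa [Nat.sub_add_cancel hk]
  obtain ⟨p, hp, hps⟩ := exists_homogeneous_coeffs g k (N - k) hg s hs' hmem
  rw [hps, apolar_sum_right]
  apply Finset.sum_eq_zero
  intro i _
  rw [mul_comm]
  exact hF i _ (hp i)

theorem apolar_jac_ne_zero {k : ℕ} (hk : 1 ≤ k) (hkN : k ≤ n * (k - 1))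
    (F : MvPolynomial (Fin n) ℂ) (hF0 : F ≠ 0) (hFh : F.IsHomogeneous (n * (k - 1)))
    (g : Fin n → MvPolynomial (Fin n) ℂ) (hg : IsRegularTuple k g)
    (hF : Perp (n * (k - 1)) k F g) : apolar F (jac g) ≠ 0 := by
  intro h0
  apply hF0
  ext μ
  by_cases hμ : μ.degree = n * (k - 1)
  · obtain ⟨v, hv⟩ := (socle_tuple hk g hg).2 (monomial μ 1) (isHomogeneous_monomial _ hμ)
    have h1 := perp_ideal hkN F g hg.1 hF _ ((isHomogeneous_monomial _ hμ).sub
      ((jac_isHomogeneous k g hg.1).C_mul v)) hv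
    have h2 : apolar F (monomial μ 1) = 0 := by
      have e1 : (monomial μ 1 : MvPolynomial (Fin n) ℂ) =
          (monomial μ 1 - C v * jac g) + C v * jac g := by ring
      rw [e1, apolar_add_right, h1, apolar_C_mul_right, h0]
      simp
    rw [apolar_eq_sum F _ (insert μ F.support) (Finset.subset_insert _ _),
      Finset.sum_eq_single μ] at h2
    · rw [coeff_monomial, if_pos rfl, mul_one] at h2
      rw [coeff_zero]
      rcases mul_eq_zero.1 h2 with h3 | h3
      · exact h3
      · exfalso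
        unfold wt at h3
        rw [Nat.cast_eq_zero, Finset.prod_eq_zero_iff] at h3
        obtain ⟨i, _, hi⟩ := h3
        exact Nat.factorial_ne_zero _ hi
    · intro ν _ hν
      rw [coeff_monomial, if_neg (Ne.symm hν)]
      simp
    · intro h
      exact absurd (Finset.mem_insert_self _ _) h
  · rw [coeff_zero]
    by_contra hne
    exact hμ (degree_of_isHomogeneous hFh hne)

end Pool.Agent.Helper56.Ulr
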