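import Mathlib

namespace Pool.Agent.Helper56.Ulr

open MvPolynomial Matrix Finset

variable {R : Type*} [CommRing R] {m : ℕ}

/-- The degree of `p` in the variable `l` is at most `d l`. -/
def InBox (d : Fin m → ℕ) (p : MvPolynomial (Fin m) R) : Prop := ∀ l, degreeOf l p ≤ d l

theorem InBox.mono {d e : Fin m → ℕ} {p : MvPolynomial (Fin m) R} (h : InBox d p)
    (hde : ∀ l, d l ≤ e l) : InBox e p := fun l => (h l).trans (hde l)

theorem InBox.zero (d : Fin m → ℕ) : InBox d (0 : MvPolynomial (Fin m) R) := by
  intro l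
  rw [degreeOf_zero]
  exact Nat.zero_le _

theorem InBox.C (d : Fin m → ℕ) (a : R) : InBox d (MvPolynomial.C a : MvPolynomial (Fin m) R) := by
  intro l
  rw [degreeOf_C]
  exact Nat.zero_le _

theorem InBox.one (d : Fin m → ℕ) : InBox d (1 : MvPolynomial (Fin m) R) := InBox.C d 1

theorem InBox.add {d : Fin m → ℕ} {p q : MvPolynomial (Fin m) R} (hp : InBox d p)
    (hq : InBox d q) : InBox d (p + q) := fun l =>
  (degreeOf_add_le l p q).trans (max_le (hp l) (hq l))

theorem InBox.mul {d e : Fin m → ℕ} {p q : MvPolynomial (Fin m) R} (hp : InBox d p)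
    (hq : InBox e q) : InBox (d + e) (p * q) := fun l =>
  (degreeOf_mul_le l p q).trans (Nat.add_le_add (hp l) (hq l))

theorem InBox.C_mul {d : Fin m → ℕ} {p : MvPolynomial (Fin m) R} (a : R) (hp : InBox d p) :
    InBox d (MvPolynomial.C a * p) := fun l => (degreeOf_C_mul_le p l a).trans (hp l)

theorem InBox.neg {d : Fin m → ℕ} {p : MvPolynomial (Fin m) R} (hp : InBox d p) :
    InBox d (-p) := by
  have h : -p = MvPolynomial.C (-1) * p := by simp
  rw [h]
  exact hp.C_mul _

theorem InBox.sub {d : Fin m → ℕ} {p q : MvPolynomial (Fin m) R} (hp : InBox d p)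
    (hq : InBox d q) : InBox d (p - q) := by
  rw [sub_eq_add_neg]
  exact hp.add hq.neg

theorem InBox.sum {ι : Type*} {d : Fin m → ℕ} (s : Finset ι) (f : ι → MvPolynomial (Fin m) R)
    (h : ∀ i ∈ s, InBox d (f i)) : InBox d (∑ i ∈ s, f i) := by
  classical
  induction s using Finset.induction_on with
  | empty => simpa using InBox.zero d
  | insert a s ha ih =>
    rw [Finset.sum_insert ha]
    exact (h a (Finset.mem_insert_self _ _)).add
      (ih fun i hi => h i (Finset.mem_insert_of_mem hi))

theorem InBox.prod {ι : Type*} {d : ι → Fin m → ℕ} (s : Finset ι)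
    (f : ι → MvPolynomial (Fin m) R) (h : ∀ i ∈ s, InBox (d i) (f i)) :
    InBox (∑ i ∈ s, d i) (∏ i ∈ s, f i) := by
  classical
  induction s using Finset.induction_on with
  | empty => simpa using InBox.one (0 : Fin m → ℕ)
  | insert a s ha ih =>
    rw [Finset.prod_insert ha, Finset.sum_insert ha]
    exact (h a (Finset.mem_insert_self _ _)).mul
      (ih fun i hi => h i (Finset.mem_insert_of_mem hi))

theorem InBox.det {N : ℕ} (A : Matrix (Fin N) (Fin N) (MvPolynomial (Fin m) R))
    (β : Fin N → Fin m → ℕ) (h : ∀ i j, InBox (β j) (A i j)) : InBox (∑ j, β j) A.det := by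
  rw [Matrix.det_apply']
  refine InBox.sum _ _ fun σ _ => ?_
  have h1 : InBox (∑ j, β j) (∏ i, A (σ i) i) := InBox.prod _ _ fun i _ => h _ _
  have h2 : ((Equiv.Perm.sign σ : ℤ) : MvPolynomial (Fin m) R) =
      MvPolynomial.C ((Equiv.Perm.sign σ : ℤ) : R) := by simp
  rw [h2]
  exact h1.C_mul _

/-- Substituting the constant `c` for the variable `l`. -/
noncomputable def ev (l : Fin m) (c : R) : MvPolynomial (Fin m) R →ₐ[R] MvPolynomial (Fin m) R :=
  aeval (Function.update X l (MvPolynomial.C c))

/-- The divided difference in the variable `l` between `X l` and `c`. -/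
noncomputable def dd (l : Fin m) (c : R) : MvPolynomial (Fin m) R →ₗ[R] MvPolynomial (Fin m) R :=
  (basisMonomials (Fin m) R).constr R fun γ =>
    ∑ i ∈ range (γ l), monomial (γ.update l i) (c ^ (γ l - 1 - i))

theorem dd_monomial (l : Fin m) (c : R) (γ : Fin m →₀ ℕ) (a : R) :
    dd l c (monomial γ a) = ∑ i ∈ range (γ l), monomial (γ.update l i) (a * c ^ (γ l - 1 - i)) := by
  have h1 : monomial γ a = a • (basisMonomials (Fin m) R) γ := by
    rw [coe_basisMonomials, smul_monomial, smul_eq_mul, mul_one]
  rw [h1, map_smul, dd, Module.Basis.constr_basis, Finset.smul_sum]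
  apply Finset.sum_congr rfl
  intro i _
  rw [smul_monomial, smul_eq_mul]

theorem ev_monomial (l : Fin m) (c : R) (γ : Fin m →₀ ℕ) (a : R) :
    ev l c (monomial γ a) = monomial (γ.update l 0) (a * c ^ (γ l)) := by
  unfold ev
  rw [aeval_monomial, monomial_eq, map_mul, map_pow, mul_assoc, algebraMap_eq]
  congr 1
  rw [Finsupp.prod_fintype _ _ (by simp), Finsupp.prod_fintype _ _ (by simp),
    ← Finset.mul_prod_erase _ _ (Finset.mem_univ l),
    ← Finset.mul_prod_erase _ (fun i => X i ^ (γ.update l 0) i) (Finset.mem_univ l)]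
  simp only [Function.update_self, Finsupp.coe_update, pow_zero, one_mul]
  congr 1
  apply Finset.prod_congr rfl
  intro i hi
  have hil : i ≠ l := (Finset.mem_erase.1 hi).1
  rw [Function.update_of_ne hil, Function.update_of_ne hil]

theorem X_sub_C_mul_dd (l : Fin m) (c : R) (p : MvPolynomial (Fin m) R) :
    (X l - C c) * dd l c p = p - ev l c p := by
  induction p using MvPolynomial.induction_on' with
  | monomial γ a =>
    rw [dd_monomial, ev_monomial, Finset.mul_sum]
    have h1 : ∀ i ∈ range (γ l), (X l - C c) * monomial (γ.update l i) (a * c ^ (γ l - 1 - i)) =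
        monomial (γ.update l (i + 1)) (a * c ^ (γ l - (i + 1))) -
          monomial (γ.update l i) (a * c ^ (γ l - i)) := by
      intro i hi
      rw [Finset.mem_range] at hi
      rw [sub_mul, C_mul_monomial]
      congr 1
      · rw [X, monomial_mul, one_mul]
        have e1 : (Finsupp.single l 1 + γ.update l i : Fin m →₀ ℕ) = γ.update l (i + 1) := by
          ext t
          by_cases ht : t = l
          · subst ht
            simp [add_comm]
          · simp [Function.update_of_ne ht, Ne.symm ht]
        rw [e1, Nat.sub_sub, add_comm 1 i]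
      · have e2 : γ l - i = (γ l - 1 - i) + 1 := by omega
        rw [e2, pow_succ]
        congr 1
        ring
    rw [Finset.sum_congr rfl h1, Finset.sum_range_sub
      (fun i => monomial (γ.update l i) (a * c ^ (γ l - i)))]
    simp
  | add p q hp hq => rw [map_add, mul_add, hp, hq, map_add]; ring

theorem degreeOf_le_of_support {p : MvPolynomial (Fin m) R} {l : Fin m} {d : ℕ}
    (h : ∀ γ ∈ p.support, γ l ≤ d) : degreeOf l p ≤ d := degreeOf_le_iff.2 h

theorem InBox.ev {d : Fin m → ℕ} {p : MvPolynomial (Fin m) R} (hp : InBox d p) (l : Fin m)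
    (c : R) : InBox (Function.update d l 0) (Ulr.ev l c p) := by
  have h1 : Ulr.ev l c p = ∑ γ ∈ p.support, monomial (γ.update l 0) (coeff γ p * c ^ (γ l)) := by
    conv_lhs => rw [p.as_sum, map_sum]
    exact Finset.sum_congr rfl fun γ _ => ev_monomial _ _ _ _
  rw [h1]
  refine InBox.sum _ _ fun γ hγ t => ?_
  refine degreeOf_le_of_support fun δ hδ => ?_
  have h2 := support_monomial_subset hδ
  rw [Finset.mem_singleton] at h2
  subst h2
  by_cases ht : t = l
  · subst ht
    simp
  · rw [Finsupp.coe_update, Function.update_of_ne ht, Function.update_of_ne ht]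
    exact degreeOf_le_iff.1 (hp t) γ hγ

theorem InBox.dd {d : Fin m → ℕ} {p : MvPolynomial (Fin m) R} (hp : InBox d p) (l : Fin m)
    (c : R) : InBox (Function.update d l (d l - 1)) (dd l c p) := by
  have h1 : Ulr.dd l c p = ∑ γ ∈ p.support, ∑ i ∈ range (γ l),
      monomial (γ.update l i) (coeff γ p * c ^ (γ l - 1 - i)) := by
    conv_lhs => rw [p.as_sum, map_sum]
    exact Finset.sum_congr rfl fun γ _ => dd_monomial _ _ _ _
  rw [h1]
  refine InBox.sum _ _ fun γ hγ => InBox.sum _ _ fun i hi t => ?_
  rw [Finset.mem_range] at hi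
  refine degreeOf_le_of_support fun δ hδ => ?_
  have h2 := support_monomial_subset hδ
  rw [Finset.mem_singleton] at h2
  subst h2
  have h3 := degreeOf_le_iff.1 (hp t) γ hγ
  by_cases ht : t = l
  · subst ht
    simp only [Finsupp.coe_update, Function.update_self]
    omega
  · rw [Finsupp.coe_update, Function.update_of_ne ht, Function.update_of_ne ht]
    exact h3

theorem eval_ev (l : Fin m) (x : Fin m → R) (p : MvPolynomial (Fin m) R) :
    eval x (Ulr.ev l (x l) p) = eval x p := by
  have h : (aeval x).comp (Ulr.ev l (x l)) = (aeval x : MvPolynomial (Fin m) R →ₐ[R] R) := by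
    apply MvPolynomial.algHom_ext
    intro t
    by_cases ht : t = l
    · subst ht
      simp [Ulr.ev]
    · simp [Ulr.ev, Function.update_of_ne ht]
  have h2 := DFunLike.congr_fun h p
  simpa [aeval_eq_eval] using h2

theorem eq_C_of_inBox_zero {p : MvPolynomial (Fin m) R} (hp : InBox 0 p) :
    p = C (coeff 0 p) := by
  ext γ
  rw [coeff_C]
  by_cases hγ : 0 = γ
  · rw [if_pos hγ, hγ]
  · rw [if_neg hγ]
    by_contra hne
    apply hγ
    ext t
    have := degreeOf_le_iff.1 (hp t) γ (mem_support_iff.2 hne)
    simp only [Pi.zero_apply, Nat.le_zero] at this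
    simp [this]

end Pool.Agent.Helper56.Ulr
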