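import Pool.Agent.Helper56.Ulr.Generic
import Pool.Agent.Helper56.Ulr.MinorsRank

namespace Pool.Agent.Helper56.Ulr

open MvPolynomial Matrix Pool.Agent.Helper56.Disc

variable {n : ℕ}

/-- The catalecticant matrix of a form of degree `N`. -/
noncomputable def Cat {N : ℕ} (k : ℕ) (c : Mon n N → ℂ) :
    Matrix (Mon n k) (Mon n (N - k)) ℂ :=
  Matrix.of fun α β => apolar (form c) (monomial (α.1 + β.1) 1)

/-- The catalecticant matrix with polynomial entries. -/
noncomputable def CatP (n N k : ℕ) :
    Matrix (Mon n k) (Mon n (N - k)) (MvPolynomial (Mon n N) ℂ) :=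
  Matrix.of fun α β => ∑ μ : Mon n N,
    C (coeff μ.1 (monomial (α.1 + β.1) (1 : ℂ)) * wt μ.1) * X μ

theorem eval_CatP {N : ℕ} (k : ℕ) (c : Mon n N → ℂ) (α : Mon n k) (β : Mon n (N - k)) :
    eval c (CatP n N k α β) = Cat k c α β := by
  rw [CatP, Cat, of_apply, of_apply, apolar_form, map_sum]
  apply Finset.sum_congr rfl
  intro μ _
  rw [map_mul, eval_C, eval_X]
  ring

/-- The set of minors. -/
def minors (n N k r : ℕ) : Set (MvPolynomial (Mon n N) ℂ) :=
  {s | ∃ (f : Fin (r + 1) → Mon n k) (g : Fin (r + 1) → Mon n (N - k)),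
    s = ((CatP n N k).submatrix f g).det}

theorem minors_iff {N : ℕ} (k r : ℕ) (c : Mon n N → ℂ) :
    (∀ s ∈ minors n N k r, eval c s = 0) ↔ (Cat k c).rank ≤ r := by
  classical
  have h : ∀ (f : Fin (r + 1) → Mon n k) (g : Fin (r + 1) → Mon n (N - k)),
      eval c ((CatP n N k).submatrix f g).det = ((Cat k c).submatrix f g).det := by
    intro f g
    rw [RingHom.map_det]
    congr 1
    ext1 i j
    rw [RingHom.mapMatrix_apply, map_apply, submatrix_apply, submatrix_apply, eval_CatP]
  rw [rank_le_iff_minors]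
  constructor
  · intro h1 f g
    rw [← h]
    exact h1 _ ⟨f, g, rfl⟩
  · rintro h1 s ⟨f, g, rfl⟩
    rw [h]
    exact h1 f g

/-- The left kernel of the catalecticant matrix. -/
theorem vecMul_Cat_eq_zero {N : ℕ} (k : ℕ) (c : Mon n N → ℂ) (v : Mon n k → ℂ) :
    (Cat k c)ᵀ.mulVec v = 0 ↔ ∀ h : MvPolynomial (Fin n) ℂ, h.IsHomogeneous (N - k) →
      apolar (form c) (form v * h) = 0 := by
  have key : ∀ β : Mon n (N - k), (Cat k c)ᵀ.mulVec v β =
      apolar (form c) (form v * monomial β.1 1) := by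
    intro β
    rw [mulVec, dotProduct]
    conv_rhs => rw [form.eq_def v, Finset.sum_mul, apolar_sum_right]
    apply Finset.sum_congr rfl
    intro α _
    rw [transpose_apply, Cat, of_apply, monomial_mul, mul_one]
    have h1 : (monomial (α.1 + β.1) (v α) : MvPolynomial (Fin n) ℂ) =
        C (v α) * monomial (α.1 + β.1) 1 := by rw [C_mul_monomial, mul_one]
    rw [h1, apolar_C_mul_right, mul_comm]
  constructor
  · intro h0 h hh
    rw [← form_cv h hh, form.eq_def (cv h), Finset.mul_sum, apolar_sum_right]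
    apply Finset.sum_eq_zero
    intro β _
    have h1 : form v * (monomial β.1 (cv h β) : MvPolynomial (Fin n) ℂ) =
        C (cv h β) * (form v * monomial β.1 1) := by
      rw [← mul_left_comm, C_mul_monomial, mul_one]
    rw [h1, apolar_C_mul_right, ← key, h0, Pi.zero_apply, mul_zero]
  · intro h
    funext β
    rw [key, Pi.zero_apply]
    exact h _ (isHomogeneous_monomial _ (mon_degree β))

/-- The form as a linear map. -/
noncomputable def formL (n k : ℕ) : (Mon n k → ℂ) →ₗ[ℂ] MvPolynomial (Fin n) ℂ where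
  toFun := form
  map_add' := form_add
  map_smul' := fun a v => by
    unfold form
    rw [RingHom.id_apply, Finset.smul_sum]
    apply Finset.sum_congr rfl
    intro α _
    rw [smul_monomial]
    rfl

theorem formL_ker (n k : ℕ) : LinearMap.ker (formL n k) = ⊥ := by
  rw [LinearMap.ker_eq_bot']
  intro v hv
  have h : form v = 0 := hv
  rw [← cv_form v, h]
  funext γ
  exact coeff_zero _

theorem le_card_mon {k : ℕ} (hk : 1 ≤ k) : n ≤ Fintype.card (Mon n k) := by
  have h : ∀ i : Fin n, (Finsupp.single i k).degree = k := fun i => Finsupp.degree_single _ _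
  have h1 : Function.Injective (fun i : Fin n => (⟨Finsupp.single i k, mem_mon _ (h i)⟩ : Mon n k)) := by
    intro i j hij
    have h2 : Finsupp.single i k = Finsupp.single j k := congrArg Subtype.val hij
    exact Finsupp.single_left_injective (by omega) h2
  have h2 := Fintype.card_le_of_injective _ h1
  rwa [Fintype.card_fin] at h2

theorem rank_Cat_add {N : ℕ} (k : ℕ) (c : Mon n N → ℂ) :
    (Cat k c).rank + Module.finrank ℂ (LinearMap.ker (Cat k c)ᵀ.mulVecLin) =
      Fintype.card (Mon n k) := by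
  have h1 := LinearMap.finrank_range_add_finrank_ker (Cat k c)ᵀ.mulVecLin
  rw [Module.finrank_fintype_fun_eq_card] at h1
  rw [← h1, ← rank_transpose]
  rfl

/-- If the minors vanish there are `n` independent forms apolar to `form c`. -/
theorem exists_perp {N : ℕ} (k : ℕ) (hk : 1 ≤ k) (c : Mon n N → ℂ)
    (h : ∀ s ∈ minors n N k (Fintype.card (Mon n k) - n), eval c s = 0) :
    ∃ g : Fin n → MvPolynomial (Fin n) ℂ, (∀ i, (g i).IsHomogeneous k) ∧
      LinearIndependent ℂ g ∧ Perp N k (form c) g := by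
  rw [minors_iff] at h
  have h1 := rank_Cat_add k c
  have h2 := le_card_mon (n := n) hk
  have h3 : n ≤ Module.finrank ℂ (LinearMap.ker (Cat k c)ᵀ.mulVecLin) := by omega
  obtain ⟨v, hv⟩ := exists_linearIndependent_of_le_finrank h3
  refine ⟨fun i => form (v i : Mon n k → ℂ), fun i => form_isHomogeneous _, ?_, ?_⟩
  · have h4 := hv.map' (Submodule.subtype _) (Submodule.ker_subtype _)
    exact h4.map' (formL n k) (formL_ker n k)
  · intro i
    have h4 : (Cat k c)ᵀ.mulVec (v i : Mon n k → ℂ) = 0 := LinearMap.mem_ker.1 (v i).2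
    exact (vecMul_Cat_eq_zero k c _).1 h4

/-- Conversely. -/
theorem minors_of_perp {N : ℕ} (k : ℕ) (c : Mon n N → ℂ)
    (g : Fin n → MvPolynomial (Fin n) ℂ) (hg : ∀ i, (g i).IsHomogeneous k)
    (hlin : LinearIndependent ℂ g) (hF : Perp N k (form c) g) :
    ∀ s ∈ minors n N k (Fintype.card (Mon n k) - n), eval c s = 0 := by
  rw [minors_iff]
  have h1 := rank_Cat_add k c
  have h2 : ∀ i, (cv (g i) : Mon n k → ℂ) ∈ LinearMap.ker (Cat k c)ᵀ.mulVecLin := by
    intro i
    rw [LinearMap.mem_ker, mulVecLin_apply, vecMul_Cat_eq_zero, form_cv _ (hg i)]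
    exact hF i
  have h3 : LinearIndependent ℂ (fun i => (⟨cv (g i), h2 i⟩ :
      LinearMap.ker (Cat k c)ᵀ.mulVecLin)) := by
    apply LinearIndependent.of_comp (Submodule.subtype _)
    apply LinearIndependent.of_comp (formL n k)
    have h4 : (formL n k ∘ (Submodule.subtype (LinearMap.ker (Cat k c)ᵀ.mulVecLin) ∘
        fun i => (⟨cv (g i), h2 i⟩ : LinearMap.ker (Cat k c)ᵀ.mulVecLin))) = g := by
      funext i
      exact form_cv _ (hg i)
    rw [h4]
    exact hlin
  have h5 := h3.fintype_card_le_finrank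
  rw [Fintype.card_fin] at h5
  omega

end Pool.Agent.Helper56.Ulr
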