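import Pool.Agent.Helper56.Disc.Defs

namespace Pool.Agent.Helper56.Ulr

open MvPolynomial Pool.Agent.Helper56.Disc

variable {n : ℕ}

/-- `f` is an `n`-tuple of forms of degree `k` in `n` variables with nonzero resultant: the forms
have no common zero except the origin. -/
def IsRegularTuple (k : ℕ) (f : Fin n → MvPolynomial (Fin n) ℂ) : Prop :=
  (∀ i, (f i).IsHomogeneous k) ∧ ∀ z : Fin n → ℂ, (∀ i, eval z (f i) = 0) → z = 0

/-- The Jacobian determinant of `f`. -/
noncomputable def jac (f : Fin n → MvPolynomial (Fin n) ℂ) : MvPolynomial (Fin n) ℂ :=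
  (Matrix.of fun i j => pderiv j (f i)).det

/-- `F` is the associated form of the tuple `f` of forms of degree `d - 1`: it is homogeneous of
degree `n (d - 2)`, and for every point `e` the value `F(e)` is the scalar with
`(e_1 z_1 + ... + e_n z_n) ^ (n (d - 2)) = F(e) Jac(f)` modulo the ideal `(f_1, ..., f_n)`. -/
def IsAssociated (d : ℕ) (f : Fin n → MvPolynomial (Fin n) ℂ) (F : MvPolynomial (Fin n) ℂ) :
    Prop :=
  F.IsHomogeneous (n * (d - 2)) ∧ ∀ e : Fin n → ℂ,
    (∑ i, C (e i) * X i) ^ (n * (d - 2)) - C (eval e F) * jac f ∈ Ideal.span (Set.range f)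

/-- The set `U` of the coefficient vectors of the associated forms of all `n`-tuples of forms of
degree `d - 1` with nonzero resultant. -/
def assocImage (n d : ℕ) : Set (Mon n (n * (d - 2)) → ℂ) :=
  {c | ∃ f : Fin n → MvPolynomial (Fin n) ℂ, IsRegularTuple (d - 1) f ∧
    IsAssociated d f (form c)}

/-- The form `F(A e)`, obtained from `F` by the linear substitution `e_i ↦ ∑ j, A i j e_j`. -/
noncomputable def subst (A : Matrix (Fin n) (Fin n) ℂ) (F : MvPolynomial (Fin n) ℂ) :
    MvPolynomial (Fin n) ℂ :=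
  aeval (fun i => ∑ j, C (A i j) * X j) F

/-- A polynomial `J` in the coefficients of forms of degree `N` in `n` variables is an
`SL_n`-invariant. -/
def IsSLInvariant {N : ℕ} (J : MvPolynomial (Mon n N) ℂ) : Prop :=
  ∀ A : Matrix (Fin n) (Fin n) ℂ, A.det = 1 → ∀ c c' : Mon n N → ℂ,
    form c' = subst A (form c) → eval c' J = eval c J

end Pool.Agent.Helper56.Ulr
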