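import Pool.Agent.Helper56.Ulr.Closed

namespace Pool.Agent.Helper56.Ulr

open MvPolynomial Matrix Pool.Agent.Helper56.Disc

variable {n : ℕ}

theorem jac_ne_zero {k : ℕ} (hk : 1 ≤ k) (f : Fin n → MvPolynomial (Fin n) ℂ)
    (hf : IsRegularTuple k f) : jac f ≠ 0 := by
  intro h
  apply (socle_tuple hk f hf).1
  rw [h]
  exact Ideal.zero_mem _

/-- A regular tuple is linearly independent. -/
theorem regular_linearIndependent {k : ℕ} (hk : 1 ≤ k) (f : Fin n → MvPolynomial (Fin n) ℂ)
    (hf : IsRegularTuple k f) : LinearIndependent ℂ f := by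
  classical
  rw [Fintype.linearIndependent_iff]
  intro a ha i
  have h1 : (fun i => (C (a i) : MvPolynomial (Fin n) ℂ)) = 0 := by
    apply Matrix.eq_zero_of_vecMul_eq_zero (jac_ne_zero hk f hf)
    funext j
    have h2 := congrArg (pderiv j) ha
    rw [map_sum, map_zero] at h2
    rw [Pi.zero_apply, ← h2, vecMul, dotProduct]
    apply Finset.sum_congr rfl
    intro i _
    rw [of_apply, Derivation.map_smul, smul_eq_C_mul]
  have h2 := congrFun h1 i
  rwa [Pi.zero_apply, C_eq_zero] at h2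

/-- The associated form exists and is unique. -/
theorem existsUnique_isAssociated {d : ℕ} (hd : 3 ≤ d) (f : Fin n → MvPolynomial (Fin n) ℂ)
    (hf : IsRegularTuple (d - 1) f) : ∃! F, IsAssociated d f F := by
  classical
  obtain ⟨h1, h2⟩ := socle_tuple (by omega) f hf
  have hd1 : d - 1 - 1 = d - 2 := by omega
  rw [hd1] at h2
  have h3 : ∀ γ : Mon n (n * (d - 2)), ∃ v : ℂ, (monomial γ.1 1 : MvPolynomial (Fin n) ℂ) -
      C v * jac f ∈ Ideal.span (Set.range f) :=
    fun γ => h2 _ (isHomogeneous_monomial _ (mon_degree γ))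
  choose v hv using h3
  have hassoc : IsAssociated d f (form (fun γ : Mon n (n * (d - 2)) =>
      (Nat.multinomial Finset.univ γ.1 : ℂ) * v γ)) := by
    refine ⟨form_isHomogeneous _, fun x => ?_⟩
    rw [linform_pow]
    have e1 : form (fun γ : Mon n (n * (d - 2)) =>
        (Nat.multinomial Finset.univ γ.1 : ℂ) * ∏ i, x i ^ γ.1 i) =
        ∑ γ : Mon n (n * (d - 2)), C ((Nat.multinomial Finset.univ γ.1 : ℂ) *
          ∏ i, x i ^ γ.1 i) * (monomial γ.1 1 : MvPolynomial (Fin n) ℂ) := by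
      unfold form
      apply Finset.sum_congr rfl
      intro γ _
      rw [C_mul_monomial, mul_one]
    have e2 : eval x (form (fun γ : Mon n (n * (d - 2)) =>
        (Nat.multinomial Finset.univ γ.1 : ℂ) * v γ)) =
        ∑ γ : Mon n (n * (d - 2)), ((Nat.multinomial Finset.univ γ.1 : ℂ) *
          ∏ i, x i ^ γ.1 i) * v γ := by
      unfold form
      rw [map_sum]
      apply Finset.sum_congr rfl
      intro γ _
      rw [eval_monomial, Finsupp.prod_fintype _ _ (by simp)]
      ring
    rw [e1, e2, map_sum, Finset.sum_mul, ← Finset.sum_sub_distrib]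
    refine Ideal.sum_mem _ fun γ _ => ?_
    have := Ideal.mul_mem_left _ (C ((Nat.multinomial Finset.univ γ.1 : ℂ) *
          ∏ i, x i ^ γ.1 i)) (hv γ)
    convert this using 1
    rw [map_mul (C) _ (v γ)]
    ring
  refine ⟨_, hassoc, fun Ψ hΨ => ?_⟩
  apply MvPolynomial.funext
  intro x
  have g1 := hΨ.2 x
  have g2 := hassoc.2 x
  set Φ := form (fun γ : Mon n (n * (d - 2)) =>
    (Nat.multinomial Finset.univ γ.1 : ℂ) * v γ) with hΦ
  have g3 := Ideal.sub_mem _ g2 g1
  have g4 : C (eval x Ψ - eval x Φ) * jac f ∈ Ideal.span (Set.range f) := by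
    convert g3 using 1
    rw [map_sub]
    ring
  by_contra hne
  have hne' : eval x Ψ - eval x Φ ≠ 0 := sub_ne_zero.2 hne
  apply h1
  have g5 := Ideal.mul_mem_left _ (C (eval x Ψ - eval x Φ)⁻¹) g4
  rw [← mul_assoc, ← map_mul, inv_mul_cancel₀ hne', map_one, one_mul] at g5
  exact g5

/-- Associated forms are apolar to their tuple. -/
theorem perp_of_associated {d : ℕ} (hn : 2 ≤ n) (hd : 3 ≤ d) (f : Fin n → MvPolynomial (Fin n) ℂ)
    (hf : IsRegularTuple (d - 1) f) (c : Mon n (n * (d - 2)) → ℂ)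
    (hc : IsAssociated d f (form c)) :
    form c ≠ 0 ∧ Perp (n * (d - 2)) (d - 1) (form c) f := by
  have hd1 : d - 1 - 1 = d - 2 := by omega
  obtain ⟨h1, h2⟩ := socle_tuple (by omega) f hf
  rw [isAssociated_iff hd f hf] at hc
  have hkN : d - 1 ≤ n * (d - 2) := by
    obtain ⟨ε, rfl⟩ := Nat.exists_eq_add_of_le hd
    have e1 : 3 + ε - 1 = ε + 2 := by omega
    have e2 : 3 + ε - 2 = ε + 1 := by omega
    rw [e1, e2]
    nlinarith
  have hfac : ((n * (d - 2)).factorial : ℂ) ≠ 0 := by
    rw [Nat.cast_ne_zero]; exact Nat.factorial_ne_zero _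
  constructor
  · intro h0
    apply h1
    have h3 := hc (jac f) (by
      have := jac_isHomogeneous (d - 1) f hf.1
      rwa [hd1] at this)
    rw [h0, apolar_zero_left, zero_mul, C_0, zero_mul, sub_zero] at h3
    exact h3
  · intro i h hh
    by_contra hne
    have h3 : (f i * h).IsHomogeneous (n * (d - 2)) := by
      have := (hf.1 i).mul hh
      rwa [Nat.add_sub_cancel' hkN] at this
    have h4 := hc _ h3
    have h5 : f i * h ∈ Ideal.span (Set.range f) :=
      Ideal.mul_mem_right _ _ (Ideal.subset_span ⟨i, rfl⟩)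
    have h6 := Ideal.sub_mem _ h5 h4
    rw [sub_sub_cancel] at h6
    apply h1
    have h7 := Ideal.mul_mem_left _
      (C (apolar (form c) (f i * h) * ((n * (d - 2)).factorial : ℂ)⁻¹)⁻¹) h6
    rw [← mul_assoc, ← map_mul, inv_mul_cancel₀ (mul_ne_zero hne (inv_ne_zero hfac)), map_one,
      one_mul] at h7
    exact h7

/-- A form apolar to a regular tuple is associated to a rescaled tuple. -/
theorem mem_assocImage_of_perp {d : ℕ} (hn : 2 ≤ n) (hd : 3 ≤ d)
    (g : Fin n → MvPolynomial (Fin n) ℂ)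
    (hg : IsRegularTuple (d - 1) g) (c : Mon n (n * (d - 2)) → ℂ) (hc : form c ≠ 0)
    (hF : Perp (n * (d - 2)) (d - 1) (form c) g) : c ∈ assocImage n d := by
  classical
  have hd1 : d - 1 - 1 = d - 2 := by omega
  have hkN : d - 1 ≤ n * (d - 2) := by
    obtain ⟨ε, rfl⟩ := Nat.exists_eq_add_of_le hd
    have e1 : 3 + ε - 1 = ε + 2 := by omega
    have e2 : 3 + ε - 2 = ε + 1 := by omega
    rw [e1, e2]
    nlinarith
  have hfac : ((n * (d - 2)).factorial : ℂ) ≠ 0 := by
    rw [Nat.cast_ne_zero]; exact Nat.factorial_ne_zero _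
  have hne : apolar (form c) (jac g) ≠ 0 := by
    have h := apolar_jac_ne_zero (k := d - 1) (by omega) (by rwa [hd1]) (form c) hc
      (by rw [hd1]; exact form_isHomogeneous c) g hg (by rwa [hd1])
    exact h
  set lam : ℂ := apolar (form c) (jac g) * ((n * (d - 2)).factorial : ℂ)⁻¹ with hlam
  have hl : lam ≠ 0 := mul_ne_zero hne (inv_ne_zero hfac)
  let w : Fin n → ℂ := fun i => if i = ⟨0, by omega⟩ then lam⁻¹ else 1
  have hw : ∀ i, w i ≠ 0 := by
    intro i
    simp only [w]
    split_ifs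
    · exact inv_ne_zero hl
    · exact one_ne_zero
  have hwprod : ∏ i, w i = lam⁻¹ := by
    simp only [w]
    rw [Finset.prod_ite_eq' Finset.univ]
    simp
  let f : Fin n → MvPolynomial (Fin n) ℂ := fun i => C (w i) * g i
  have hjac : jac f = C lam⁻¹ * jac g := by
    unfold jac
    rw [← hwprod, map_prod, ← Matrix.det_mul_column]
    congr 1
    ext1 i j
    rw [of_apply, of_apply, of_apply]
    show pderiv j (C (w i) * g i) = _
    rw [pderiv_C_mul]
  have hfreg : IsRegularTuple (d - 1) f := by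
    refine ⟨fun i => (hg.1 i).C_mul _, fun z hz => hg.2 z fun i => ?_⟩
    have := hz i
    show eval z (g i) = 0
    have h1 : eval z (C (w i) * g i) = 0 := this
    rw [map_mul, eval_C] at h1
    exact (mul_eq_zero.1 h1).resolve_left (hw i)
  have hspan : Ideal.span (Set.range g) ≤ Ideal.span (Set.range f) := by
    rw [Ideal.span_le]
    rintro _ ⟨i, rfl⟩
    have h1 : g i = C (w i)⁻¹ * f i := by
      show g i = C (w i)⁻¹ * (C (w i) * g i)
      rw [← mul_assoc, ← map_mul, inv_mul_cancel₀ (hw i), map_one, one_mul]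
    show g i ∈ Ideal.span (Set.range f)
    rw [h1]
    exact Ideal.mul_mem_left _ _ (Ideal.subset_span ⟨i, rfl⟩)
  refine ⟨f, hfreg, ?_⟩
  rw [isAssociated_iff hd f hfreg]
  intro s hs
  obtain ⟨v, hv⟩ := (socle_tuple (k := d - 1) (by omega) g hg).2 s (by rwa [hd1])
  have h1 := perp_ideal hkN (form c) g hg.1 hF _ (hs.sub
    (show (C v * jac g).IsHomogeneous (n * (d - 2)) by
      have := (jac_isHomogeneous (d - 1) g hg.1).C_mul v
      rwa [hd1] at this)) hv
  have h2 : apolar (form c) s = v * apolar (form c) (jac g) := by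
    have e1 : s = (s - C v * jac g) + C v * jac g := by ring
    rw [e1, apolar_add_right, h1, apolar_C_mul_right, zero_add]
  have h4 : apolar (form c) s * ((n * (d - 2)).factorial : ℂ)⁻¹ * lam⁻¹ = v := by
    rw [h2, mul_assoc v, ← hlam, mul_assoc, mul_inv_cancel₀ hl, mul_one]
  have h3 : C (apolar (form c) s * ((n * (d - 2)).factorial : ℂ)⁻¹) * jac f = C v * jac g := by
    rw [hjac, ← mul_assoc, ← map_mul, h4]
  rw [h3]
  exact hspan hv

theorem main (n d : ℕ) (hn : 2 ≤ n) (hd : 3 ≤ d) :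
    ∃ k : ℕ, 0 < k ∧ ∃ J : MvPolynomial (Mon n (n * (d - 2))) ℂ,
      ∃ S : Set (MvPolynomial (Mon n (n * (d - 2))) ℂ),
      J.IsHomogeneous k ∧ IsSLInvariant J ∧
      assocImage n d = {c | eval c J ≠ 0 ∧ ∀ s ∈ S, eval c s = 0} := by
  classical
  obtain ⟨m, rfl⟩ : ∃ m, n = m + 1 := ⟨n - 1, by omega⟩
  have hN : (m + 1) * (d - 2) = (m + 1) * (d - 1 - 1) := by
    congr 1
  set k0 := Fintype.card (IA m (d - 1)) with hk0
  have hk0pos : 0 < k0 := by
    rw [hk0, Fintype.card_pos_iff]
    exact ⟨fun l => ⟨0, Nat.mul_pos (Nat.succ_pos _) (by omega)⟩⟩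
  obtain ⟨J, hJ1, hJ2, hJ3, hJ4⟩ := exists_invariant (m + 1) hn ((m + 1) * (d - 2)) k0
    (k0 * (d - 2)) (by ring) (rho (m + 1) ((m + 1) * (d - 2))) rho_isHomogeneous act act_apply
    act_one act_mul (J0 m (d - 1) ((m + 1) * (d - 2))) (J0_isHomogeneous m _ _)
  refine ⟨k0, hk0pos, J, minors (m + 1) ((m + 1) * (d - 2)) (d - 1)
    (Fintype.card (Mon (m + 1) (d - 1)) - (m + 1)), hJ1, ?_, ?_⟩
  · intro A hA c c' h
    have h1 : act Aᵀ c = c' := by
      unfold act
      rw [transpose_transpose, ← h, cv_form]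
    rw [← h1]
    exact hJ2 Aᵀ (by rw [det_transpose, hA]) c
  · ext c
    constructor
    · rintro ⟨f, hf, hc⟩
      obtain ⟨h1, h2⟩ := perp_of_associated hn hd f hf c hc
      refine ⟨hJ3 c fun A hA => ?_, minors_of_perp (d - 1) c f hf.1
        (regular_linearIndependent (by omega) f hf) h2⟩
      exact eval_act_J0_ne_zero (d - 1) _ (by omega) (by omega) hN c h1 f hf h2 A hA
    · rintro ⟨h1, h2⟩
      obtain ⟨g, hg1, hg2, hg3⟩ := exists_perp (d - 1) (by omega) c h2
      obtain ⟨A, hA, hA2⟩ := hJ4 c h1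
      have h3 := regular_of_ne_zero (d - 1) _ (by omega) (by omega) hN c g hg1 hg2 hg3 A hA2
      have h4 : form c ≠ 0 := by
        intro h0
        apply h1
        have h5 : c = 0 := by
          rw [← cv_form c, h0]
          funext γ
          exact coeff_zero _
        have h6 := eval_smul_homog J k0 hJ1 0 c
        rw [zero_pow (by omega), zero_mul] at h6
        rw [← h6]
        congr 2
        funext i
        rw [h5, Pi.zero_apply, mul_zero]
      exact mem_assocImage_of_perp hn hd g h3 c h4 hg3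

end Pool.Agent.Helper56.Ulr
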