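import Pool.Agent.Helper56.Ulr.Tele

namespace Pool.Agent.Helper56.Ulr

open MvPolynomial Matrix Finset

variable {k : Type*} [Field k] {m : ℕ}

/-- polynomials in `y` with coefficients in `k[x]` -/
abbrev PP (k : Type*) [Field k] (m : ℕ) : Type _ := MvPolynomial (Fin m) (MvPolynomial (Fin m) k)

/-- The first `r` variables are `y`, the others are `x`. -/
noncomputable def pt (k : Type*) [Field k] (m r : ℕ) (t : Fin m) : PP k m :=
  if (t : ℕ) < r then X t else C (X t)

noncomputable def vv (G : Fin (m + 1) → MvPolynomial (Fin m) k) (r : ℕ) (i : Fin (m + 1)) :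
    PP k m := aeval (pt k m r) (G i)

noncomputable def DD (G : Fin (m + 1) → MvPolynomial (Fin m) k) (r : ℕ) (i : Fin (m + 1)) :
    PP k m := if h : r < m then dd ⟨r, h⟩ (X ⟨r, h⟩) (vv G (r + 1) i) else 0

theorem ev_vv (G : Fin (m + 1) → MvPolynomial (Fin m) k) (r : ℕ) (hr : r < m)
    (i : Fin (m + 1)) :
    ev (R := MvPolynomial (Fin m) k) ⟨r, hr⟩ (X ⟨r, hr⟩) (vv G (r + 1) i) = vv G r i := by
  unfold vv
  have h : ((ev (R := MvPolynomial (Fin m) k) ⟨r, hr⟩ (X ⟨r, hr⟩)).restrictScalars k).comp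
      (aeval (pt k m (r + 1))) = aeval (pt k m r) := by
    apply MvPolynomial.algHom_ext
    intro t
    rw [AlgHom.comp_apply, aeval_X, aeval_X, AlgHom.restrictScalars_apply]
    unfold pt ev
    rcases lt_trichotomy (t : ℕ) r with h | h | h
    · rw [if_pos (by omega), if_pos h, aeval_X, Function.update_of_ne]
      intro hh
      rw [hh] at h
      simp at h
    · have ht : t = ⟨r, hr⟩ := Fin.ext h
      rw [if_pos (by omega), if_neg (by omega), aeval_X, ht, Function.update_self]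
    · rw [if_neg (by omega), if_neg (by omega), aeval_C, algebraMap_eq]
  exact DFunLike.congr_fun h (G i)

theorem vv_rel (G : Fin (m + 1) → MvPolynomial (Fin m) k) (r : ℕ) (hr : r < m)
    (i : Fin (m + 1)) :
    (X ⟨r, hr⟩ - C (X ⟨r, hr⟩)) * DD G r i = vv G (r + 1) i - vv G r i := by
  rw [DD, dif_pos hr, X_sub_C_mul_dd, ev_vv]

theorem InBox.pow {R : Type*} [CommRing R] {d : Fin m → ℕ} {p : MvPolynomial (Fin m) R}
    (hp : InBox d p) (e : ℕ) : InBox (e • d) (p ^ e) := by
  induction e with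
  | zero => simpa using InBox.one (0 : Fin m → ℕ)
  | succ e ih =>
    rw [pow_succ, succ_nsmul]
    exact ih.mul hp

theorem InBox.X' {R : Type*} [CommRing R] (t : Fin m) :
    InBox (Pi.single t 1) (X t : MvPolynomial (Fin m) R) := by
  intro l
  refine degreeOf_le_of_support fun γ hγ => ?_
  have h2 := support_monomial_subset hγ
  rw [Finset.mem_singleton] at h2
  subst h2
  by_cases h : l = t
  · subst h; simp
  · simp [Ne.symm h]

theorem vv_inBox (δ : ℕ) (G : Fin (m + 1) → MvPolynomial (Fin m) k)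
    (hG : ∀ i, InBox (fun _ => δ) (G i)) (r : ℕ) (i : Fin (m + 1)) :
    InBox (bv δ r) (vv G r i) := by
  unfold vv
  rw [(G i).as_sum, map_sum]
  refine InBox.sum _ _ fun γ hγ => ?_
  rw [aeval_monomial, Finsupp.prod_fintype _ _ (by simp)]
  have h1 : (algebraMap k (PP k m)) (coeff γ (G i)) = C (C (coeff γ (G i))) := rfl
  rw [h1]
  apply InBox.C_mul
  have h2 : InBox (∑ t : Fin m, γ t • (if (t : ℕ) < r then Pi.single t 1 else 0 : Fin m → ℕ))
      (∏ t : Fin m, pt k m r t ^ γ t) := by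
    refine InBox.prod _ _ fun t _ => InBox.pow ?_ _
    unfold pt
    split_ifs
    · exact InBox.X' t
    · exact InBox.C _ _
  refine h2.mono fun l => ?_
  rw [Finset.sum_apply, Finset.sum_eq_single l]
  · have h3 := degreeOf_le_iff.1 (hG i l) γ hγ
    simp only [Pi.smul_apply, bv]
    split_ifs
    · simpa using h3
    · simp
  · intro t _ ht
    split_ifs
    · simp [Ne.symm ht]
    · simp
  · simp

theorem DD_inBox (δ : ℕ) (G : Fin (m + 1) → MvPolynomial (Fin m) k)
    (hG : ∀ i, InBox (fun _ => δ) (G i)) (r : ℕ) (hr : r < m) (i : Fin (m + 1)) :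
    InBox (bD δ r) (DD G r i) := by
  rw [DD, dif_pos hr]
  refine ((vv_inBox δ G hG (r + 1) i).dd _ _).mono fun l => ?_
  by_cases hl : l = ⟨r, hr⟩
  · rw [hl, Function.update_self]
    simp [bv, bD]
  · rw [Function.update_of_ne hl]
    have hl' : (l : ℕ) ≠ r := fun h => hl (Fin.ext h)
    simp only [bv, bD]
    split_ifs <;> omega

/-- All coefficients are in the box. -/
def InBoxC (e : Fin m → ℕ) (p : PP k m) : Prop := ∀ γ, InBox e (coeff γ p)

theorem InBoxC.mono {d e : Fin m → ℕ} {p : PP k m} (h : InBoxC d p)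
    (hde : ∀ l, d l ≤ e l) : InBoxC e p := fun γ => (h γ).mono hde

theorem InBoxC.zero (d : Fin m → ℕ) : InBoxC d (0 : PP k m) := by
  intro γ
  rw [coeff_zero]
  exact InBox.zero d

theorem InBoxC.C {d : Fin m → ℕ} {a : MvPolynomial (Fin m) k} (ha : InBox d a) :
    InBoxC d (MvPolynomial.C a : PP k m) := by
  intro γ
  rw [coeff_C]
  split_ifs
  · exact ha
  · exact InBox.zero d

theorem InBoxC.X (d : Fin m → ℕ) (t : Fin m) : InBoxC d (MvPolynomial.X t : PP k m) := by
  intro γ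
  rw [coeff_X]
  split_ifs
  · exact InBox.one d
  · exact InBox.zero d

theorem InBoxC.add {d : Fin m → ℕ} {p q : PP k m} (hp : InBoxC d p) (hq : InBoxC d q) :
    InBoxC d (p + q) := by
  intro γ
  rw [coeff_add]
  exact (hp γ).add (hq γ)

theorem InBoxC.mul {d e : Fin m → ℕ} {p q : PP k m} (hp : InBoxC d p) (hq : InBoxC e q) :
    InBoxC (d + e) (p * q) := by
  intro γ
  rw [coeff_mul]
  exact InBox.sum _ _ fun x _ => (hp _).mul (hq _)

theorem InBoxC.sum {ι : Type*} {d : Fin m → ℕ} (s : Finset ι) (f : ι → PP k m)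
    (h : ∀ i ∈ s, InBoxC d (f i)) : InBoxC d (∑ i ∈ s, f i) := by
  intro γ
  rw [coeff_sum]
  exact InBox.sum _ _ fun i hi => h i hi γ

theorem InBoxC.prod {ι : Type*} {d : ι → Fin m → ℕ} (s : Finset ι)
    (f : ι → PP k m) (h : ∀ i ∈ s, InBoxC (d i) (f i)) :
    InBoxC (∑ i ∈ s, d i) (∏ i ∈ s, f i) := by
  classical
  induction s using Finset.induction_on with
  | empty =>
    simp only [Finset.sum_empty, Finset.prod_empty]
    exact InBoxC.C (InBox.one _)
  | insert a s ha ih =>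
    rw [Finset.prod_insert ha, Finset.sum_insert ha]
    exact (h a (Finset.mem_insert_self _ _)).mul
      (ih fun i hi => h i (Finset.mem_insert_of_mem hi))

theorem InBoxC.pow {d : Fin m → ℕ} {p : PP k m} (hp : InBoxC d p) (e : ℕ) :
    InBoxC (e • d) (p ^ e) := by
  induction e with
  | zero =>
    simp only [zero_smul, pow_zero]
    exact InBoxC.C (InBox.one _)
  | succ e ih =>
    rw [pow_succ, succ_nsmul]
    exact ih.mul hp

theorem InBoxC.det {N : ℕ} (A : Matrix (Fin N) (Fin N) (PP k m))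
    (β : Fin N → Fin m → ℕ) (h : ∀ i j, InBoxC (β j) (A i j)) : InBoxC (∑ j, β j) A.det := by
  rw [Matrix.det_apply']
  refine InBoxC.sum _ _ fun σ _ => ?_
  have h1 : InBoxC (∑ j, β j) (∏ i, A (σ i) i) := InBoxC.prod _ _ fun i _ => h _ _
  have h2 : ((Equiv.Perm.sign σ : ℤ) : PP k m) =
      MvPolynomial.C (MvPolynomial.C ((Equiv.Perm.sign σ : ℤ) : k)) := by simp
  rw [h2]
  have h3 := InBoxC.mul (InBoxC.C (InBox.C 0 ((Equiv.Perm.sign σ : ℤ) : k))) h1
  rwa [zero_add] at h3

theorem vv_inBoxC (δ : ℕ) (G : Fin (m + 1) → MvPolynomial (Fin m) k)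
    (hG : ∀ i, InBox (fun _ => δ) (G i)) (r : ℕ) (i : Fin (m + 1)) :
    InBoxC (fun l => if (l : ℕ) < r then 0 else δ) (vv G r i) := by
  unfold vv
  rw [(G i).as_sum, map_sum]
  refine InBoxC.sum _ _ fun γ hγ => ?_
  rw [aeval_monomial, Finsupp.prod_fintype _ _ (by simp)]
  have h1 : (algebraMap k (PP k m)) (coeff γ (G i)) = C (C (coeff γ (G i))) := rfl
  rw [h1]
  have h2 : InBoxC (∑ t : Fin m, γ t • (if (t : ℕ) < r then 0 else Pi.single t 1 : Fin m → ℕ))
      (∏ t : Fin m, pt k m r t ^ γ t) := by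
    refine InBoxC.prod _ _ fun t _ => InBoxC.pow ?_ _
    unfold pt
    split_ifs
    · exact InBoxC.X _ t
    · exact InBoxC.C (InBox.X' t)
  have h3 := InBoxC.mul (InBoxC.C (InBox.C 0 (coeff γ (G i)))) h2
  refine h3.mono fun l => ?_
  rw [zero_add, Finset.sum_apply, Finset.sum_eq_single l]
  · have h3 := degreeOf_le_iff.1 (hG i l) γ hγ
    simp only [Pi.smul_apply]
    split_ifs
    · simp
    · simpa using h3
  · intro t _ ht
    split_ifs
    · simp
    · simp [Ne.symm ht]
  · simp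

theorem InBoxC.dd {d : Fin m → ℕ} {δ : ℕ} {p : PP k m} (hp : InBoxC d p) (l : Fin m)
    (hδ : degreeOf l p ≤ δ) :
    InBoxC (d + Pi.single l (δ - 1)) (dd l (MvPolynomial.X l) p) := by
  have h1 : Ulr.dd l (MvPolynomial.X l) p = ∑ γ ∈ p.support, ∑ i ∈ range (γ l),
      monomial (γ.update l i) (coeff γ p * MvPolynomial.X l ^ (γ l - 1 - i)) := by
    conv_lhs => rw [p.as_sum, map_sum]
    exact Finset.sum_congr rfl fun γ _ => dd_monomial _ _ _ _
  rw [h1]
  refine InBoxC.sum _ _ fun γ hγ => InBoxC.sum _ _ fun i hi => ?_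
  intro β
  rw [coeff_monomial]
  split_ifs
  · have h2 : InBox ((γ l - 1 - i) • Pi.single l 1)
        ((MvPolynomial.X l : MvPolynomial (Fin m) k) ^ (γ l - 1 - i)) := (InBox.X' l).pow _
    refine ((hp γ).mul h2).mono fun t => ?_
    have h3 := degreeOf_le_iff.1 hδ γ hγ
    simp only [Pi.add_apply, Pi.smul_apply, Pi.single_apply]
    split_ifs
    · simp only [smul_eq_mul, mul_one]
      omega
    · simp
  · exact InBox.zero _

theorem DD_inBoxC (δ : ℕ) (G : Fin (m + 1) → MvPolynomial (Fin m) k)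
    (hG : ∀ i, InBox (fun _ => δ) (G i)) (r : ℕ) (hr : r < m) (i : Fin (m + 1)) :
    InBoxC (fun l => if (l : ℕ) < r then 0 else if (l : ℕ) = r then δ - 1 else δ) (DD G r i) := by
  rw [DD, dif_pos hr]
  have h1 : degreeOf (⟨r, hr⟩ : Fin m) (vv G (r + 1) i) ≤ δ := by
    refine (vv_inBox δ G hG (r + 1) i ⟨r, hr⟩).trans ?_
    simp [bv]
  refine ((vv_inBoxC δ G hG (r + 1) i).dd _ h1).mono fun l => ?_
  simp only [Pi.add_apply, Pi.single_apply, Fin.ext_iff]
  split_ifs <;> omega

end Pool.Agent.Helper56.Ulr
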