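import Pool.Agent.Helper56.Ulr.Formal

namespace Pool.Agent.Helper56.Ulr

open MvPolynomial Matrix Finset

variable {k : Type*} [Field k] {m : ℕ}

/-- Extension of a functional to polynomials with coefficients in `k[x]`. -/
noncomputable def Lhat (L : MvPolynomial (Fin m) k →ₗ[k] k) :
    PP k m →ₗ[MvPolynomial (Fin m) k] MvPolynomial (Fin m) k :=
  (basisMonomials (Fin m) (MvPolynomial (Fin m) k)).constr (MvPolynomial (Fin m) k)
    fun γ => C (L (monomial γ 1))

theorem Lhat_monomial (L : MvPolynomial (Fin m) k →ₗ[k] k) (γ : Fin m →₀ ℕ)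
    (r : MvPolynomial (Fin m) k) : Lhat L (monomial γ r) = r * C (L (monomial γ 1)) := by
  have h1 : monomial γ r = r • (basisMonomials (Fin m) (MvPolynomial (Fin m) k)) γ := by
    rw [coe_basisMonomials, smul_monomial, smul_eq_mul, mul_one]
  rw [h1, map_smul, Lhat, Module.Basis.constr_basis, smul_eq_mul]

theorem Lhat_map (L : MvPolynomial (Fin m) k →ₗ[k] k) (p : MvPolynomial (Fin m) k) :
    Lhat L (map C p) = C (L p) := by
  induction p using MvPolynomial.induction_on' with
  | monomial γ a =>
    rw [map_monomial, Lhat_monomial, ← map_mul]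
    congr 1
    have h1 : monomial γ a = a • (monomial γ (1 : k)) := by
      rw [smul_monomial, smul_eq_mul, mul_one]
    rw [h1, map_smul, smul_eq_mul]
  | add p q hp hq => rw [map_add, map_add, map_add, map_add, hp, hq]

theorem vv_last (G : Fin (m + 1) → MvPolynomial (Fin m) k) (i : Fin (m + 1)) :
    vv G m i = map C (G i) := by
  unfold vv
  have h : (fun t : Fin m => pt k m m t) = X := by
    funext t
    rw [pt, if_pos t.2]
  have h2 : aeval (pt k m m) (G i) = aeval (X : Fin m → PP k m) (G i) := by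
    rw [← h]
  rw [h2]
  have h3 : (aeval (X : Fin m → PP k m) : MvPolynomial (Fin m) k →ₐ[k] PP k m).toRingHom =
      MvPolynomial.map C := by
    apply MvPolynomial.ringHom_ext
    · intro r
      rw [AlgHom.toRingHom_eq_coe, RingHom.coe_coe, aeval_C, map_C]
      rfl
    · intro t
      rw [AlgHom.toRingHom_eq_coe, RingHom.coe_coe, aeval_X, map_X]
  exact DFunLike.congr_fun h3 (G i)

theorem Lhat_mul_eq_zero (L : MvPolynomial (Fin m) k →ₗ[k] k) (g : MvPolynomial (Fin m) k)
    (d : Fin m → ℕ) (hL : ∀ p, InBox d p → L (g * p) = 0) (p : PP k m) (hp : InBox d p) :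
    Lhat L (map C g * p) = 0 := by
  rw [p.as_sum, Finset.mul_sum, map_sum]
  apply Finset.sum_eq_zero
  intro γ hγ
  have h1 : map C g * monomial γ (coeff γ p) =
      C (coeff γ p) * map C (g * monomial γ 1) := by
    have h0 : monomial γ (coeff γ p) = C (coeff γ p) * monomial γ 1 := by
      rw [C_mul_monomial, mul_one]
    rw [h0, map_mul, map_monomial, map_one (C : k →+* MvPolynomial (Fin m) k)]
    ring
  rw [h1, ← smul_eq_C_mul, map_smul, Lhat_map, hL, map_zero, smul_zero]
  intro l
  refine degreeOf_le_of_support fun β hβ => ?_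
  have h2 := support_monomial_subset hβ
  rw [Finset.mem_singleton] at h2
  subst h2
  exact degreeOf_le_iff.1 (hp l) _ hγ

/-- The kernel polynomial. -/
noncomputable def kern (G : Fin (m + 1) → MvPolynomial (Fin m) k) : PP k m :=
  (Dm (vv G 0) (DD G)).det

theorem kern_eq (G : Fin (m + 1) → MvPolynomial (Fin m) k) (r : ℕ) (hr : r ≤ m) :
    (Dm (vv G r) (DD G)).det = kern G :=
  det_Dm_eq (vv G) (DD G) (fun t => X t) (fun r hr i => vv_rel G r hr i) r hr

theorem kern_inBoxC (δ : ℕ) (hδ : 1 ≤ δ) (G : Fin (m + 1) → MvPolynomial (Fin m) k)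
    (hG : ∀ i, InBox (fun _ => δ) (G i)) :
    InBoxC (fun l => (l + 1) * δ - 1) (kern G) := by
  rw [← kern_eq G m le_rfl]
  have h1 : InBoxC (∑ j : Fin (m + 1), (fun l : Fin m => if (j : ℕ) = 0 then 0 else
      (if (l : ℕ) < (j - 1 : ℕ) then 0 else if (l : ℕ) = (j - 1 : ℕ) then δ - 1 else δ)))
      (Dm (vv G m) (DD G)).det := by
    refine InBoxC.det _ _ fun i j => ?_
    simp only [Dm, of_apply]
    by_cases hj : (j : ℕ) = 0
    · rw [if_pos hj]
      refine (vv_inBoxC δ G hG m i).mono fun l => ?_
      simp [l.2]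
    · rw [if_neg hj]
      refine (DD_inBoxC δ G hG (j - 1) (by omega) i).mono fun l => ?_
      rw [if_neg hj]
  refine h1.mono fun l => ?_
  rw [Finset.sum_apply, Fin.sum_univ_succ]
  simp only [Fin.val_zero, if_true, zero_add, Fin.val_succ, Nat.add_eq_zero_iff, one_ne_zero,
    and_false, if_false, Nat.add_sub_cancel]
  rw [Fin.sum_univ_eq_sum_range
    (fun r => if (l : ℕ) < r then 0 else if (l : ℕ) = r then δ - 1 else δ) m]
  have h2 : ∀ M : ℕ, ∑ r ∈ range M, (if (l : ℕ) < r then 0 else if (l : ℕ) = r then δ - 1 else δ)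
      = if (l : ℕ) < M then (l + 1) * δ - 1 else M * δ := by
    intro M
    induction M with
    | zero => simp
    | succ M ih =>
      rw [Finset.sum_range_succ, ih]
      rcases lt_trichotomy (l : ℕ) M with h | h | h
      · rw [if_pos h, if_pos h, if_pos (by omega), add_zero]
      · rw [if_neg (by omega), if_neg (by omega), if_pos h, if_pos (by omega), h]
        have : (M + 1) * δ = M * δ + δ := by ring
        omega
      · rw [if_neg (by omega), if_neg (by omega), if_neg (by omega), if_neg (by omega)]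
        ring
  rw [h2 m, if_pos l.2]

theorem kern_inBox (δ : ℕ) (hδ : 1 ≤ δ) (G : Fin (m + 1) → MvPolynomial (Fin m) k)
    (hG : ∀ i, InBox (fun _ => δ) (G i)) :
    InBox (fun l : Fin m => (m - l) * δ - 1) (kern G) := by
  have h1 : InBox (∑ j : Fin (m + 1), (fun l : Fin m => if (j : ℕ) = 0 then 0 else
      bD δ (j - 1 : ℕ) l)) (Dm (vv G 0) (DD G)).det := by
    refine InBox.det _ _ fun i j => ?_
    simp only [Dm, of_apply]
    by_cases hj : (j : ℕ) = 0
    · rw [if_pos hj]
      refine (vv_inBox δ G hG 0 i).mono fun l => ?_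
      simp [bv]
    · rw [if_neg hj]
      refine (DD_inBox δ G hG (j - 1) (by omega) i).mono fun l => ?_
      rw [if_neg hj]
  refine h1.mono fun l => ?_
  rw [Finset.sum_apply, Fin.sum_univ_succ]
  simp only [Fin.val_zero, if_true, zero_add, Fin.val_succ, Nat.add_eq_zero_iff, one_ne_zero,
    and_false, if_false, Nat.add_sub_cancel]
  rw [Fin.sum_univ_eq_sum_range (fun r => bD δ r l) m]
  have h2 : ∀ M : ℕ, ∑ r ∈ range M, bD δ r l = if (l : ℕ) < M then (M - l) * δ - 1 else 0 := by
    intro M
    induction M with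
    | zero => simp
    | succ M ih =>
      rw [Finset.sum_range_succ, ih]
      simp only [bD]
      rcases lt_trichotomy (l : ℕ) M with h | h | h
      · rw [if_pos h, if_pos h, if_pos (by omega)]
        obtain ⟨e, he⟩ := Nat.exists_eq_add_of_lt h
        have e1 : M - (l : ℕ) = e + 1 := by omega
        have e2 : M + 1 - (l : ℕ) = e + 2 := by omega
        rw [e1, e2]
        have e3 : (e + 1) * δ = e * δ + δ := by ring
        have e4 : (e + 2) * δ = e * δ + 2 * δ := by ring
        omega
      · rw [if_neg (by omega), if_neg (by omega), if_pos h, if_pos (by omega)]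
        have e2 : M + 1 - (l : ℕ) = 1 := by omega
        rw [e2]
        omega
      · rw [if_neg (by omega), if_neg (by omega), if_neg (by omega), if_neg (by omega)]
  rw [h2 m, if_pos l.2]

theorem Lhat_inBox (L : MvPolynomial (Fin m) k →ₗ[k] k) (e : Fin m → ℕ) (a : Fin m →₀ ℕ)
    (p : PP k m) (hp : InBoxC e p) : InBox e (Lhat L (monomial a 1 * p)) := by
  rw [p.as_sum, Finset.mul_sum, map_sum]
  refine InBox.sum _ _ fun γ hγ => ?_
  rw [monomial_mul, one_mul, Lhat_monomial, mul_comm]
  exact (hp γ).C_mul _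

theorem inBox_zero_of_monomial_mul (e : Fin m →₀ ℕ) (p : MvPolynomial (Fin m) k)
    (h : InBox (fun l => e l) (monomial e 1 * p)) : InBox 0 p := by
  intro l
  refine degreeOf_le_of_support fun γ hγ => ?_
  have h1 : e + γ ∈ (monomial e 1 * p).support := by
    rw [mem_support_iff, coeff_monomial_mul, one_mul]
    exact mem_support_iff.1 hγ
  have h2 := degreeOf_le_iff.1 (h l) _ h1
  simp only [Finsupp.coe_add, Pi.add_apply] at h2
  simp only [Pi.zero_apply]
  omega

/-- exponent vectors in a box -/
noncomputable def fs {d : Fin m → ℕ} (b : (l : Fin m) → Fin (d l)) : Fin m →₀ ℕ :=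
  Finsupp.equivFunOnFinite.symm fun l => (b l : ℕ)

@[simp] theorem fs_apply {d : Fin m → ℕ} (b : (l : Fin m) → Fin (d l)) (l : Fin m) :
    fs b l = b l := rfl

theorem fs_injective {d : Fin m → ℕ} : Function.Injective (fs (d := d)) := by
  intro b b' h
  funext l
  apply Fin.ext
  have := DFunLike.congr_fun h l
  simpa using this

theorem box_sum {R : Type*} [CommRing R] (d : Fin m → ℕ) (p : MvPolynomial (Fin m) R)
    (hp : ∀ l, degreeOf l p < d l) :
    p = ∑ b : (l : Fin m) → Fin (d l), monomial (fs b) (coeff (fs b) p) := by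
  classical
  ext γ
  rw [coeff_sum]
  simp only [coeff_monomial]
  by_cases h : ∃ b : (l : Fin m) → Fin (d l), fs b = γ
  · obtain ⟨b, hb⟩ := h
    rw [Finset.sum_eq_single b, if_pos hb, hb]
    · intro b' _ hb'
      rw [if_neg]
      intro h
      exact hb' (fs_injective (h.trans hb.symm))
    · simp
  · rw [Finset.sum_eq_zero]
    · by_contra hne
      apply h
      have hγ : γ ∈ p.support := mem_support_iff.2 hne
      refine ⟨fun l => ⟨γ l, (degreeOf_le_iff.1 le_rfl γ hγ).trans_lt (hp l)⟩, ?_⟩
      ext l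
      simp
    · intro b _
      rw [if_neg fun hb => h ⟨b, hb⟩]

end Pool.Agent.Helper56.Ulr
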