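import Pool.Agent.Helper56.Ulr.Formal2

namespace Pool.Agent.Helper56.Ulr

open MvPolynomial Matrix Finset

variable {k : Type*} [Field k] {m : ℕ}

abbrev IA (m δ : ℕ) : Type := (l : Fin m) → Fin (((l : ℕ) + 1) * δ)

abbrev IB (m δ : ℕ) : Type := (l : Fin m) → Fin ((m - (l : ℕ)) * δ)

/-- The matrix of the pairing. -/
noncomputable def Phi (δ : ℕ) (L : MvPolynomial (Fin m) k →ₗ[k] k) :
    Matrix (IA m δ) (IB m δ) k :=
  Matrix.of fun a b => L (monomial (fs a + fs b) 1)

/-- The matrix of coefficients of the kernel polynomial. -/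
noncomputable def Bz (δ : ℕ) (G : Fin (m + 1) → MvPolynomial (Fin m) k) :
    Matrix (IB m δ) (IA m δ) k :=
  Matrix.of fun b a => coeff (fs a) (coeff (fs b) (kern G))

theorem kern_sum (δ : ℕ) (hδ : 1 ≤ δ) (G : Fin (m + 1) → MvPolynomial (Fin m) k)
    (hG : ∀ i, InBox (fun _ => δ) (G i)) :
    kern G = ∑ b : IB m δ, monomial (fs b) (coeff (fs b) (kern G)) := by
  apply box_sum
  intro l
  have h1 := kern_inBox δ hδ G hG l
  have h2 : 0 < (m - (l : ℕ)) * δ := Nat.mul_pos (by omega) hδ
  simp only at h1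
  omega

theorem coeff_kern_sum (δ : ℕ) (hδ : 1 ≤ δ) (G : Fin (m + 1) → MvPolynomial (Fin m) k)
    (hG : ∀ i, InBox (fun _ => δ) (G i)) (b : IB m δ) :
    coeff (fs b) (kern G) = ∑ a : IA m δ, monomial (fs a) (Bz δ G b a) := by
  have h := box_sum (fun l : Fin m => ((l : ℕ) + 1) * δ) (coeff (fs b) (kern G)) ?_
  · exact h
  · intro l
    have h1 := kern_inBoxC δ hδ G hG (fs b) l
    have h2 : 0 < ((l : ℕ) + 1) * δ := Nat.mul_pos (by omega) hδ
    simp only at h1
    omega

theorem Lhat_kern_mul (δ : ℕ) (hδ : 1 ≤ δ) (G : Fin (m + 1) → MvPolynomial (Fin m) k)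
    (hG : ∀ i, InBox (fun _ => δ) (G i)) (L : MvPolynomial (Fin m) k →ₗ[k] k) (a : IA m δ) :
    Lhat L (monomial (fs a) 1 * kern G) =
      ∑ a' : IA m δ, monomial (fs a') ((Phi δ L * Bz δ G) a a') := by
  conv_lhs => rw [kern_sum δ hδ G hG]
  rw [Finset.mul_sum, map_sum]
  simp only [monomial_mul, one_mul, Lhat_monomial]
  simp only [coeff_kern_sum δ hδ G hG, Finset.sum_mul]
  rw [Finset.sum_comm]
  apply Finset.sum_congr rfl
  intro a' _
  rw [Matrix.mul_apply, map_sum]
  apply Finset.sum_congr rfl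
  intro b _
  rw [mul_comm, C_mul_monomial]
  rfl

theorem exists_scalar (δ : ℕ) (hδ : 2 ≤ δ) (G : Fin (m + 1) → MvPolynomial (Fin m) k)
    (hG : ∀ i, InBox (fun _ => δ) (G i)) (L : MvPolynomial (Fin m) k →ₗ[k] k)
    (hL : ∀ i p, InBox (fun _ => m * δ - 2) p → L (G i * p) = 0) :
    ∃ c : k, Phi δ L * Bz δ G = c • (1 : Matrix (IA m δ) (IA m δ) k) := by
  classical
  have hmain : ∀ α : PP k m, InBox (fun l => (l + 1) * δ - 1) α →
      Lhat L (α * kern G) = eval (fun t => X t) α * Lhat L (kern G) := by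
    intro α hα
    refine main_identity δ hδ (vv G) (DD G) (fun t => X t) (fun r hr i => vv_rel G r hr i)
      (fun r _ i => vv_inBox δ G hG r i) (fun r hr i => DD_inBox δ G hG r hr i) (Lhat L) ?_ α hα
    intro i p hp
    rw [vv_last]
    exact Lhat_mul_eq_zero L (G i) _ (hL i) p hp
  have heval : ∀ a : Fin m →₀ ℕ, eval (fun t => X t) (monomial a 1 : PP k m) =
      (monomial a 1 : MvPolynomial (Fin m) k) := by
    intro a
    rw [eval_monomial, one_mul, monomial_eq, C_1, one_mul]
  have hbox : ∀ a : Fin m →₀ ℕ, (∀ l, a l ≤ ((l : ℕ) + 1) * δ - 1) →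
      InBox (fun l => (l + 1) * δ - 1) (monomial a 1 : PP k m) := by
    intro a ha l
    refine degreeOf_le_of_support fun β hβ => ?_
    have h2 := support_monomial_subset hβ
    rw [Finset.mem_singleton] at h2
    subst h2
    exact ha l
  -- the value on `kern G` is constant
  set e : Fin m →₀ ℕ := Finsupp.equivFunOnFinite.symm fun l => ((l : ℕ) + 1) * δ - 1 with he
  have h1 : InBox (fun l => e l) (monomial e 1 * Lhat L (kern G)) := by
    rw [← heval, ← hmain _ (hbox e fun l => by simp [he])]
    exact (Lhat_inBox L _ e (kern G) (kern_inBoxC δ (by omega) G hG)).mono fun l => by simp [he]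
  have h2 := eq_C_of_inBox_zero (inBox_zero_of_monomial_mul e _ h1)
  set c := coeff 0 (Lhat L (kern G)) with hc
  refine ⟨c, ?_⟩
  ext a a'
  have h3 := Lhat_kern_mul δ (by omega) G hG L a
  rw [hmain _ (hbox _ fun l => by
    have := (a l).2
    simp only [fs_apply]
    omega), heval, h2, mul_comm, C_mul_monomial, mul_one] at h3
  have h4 := congrArg (coeff (fs a')) h3
  rw [coeff_sum, coeff_monomial] at h4
  simp only [coeff_monomial] at h4
  rw [Finset.sum_eq_single a', if_pos rfl] at h4
  · rw [← h4, Matrix.smul_apply, Matrix.one_apply, smul_eq_mul, mul_ite, mul_one, mul_zero]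
    by_cases haa : a = a'
    · rw [haa, if_pos rfl, if_pos rfl]
    · rw [if_neg haa, if_neg fun h => haa (fs_injective h)]
  · intro a'' _ ha''
    rw [if_neg fun h => ha'' (fs_injective h)]
  · simp

/-- The trace of the product. -/
theorem trace_eq (δ : ℕ) (hδ : 1 ≤ δ) (G : Fin (m + 1) → MvPolynomial (Fin m) k)
    (hG : ∀ i, InBox (fun _ => δ) (G i)) (L : MvPolynomial (Fin m) k →ₗ[k] k) :
    (Phi δ L * Bz δ G).trace = L (eval (fun t => X t) (kern G)) := by
  have h1 : eval (fun t => X t) (kern G) =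
      ∑ b : IB m δ, ∑ a : IA m δ, monomial (fs a + fs b) (Bz δ G b a) := by
    conv_lhs => rw [kern_sum δ hδ G hG]
    rw [map_sum]
    apply Finset.sum_congr rfl
    intro b _
    rw [eval_monomial, coeff_kern_sum δ hδ G hG, Finset.sum_mul]
    apply Finset.sum_congr rfl
    intro a _
    have h2 : ((fs b).prod fun i e => (X i : MvPolynomial (Fin m) k) ^ e) = monomial (fs b) 1 := by
      rw [monomial_eq, C_1, one_mul]
    rw [h2, monomial_mul, mul_one]
  rw [h1, map_sum, Matrix.trace]
  simp only [diag_apply, Matrix.mul_apply, map_sum]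
  rw [Finset.sum_comm]
  apply Finset.sum_congr rfl
  intro b _
  apply Finset.sum_congr rfl
  intro a _
  have h2 : monomial (fs a + fs b) (Bz δ G b a) = Bz δ G b a • monomial (fs a + fs b) (1 : k) := by
    rw [smul_monomial, smul_eq_mul, mul_one]
  rw [h2, map_smul, smul_eq_mul, mul_comm]
  rfl

theorem eval_vv (G : Fin (m + 1) → MvPolynomial (Fin m) k) (r : ℕ) (i : Fin (m + 1)) :
    eval (fun t => X t) (vv G r i) = G i := by
  unfold vv
  induction G i using MvPolynomial.induction_on with
  | C a => rw [aeval_C]; exact eval_C _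
  | add p q hp hq => rw [map_add, map_add, hp, hq]
  | mul_X p t hp =>
    rw [map_mul, map_mul, hp, aeval_X]
    congr 1
    unfold pt
    split_ifs
    · rw [eval_X]
    · rw [eval_C]

theorem eval_dd (l : Fin m) (p : PP k m) :
    eval (fun t => X t) (dd l (X l) p) = eval (fun t => X t) (pderiv l p) := by
  induction p using MvPolynomial.induction_on' with
  | monomial γ a =>
    rw [dd_monomial, pderiv_monomial, map_sum, eval_monomial]
    simp only [eval_monomial]
    have h1 : ∀ i ∈ range (γ l), a * X l ^ (γ l - 1 - i) *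
        ((γ.update l i).prod fun t e => (X t : MvPolynomial (Fin m) k) ^ e) =
        a * ((γ - Finsupp.single l 1).prod fun t e => (X t : MvPolynomial (Fin m) k) ^ e) := by
      intro i hi
      rw [Finset.mem_range] at hi
      rw [Finsupp.prod_fintype _ _ (by simp), Finsupp.prod_fintype _ _ (by simp),
        ← Finset.mul_prod_erase _ (fun t => (X t : MvPolynomial (Fin m) k) ^ (γ.update l i) t)
          (Finset.mem_univ l),
        ← Finset.mul_prod_erase _ (fun t => (X t : MvPolynomial (Fin m) k) ^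
          (γ - Finsupp.single l 1 : Fin m →₀ ℕ) t) (Finset.mem_univ l)]
      have h2 : ∏ t ∈ Finset.univ.erase l, (X t : MvPolynomial (Fin m) k) ^ (γ.update l i) t =
          ∏ t ∈ Finset.univ.erase l, X t ^ (γ - Finsupp.single l 1 : Fin m →₀ ℕ) t := by
        apply Finset.prod_congr rfl
        intro t ht
        have htl : t ≠ l := (Finset.mem_erase.1 ht).1
        rw [Finsupp.coe_update, Function.update_of_ne htl, Finsupp.tsub_apply,
          Finsupp.single_eq_of_ne htl, Nat.sub_zero]
      rw [h2]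
      have h3 : (γ.update l i) l = i := by simp
      have h4 : (γ - Finsupp.single l 1 : Fin m →₀ ℕ) l = γ l - 1 - i + i := by
        simp only [Finsupp.tsub_apply, Finsupp.single_eq_same]
        omega
      rw [h3, h4, pow_add]
      ring
    rw [Finset.sum_congr rfl h1, Finset.sum_const, card_range, nsmul_eq_mul]
    ring
  | add p q hp hq => rw [map_add, map_add, map_add, map_add, hp, hq]

theorem eval_pderiv_vv (G : Fin (m + 1) → MvPolynomial (Fin m) k) (l : Fin m)
    (i : Fin (m + 1)) :
    eval (fun t => X t) (pderiv l (vv G (l + 1) i)) = pderiv l (G i) := by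
  unfold vv
  have h1 : ∀ p : MvPolynomial (Fin m) k,
      eval (fun t => X t) (aeval (pt k m (l + 1)) p : PP k m) = p := by
    intro p
    exact eval_vv (fun _ => p) (l + 1) 0
  induction G i using MvPolynomial.induction_on with
  | C a =>
    rw [aeval_C, pderiv_C]
    have : (algebraMap k (PP k m)) a = C (C a) := rfl
    rw [this, pderiv_C, map_zero]
  | add p q hp hq =>
    rw [map_add, map_add, map_add, hp, hq, map_add]
  | mul_X p t hp =>
    rw [map_mul, pderiv_mul, map_add, map_mul, map_mul, hp, h1 p, aeval_X, pderiv_mul]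
    unfold pt
    rcases le_or_gt (t : ℕ) l with h | h
    · rw [if_pos (by omega), eval_X]
      congr 2
      by_cases htl : t = l
      · rw [htl, pderiv_X_self, pderiv_X_self, map_one]
      · rw [pderiv_X_of_ne htl, pderiv_X_of_ne htl, map_zero]
    · rw [if_neg (by omega), eval_C, pderiv_C, map_zero]
      have htl : t ≠ l := by
        intro h'
        rw [h'] at h
        omega
      rw [pderiv_X_of_ne htl]

theorem eval_kern (G : Fin (m + 1) → MvPolynomial (Fin m) k) :
    eval (fun t => X t) (kern G) = (Matrix.of fun i j : Fin (m + 1) =>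
      if h : (j : ℕ) = 0 then G i else pderiv ⟨j - 1, by omega⟩ (G i)).det := by
  unfold kern
  rw [RingHom.map_det]
  congr 1
  ext1 i j
  rw [RingHom.mapMatrix_apply, map_apply, Dm, of_apply, of_apply]
  by_cases hj : (j : ℕ) = 0
  · rw [if_pos hj, dif_pos hj, eval_vv]
  · rw [if_neg hj, dif_neg hj, DD, dif_pos (by omega), eval_dd]
    have h1 : (j : ℕ) - 1 + 1 = ((⟨j - 1, by omega⟩ : Fin m) : ℕ) + 1 := rfl
    exact eval_pderiv_vv G ⟨j - 1, by omega⟩ i

theorem Bz_common_zero (δ : ℕ) (hδ : 1 ≤ δ) (G : Fin (m + 1) → MvPolynomial (Fin m) k)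
    (hG : ∀ i, InBox (fun _ => δ) (G i)) (x : Fin m → k) (hx : ∀ i, eval x (G i) = 0) :
    (Bz δ G).mulVec (fun a => ∏ l, x l ^ (a l : ℕ)) = 0 := by
  funext b
  have h1 : MvPolynomial.map (eval x) (kern G) = 0 := by
    unfold kern
    rw [RingHom.map_det]
    apply det_eq_zero_of_column_eq_zero 0
    intro i
    rw [RingHom.mapMatrix_apply, map_apply, Dm, of_apply]
    simp only [Fin.val_zero, if_true]
    have h2 : vv G 0 i = C (G i) := by
      unfold vv
      induction G i using MvPolynomial.induction_on with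
      | C a => rw [aeval_C]; rfl
      | add p q hp hq => rw [map_add, hp, hq, map_add]
      | mul_X p t hp =>
        rw [map_mul, hp, aeval_X, map_mul]
        congr 1
    rw [h2, map_C, hx i, map_zero]
  have h2 := congrArg (coeff (fs b)) h1
  rw [coeff_map, coeff_zero, coeff_kern_sum δ hδ G hG, map_sum] at h2
  rw [Matrix.mulVec, dotProduct, Pi.zero_apply, ← h2]
  apply Finset.sum_congr rfl
  intro a _
  rw [eval_monomial, Finsupp.prod_fintype _ _ (by simp)]
  rfl

theorem det_eq_zero_of_Bz (δ : ℕ) (hδ : 1 ≤ δ) (G : Fin (m + 1) → MvPolynomial (Fin m) k)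
    (hG : ∀ i, InBox (fun _ => δ) (G i)) (h : Bz δ G = 0) (x y : Fin m → k) :
    (Matrix.of fun i r : Fin (m + 1) =>
      eval (fun t : Fin m => if (t : ℕ) < r then y t else x t) (G i)).det = 0 := by
  have hk : kern G = 0 := by
    rw [kern_sum δ hδ G hG]
    apply Finset.sum_eq_zero
    intro b _
    rw [coeff_kern_sum δ hδ G hG, h]
    simp
  have h1 : (Matrix.of fun i r : Fin (m + 1) => vv G r i) =
      Dm (vv G 0) (DD G) * Matrix.of fun j r : Fin (m + 1) => cf (fun t => X t) (r : ℕ) j := by
    ext1 i r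
    rw [of_apply, v_eq_sum (vv G) (DD G) (fun t => X t) (fun r hr i => vv_rel G r hr i) r
      (by omega) i, Matrix.mul_apply]
    apply Finset.sum_congr rfl
    intro j _
    rw [smul_eq_mul, mul_comm]
    rfl
  have h2 : (Matrix.of fun i r : Fin (m + 1) => vv G r i).det = 0 := by
    rw [h1, det_mul]
    have : (Dm (vv G 0) (DD G)).det = 0 := hk
    rw [this, zero_mul]
  have h3 := congrArg ((eval y).comp (MvPolynomial.map (eval x))) h2
  rw [RingHom.map_det, map_zero] at h3
  rw [← h3]
  congr 1
  ext1 i r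
  rw [RingHom.mapMatrix_apply, map_apply, of_apply, of_apply]
  unfold vv
  induction G i using MvPolynomial.induction_on with
  | C a =>
    rw [aeval_C, eval_C]
    have : (algebraMap k (PP k m)) a = C (C a) := rfl
    rw [this, RingHom.comp_apply, map_C, eval_C, eval_C]
  | add p q hp hq => rw [map_add, hp, hq, map_add, map_add]
  | mul_X p t hp =>
    rw [map_mul, hp, map_mul, map_mul, aeval_X, eval_X]
    congr 1
    unfold pt
    split_ifs
    · rw [RingHom.comp_apply, map_X, eval_X]
    · rw [RingHom.comp_apply, map_C, eval_X, eval_C]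

end Pool.Agent.Helper56.Ulr
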