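import Pool.Agent.Helper56.Ulr.Act

namespace Pool.Agent.Helper56.Ulr

open MvPolynomial Matrix Pool.Agent.Helper56.Disc

variable {m : ℕ}

/-- A point of projective space in the affine chart is a tuple of elementary symmetric values. -/
theorem exists_roots (m : ℕ) (e : Fin (m + 1) → ℂ) (he : e 0 = 1) :
    ∃ x : Fin m → ℂ, ∀ k, eval x (zpt ℂ m k) = e k := by
  classical
  set P : Polynomial ℂ := ∑ j : Fin (m + 1),
    Polynomial.C ((-1) ^ (j : ℕ) * e j) * Polynomial.X ^ (m - (j : ℕ)) with hP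
  have hcoeff : ∀ k : Fin (m + 1), P.coeff (m - k) = (-1) ^ (k : ℕ) * e k := by
    intro k
    rw [hP, Polynomial.finsetSum_coeff, Finset.sum_eq_single k]
    · rw [Polynomial.coeff_C_mul, Polynomial.coeff_X_pow, if_pos rfl, mul_one]
    · intro j _ hj
      rw [Polynomial.coeff_C_mul, Polynomial.coeff_X_pow, if_neg, mul_zero]
      intro h
      apply hj
      apply Fin.ext
      have h1 := j.2
      have h2 := k.2
      omega
    · simp
  have hdeg : P.natDegree = m := by
    apply le_antisymm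
    · rw [hP]
      apply Polynomial.natDegree_sum_le_of_forall_le
      intro j _
      refine (Polynomial.natDegree_C_mul_X_pow_le _ _).trans (Nat.sub_le _ _)
    · apply Polynomial.le_natDegree_of_ne_zero
      have := hcoeff 0
      simp only [Fin.val_zero, Nat.sub_zero, pow_zero, one_mul, he] at this
      rw [this]
      exact one_ne_zero
  have hlead : P.leadingCoeff = 1 := by
    rw [Polynomial.leadingCoeff, hdeg]
    have := hcoeff 0
    simpa [he] using this
  have hsplit : Multiset.card P.roots = P.natDegree :=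
    Polynomial.splits_iff_card_roots.mp (IsAlgClosed.splits P)
  have hlen : P.roots.toList.length = m := by
    rw [Multiset.length_toList, hsplit, hdeg]
  have hlist : ∃ x : Fin m → ℂ, (Finset.univ.val.map x : Multiset ℂ) = P.roots := by
    have key : ∀ (L : List ℂ) (k : ℕ), L.length = k →
        ∃ x : Fin k → ℂ, (Finset.univ.val.map x : Multiset ℂ) = (L : Multiset ℂ) := by
      intro L k hk
      subst hk
      exact ⟨L.get, by rw [Fin.univ_val_map, List.ofFn_get]⟩
    obtain ⟨x, hx⟩ := key _ _ hlen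
    exact ⟨x, by rw [hx, Multiset.coe_toList]⟩
  obtain ⟨x, hx⟩ := hlist
  refine ⟨x, fun k => ?_⟩
  have h3 : eval x (zpt ℂ m k) = P.roots.esymm k := by
    rw [← hx]
    have h4 := MvPolynomial.aeval_esymm_eq_multiset_esymm (Fin m) ℂ (k : ℕ) x
    rw [← h4, zpt]
    rfl
  have h5 := Polynomial.coeff_eq_esymm_roots_of_card hsplit
    (show m - (k : ℕ) ≤ P.natDegree by rw [hdeg]; exact Nat.sub_le _ _)
  have hk : (k : ℕ) ≤ m := Nat.lt_succ_iff.mp k.2
  rw [hcoeff, hlead, one_mul, hdeg, Nat.sub_sub_self hk] at h5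
  rw [h3]
  exact (mul_left_cancel₀ (pow_ne_zero _ (neg_ne_zero.mpr one_ne_zero)) h5).symm

theorem exists_eval_ne_zero {σ : Type} (f : MvPolynomial σ ℂ) (hf : f ≠ 0) :
    ∃ x, eval x f ≠ 0 := by
  by_contra h
  push Not at h
  exact hf (MvPolynomial.funext fun x => by rw [h x, map_zero])

/-- The coordinates of the staircase points. -/
noncomputable def ww (m : ℕ) (r : Fin (m + 1)) : Fin (m + 1) → ℂ :=
  fun k => eval (fun t : Fin m => if (t : ℕ) < r then (1 : ℂ) else 0) (zpt ℂ m k)

theorem ww_eq (m : ℕ) (r k : Fin (m + 1)) : ww m r k = ((r : ℕ).choose k : ℂ) := by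
  classical
  unfold ww zpt
  rw [esymm, map_sum]
  have h1 : ∀ s ∈ Finset.powersetCard (k : ℕ) (Finset.univ : Finset (Fin m)),
      eval (fun t : Fin m => if (t : ℕ) < r then (1 : ℂ) else 0) (∏ i ∈ s, X i) =
      if s ⊆ Finset.univ.filter (fun t : Fin m => (t : ℕ) < r) then 1 else 0 := by
    intro s _
    rw [map_prod]
    simp only [eval_X]
    split_ifs with h
    · apply Finset.prod_eq_one
      intro i hi
      have := h hi
      rw [Finset.mem_filter] at this
      rw [if_pos this.2]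
    · rw [Finset.not_subset] at h
      obtain ⟨i, hi, hi2⟩ := h
      apply Finset.prod_eq_zero hi
      rw [Finset.mem_filter] at hi2
      rw [if_neg fun h => hi2 ⟨Finset.mem_univ _, h⟩]
  rw [Finset.sum_congr rfl h1, Finset.sum_boole]
  congr 1
  have h2 : (Finset.powersetCard (k : ℕ) (Finset.univ : Finset (Fin m))).filter
      (fun s => s ⊆ Finset.univ.filter (fun t : Fin m => (t : ℕ) < r)) =
      Finset.powersetCard (k : ℕ) (Finset.univ.filter (fun t : Fin m => (t : ℕ) < r)) := by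
    ext s
    simp only [Finset.mem_filter, Finset.mem_powersetCard, Finset.subset_univ, true_and]
    tauto
  rw [h2, Finset.card_powersetCard]
  congr 1
  have h3 : (Finset.univ.filter (fun t : Fin m => (t : ℕ) < r)).card = r := by
    have hr := r.2
    rw [Fin.card_filter_val_lt]
    omega
  exact h3

theorem det_ww (m : ℕ) : (Matrix.of fun k r : Fin (m + 1) => ww m r k).det ≠ 0 := by
  rw [Matrix.det_of_isUpperTriangular]
  · rw [Finset.prod_ne_zero_iff]
    intro i _
    rw [of_apply, ww_eq, Nat.choose_self]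
    simp
  · intro i j hij
    rw [of_apply, ww_eq, Nat.choose_eq_zero_of_lt]
    · simp
    · exact hij

theorem exists_points {n : ℕ} (g : Fin n → MvPolynomial (Fin n) ℂ)
    (hg : LinearIndependent ℂ g) :
    ∃ q : Fin n → Fin n → ℂ, (Matrix.of fun i r => eval (q r) (g i)).det ≠ 0 := by
  classical
  let v : (Fin n → ℂ) → (Fin n → ℂ) := fun z i => eval z (g i)
  have hspan : Submodule.span ℂ (Set.range v) = ⊤ := by
    by_contra hne
    obtain ⟨φ, hφ, hφ2⟩ := Submodule.exists_le_ker_of_lt_top _ (lt_top_iff_ne_top.2 hne)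
    apply hφ
    have h1 : ∀ z, ∑ i, φ (Pi.single i 1) * eval z (g i) = 0 := by
      intro z
      have h2 : φ (v z) = 0 := hφ2 (Submodule.subset_span ⟨z, rfl⟩)
      rw [← h2]
      conv_rhs => rw [← (Pi.basisFun ℂ (Fin n)).sum_repr (v z), map_sum]
      apply Finset.sum_congr rfl
      intro i _
      rw [map_smul, Pi.basisFun_repr, Pi.basisFun_apply, smul_eq_mul, mul_comm]
    have h2 : ∑ i, φ (Pi.single i 1) • g i = 0 := by
      apply MvPolynomial.funext
      intro z
      rw [map_sum, map_zero, ← h1 z]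
      apply Finset.sum_congr rfl
      intro i _
      rw [smul_eval]
    have h3 := Fintype.linearIndependent_iff.1 hg _ h2
    apply LinearMap.pi_ext'
    intro i
    apply LinearMap.ext_ring
    simpa using h3 i
  obtain ⟨b, hb1, hb2, hb3⟩ := exists_linearIndependent ℂ (Set.range v)
  rw [hspan] at hb2
  let B := Module.Basis.mk hb3 (by rw [Subtype.range_coe, hb2])
  let e : b ≃ Fin n := B.indexEquiv (Pi.basisFun ℂ (Fin n))
  have hq : ∀ r : Fin n, ∃ z, v z = (e.symm r : Fin n → ℂ) := fun r => hb1 (e.symm r).2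
  choose q hq using hq
  refine ⟨q, ?_⟩
  have h4 : (Matrix.of fun i r => eval (q r) (g i)) =
      (Matrix.of fun r i => (e.symm r : Fin n → ℂ) i)ᵀ := by
    ext1 i r
    rw [transpose_apply, of_apply, of_apply, ← hq r]
  rw [h4, det_transpose]
  have h5 : LinearIndependent ℂ (fun r : Fin n => (e.symm r : Fin n → ℂ)) :=
    hb3.comp e.symm e.symm.injective
  have h6 := Matrix.linearIndependent_rows_iff_isUnit.1
    (show LinearIndependent ℂ (Matrix.of fun r i => (e.symm r : Fin n → ℂ) i).row from h5)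
  exact ((Matrix.isUnit_iff_isUnit_det _).1 h6).ne_zero

/-- Points in general position. -/
theorem exists_points' {n : ℕ} (g : Fin n → MvPolynomial (Fin n) ℂ)
    (hg : LinearIndependent ℂ g) :
    ∃ Q : Matrix (Fin n) (Fin n) ℂ, Q.det ≠ 0 ∧
      (Matrix.of fun i r => eval (fun k => Q k r) (g i)).det ≠ 0 := by
  let f1 : MvPolynomial (Fin n × Fin n) ℂ := gD n
  let f2 : MvPolynomial (Fin n × Fin n) ℂ :=
    (Matrix.of fun i r => aeval (fun k => (X (k, r) : MvPolynomial (Fin n × Fin n) ℂ)) (g i)).det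
  have hf2 : ∀ Q : Matrix (Fin n) (Fin n) ℂ, eval (fun x : Fin n × Fin n => Q x.1 x.2) f2 =
      (Matrix.of fun i r => eval (fun k => Q k r) (g i)).det := by
    intro Q
    show eval _ (Matrix.det _) = _
    rw [RingHom.map_det]
    congr 1
    ext1 i r
    rw [RingHom.mapMatrix_apply, map_apply, of_apply, of_apply, eval_aeval_gen]
    simp only [eval_X]
  have hne : f1 * f2 ≠ 0 := by
    apply mul_ne_zero (gD_ne n)
    intro h0
    obtain ⟨q, hq⟩ := exists_points g hg
    have := hf2 (Matrix.of fun k r => q r k)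
    rw [h0, map_zero] at this
    exact hq this.symm
  obtain ⟨x, hx⟩ := exists_eval_ne_zero _ hne
  rw [map_mul] at hx
  refine ⟨Matrix.of fun i j => x (i, j), ?_, ?_⟩
  · rw [← eval_gD]
    exact left_ne_zero_of_mul hx
  · rw [← hf2]
    exact right_ne_zero_of_mul hx

/-- The generic choice of coordinates. -/
theorem exists_generic {N δ : ℕ} (c : Mon (m + 1) N → ℂ)
    (g : Fin (m + 1) → MvPolynomial (Fin (m + 1)) ℂ) (hg : ∀ i, (g i).IsHomogeneous δ)
    (hlin : LinearIndependent ℂ g) (A₀ : Matrix (Fin (m + 1)) (Fin (m + 1)) ℂ)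
    (J : MvPolynomial (Mon (m + 1) N) ℂ) (hJ : eval (act A₀ c) J ≠ 0)
    (p : Fin (m + 1) → ℂ) (hp : p ≠ 0) :
    ∃ A : Matrix (Fin (m + 1)) (Fin (m + 1)) ℂ, A.det ≠ 0 ∧ eval (act A c) J ≠ 0 ∧
      A.mulVec p 0 ≠ 0 ∧
      (Matrix.of fun i r => eval (ww m r) (subst A⁻¹ (g i))).det ≠ 0 := by
  classical
  let f1 : MvPolynomial (Fin (m + 1) × Fin (m + 1)) ℂ := gD (m + 1)
  let f2 : MvPolynomial (Fin (m + 1) × Fin (m + 1)) ℂ :=
    aeval (fun μ : Mon (m + 1) N => ∑ ν, rho (m + 1) N μ ν * C (c ν)) J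
  let f3 : MvPolynomial (Fin (m + 1) × Fin (m + 1)) ℂ := ∑ j, X (0, j) * C (p j)
  let f4 : MvPolynomial (Fin (m + 1) × Fin (m + 1)) ℂ :=
    (Matrix.of fun i r => aeval (fun k => ∑ l,
      (Matrix.mvPolynomialX (Fin (m + 1)) (Fin (m + 1)) ℂ).adjugate k l * C (ww m r l)) (g i)).det
  have e2 : ∀ A : Matrix (Fin (m + 1)) (Fin (m + 1)) ℂ,
      eval (fun x : Fin (m + 1) × Fin (m + 1) => A x.1 x.2) f2 = eval (act A c) J := by
    intro A
    show eval _ (aeval _ J) = _
    rw [eval_aeval_gen]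
    congr 2
    funext μ
    rw [act_apply, map_sum]
    apply Finset.sum_congr rfl
    intro ν _
    rw [map_mul, eval_C]
  have e3 : ∀ A : Matrix (Fin (m + 1)) (Fin (m + 1)) ℂ,
      eval (fun x : Fin (m + 1) × Fin (m + 1) => A x.1 x.2) f3 = A.mulVec p 0 := by
    intro A
    show eval _ (∑ j, _) = _
    rw [map_sum, mulVec, dotProduct]
    apply Finset.sum_congr rfl
    intro j _
    rw [map_mul, eval_C, eval_X]
  have e4 : ∀ A : Matrix (Fin (m + 1)) (Fin (m + 1)) ℂ,
      eval (fun x : Fin (m + 1) × Fin (m + 1) => A x.1 x.2) f4 =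
      (Matrix.of fun i r => eval (A.adjugate.mulVec (ww m r)) (g i)).det := by
    intro A
    show eval _ (Matrix.det _) = _
    rw [RingHom.map_det]
    congr 1
    ext1 i r
    rw [RingHom.mapMatrix_apply, map_apply, of_apply, of_apply, eval_aeval_gen]
    congr 2
    funext k
    rw [map_sum, mulVec, dotProduct]
    apply Finset.sum_congr rfl
    intro l _
    rw [map_mul, eval_C]
    congr 1
    have h1 : (Matrix.mvPolynomialX (Fin (m + 1)) (Fin (m + 1)) ℂ).map
        (eval (fun x : Fin (m + 1) × Fin (m + 1) => A x.1 x.2)) = A := by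
      ext i j
      simp [Matrix.mvPolynomialX]
    conv_rhs => rw [← h1]
    rw [← RingHom.mapMatrix_apply, ← RingHom.map_adjugate]
    rfl
  have hadj : ∀ A : Matrix (Fin (m + 1)) (Fin (m + 1)) ℂ, A.det ≠ 0 → ∀ i r,
      eval (A.adjugate.mulVec (ww m r)) (g i) =
        A.det ^ δ * eval (A⁻¹.mulVec (ww m r)) (g i) := by
    intro A hA i r
    rw [← eval_smul_homog (g i) δ (hg i)]
    congr 2
    funext k
    have h1 : A.adjugate = A.det • A⁻¹ := by
      rw [inv_def, smul_smul, Ring.mul_inverse_cancel _ (isUnit_iff_ne_zero.2 hA), one_smul]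
    rw [h1, smul_mulVec, Pi.smul_apply, smul_eq_mul]
  have n2 : f2 ≠ 0 := by
    intro h0
    apply hJ
    rw [← e2, h0, map_zero]
  have n3 : f3 ≠ 0 := by
    intro h0
    obtain ⟨j, hj⟩ := Function.ne_iff.1 hp
    have h1 := e3 (Matrix.of fun i l => if l = j then 1 else 0)
    rw [h0, map_zero, mulVec, dotProduct, Finset.sum_eq_single j] at h1
    · rw [of_apply, if_pos rfl, one_mul] at h1
      exact hj h1.symm
    · intro l _ hl
      rw [of_apply, if_neg hl, zero_mul]
    · simp
  have n4 : f4 ≠ 0 := by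
    intro h0
    obtain ⟨Q, hQ1, hQ2⟩ := exists_points' g hlin
    set W : Matrix (Fin (m + 1)) (Fin (m + 1)) ℂ := Matrix.of fun k r => ww m r k with hW
    have hWd : W.det ≠ 0 := det_ww m
    have h1 := e4 (W * Q⁻¹)
    have hA : (W * Q⁻¹).det ≠ 0 := by
      rw [det_mul, det_nonsing_inv, Ring.inverse_eq_inv']
      exact mul_ne_zero hWd (inv_ne_zero hQ1)
    rw [h0, map_zero] at h1
    have h2 : (Matrix.of fun i r => eval ((W * Q⁻¹).adjugate.mulVec (ww m r)) (g i)) =
        (W * Q⁻¹).det ^ δ • Matrix.of fun i r => eval (fun k => Q k r) (g i) := by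
      ext1 i r
      rw [of_apply, Matrix.smul_apply, of_apply, smul_eq_mul, hadj _ hA]
      congr 3
      have h3 : (W * Q⁻¹)⁻¹ * W = Q := by
        rw [Matrix.mul_inv_rev, nonsing_inv_nonsing_inv _ (isUnit_iff_ne_zero.2 hQ1), mul_assoc,
          nonsing_inv_mul _ (isUnit_iff_ne_zero.2 hWd), mul_one]
      funext k
      have h4 := congrFun (congrFun h3 k) r
      rw [← h4]
      rfl
    rw [h2, det_smul] at h1
    exact mul_ne_zero (pow_ne_zero _ (pow_ne_zero _ hA)) hQ2 h1.symm
  obtain ⟨x, hx⟩ := exists_eval_ne_zero (f1 * f2 * f3 * f4)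
    (mul_ne_zero (mul_ne_zero (mul_ne_zero (gD_ne _) n2) n3) n4)
  rw [map_mul, map_mul, map_mul] at hx
  have hx4 := right_ne_zero_of_mul hx
  have hx3 := right_ne_zero_of_mul (left_ne_zero_of_mul hx)
  have hx2 := right_ne_zero_of_mul (left_ne_zero_of_mul (left_ne_zero_of_mul hx))
  have hx1 := left_ne_zero_of_mul (left_ne_zero_of_mul (left_ne_zero_of_mul hx))
  set A : Matrix (Fin (m + 1)) (Fin (m + 1)) ℂ := Matrix.of fun i j => x (i, j) with hAdef
  have hxA : x = fun y : Fin (m + 1) × Fin (m + 1) => A y.1 y.2 := rfl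
  rw [hxA] at hx1 hx2 hx3 hx4
  rw [e2] at hx2
  rw [e3] at hx3
  rw [e4] at hx4
  have hA : A.det ≠ 0 := by rw [← eval_gD]; exact hx1
  refine ⟨A, hA, hx2, hx3, ?_⟩
  intro h0
  apply hx4
  have h2 : (Matrix.of fun i r => eval (A.adjugate.mulVec (ww m r)) (g i)) =
      A.det ^ δ • Matrix.of fun i r => eval (ww m r) (subst A⁻¹ (g i)) := by
    ext1 i r
    rw [of_apply, Matrix.smul_apply, of_apply, smul_eq_mul, hadj _ hA, eval_subst]
  rw [h2, det_smul, h0, mul_zero]

/-- Key step: the converse nonvanishing criterion. -/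
theorem regular_of_ne_zero (δ N : ℕ) (hδ : 2 ≤ δ) (hm : 1 ≤ m) (hN : N = (m + 1) * (δ - 1))
    (c : Mon (m + 1) N → ℂ)
    (g : Fin (m + 1) → MvPolynomial (Fin (m + 1)) ℂ) (hg : ∀ i, (g i).IsHomogeneous δ)
    (hlin : LinearIndependent ℂ g) (hF : Perp N δ (form c) g)
    (A₀ : Matrix (Fin (m + 1)) (Fin (m + 1)) ℂ) (hJ : eval (act A₀ c) (J0 m δ N) ≠ 0) :
    IsRegularTuple δ g := by
  refine ⟨hg, fun p hpz => ?_⟩
  by_contra hp
  subst hN
  obtain ⟨A, hA, hA2, hA3, hA4⟩ := exists_generic c g hg hlin A₀ _ hJ p hp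
  set g' : Fin (m + 1) → MvPolynomial (Fin (m + 1)) ℂ := fun i => subst A⁻¹ (g i) with hg'
  have hg'h : ∀ i, (g' i).IsHomogeneous δ := fun i => subst_isHomogeneous _ _ (hg i)
  have hF' : Perp ((m + 1) * (δ - 1)) δ (form (act A c)) g' := by
    rw [form_act]
    exact perp_subst A hA (form c) g hF
  obtain ⟨a, ha1, -⟩ := main_scalar δ hδ hm (form (act A c)) g' hg'h hF'
  have hG : ∀ i, InBox (fun _ => δ) (EE m (g' i)) := fun i l => degreeOf_EE (g' i) (hg'h i) l
  set q := A.mulVec p with hq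
  obtain ⟨x, hx⟩ := exists_roots m (fun k => (q 0)⁻¹ * q k) (inv_mul_cancel₀ hA3)
  have hx0 : ∀ i, eval x (EE m (g' i)) = 0 := by
    intro i
    show eval x (aeval _ (g' i)) = 0
    rw [eval_aeval_gen]
    have h1 : (fun k => eval x (zpt ℂ m k)) = fun k => (q 0)⁻¹ * q k := funext hx
    rw [h1, eval_smul_homog _ δ (hg'h i), hg', eval_subst, hq, mulVec_mulVec,
      nonsing_inv_mul _ (isUnit_iff_ne_zero.2 hA), one_mulVec, hpz i, mul_zero]
  have h1 := Bz_common_zero δ (by omega) (fun i => EE m (g' i)) hG x hx0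
  have h2 := congrArg (Phi δ (LL m ((m + 1) * (δ - 1)) (form (act A c)))).mulVec h1
  rw [mulVec_mulVec, ha1, mulVec_zero, smul_mulVec, one_mulVec] at h2
  have ha : a = 0 := by
    have h3 := congrFun h2 (fun l => ⟨0, Nat.mul_pos (Nat.succ_pos _) (by omega)⟩)
    simpa using h3
  rw [ha, zero_smul] at ha1
  rw [eval_J0] at hA2
  have hB : Bz δ (fun i => EE m (g' i)) = 0 := by
    set P := Phi δ (LL m ((m + 1) * (δ - 1)) (form (act A c))) with hP
    have h4 : (P.submatrix id (eAB m δ)) *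
        ((Bz δ (fun i => EE m (g' i))).submatrix (eAB m δ) id) = 0 := by
      rw [submatrix_mul_equiv, ha1]
      rfl
    have h5 : (Bz δ (fun i => EE m (g' i))).submatrix (eAB m δ) id = 0 := by
      have h6 := congrArg (fun M => (P.submatrix id (eAB m δ))⁻¹ * M) h4
      rw [← mul_assoc, nonsing_inv_mul _ (isUnit_iff_ne_zero.2 hA2), one_mul, mul_zero] at h6
      exact h6
    ext b a
    have h7 := congrFun (congrFun h5 ((eAB m δ).symm b)) a
    rwa [submatrix_apply, Equiv.apply_symm_apply] at h7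
  have h8 := det_eq_zero_of_Bz δ (by omega) (fun i => EE m (g' i)) hG hB (fun _ => 0) (fun _ => 1)
  apply hA4
  rw [← h8]
  congr 1
  ext1 i r
  rw [of_apply, of_apply]
  show _ = eval _ (aeval _ (g' i))
  rw [eval_aeval_gen]
  rfl

end Pool.Agent.Helper56.Ulr
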