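import Pool.Agent.Helper56.Ulr.Box

namespace Pool.Agent.Helper56.Ulr

open MvPolynomial Matrix Finset

variable {R : Type*} [CommRing R] {m : ℕ}

/-- Columns `u 0, ..., u (r-1), v r, DG r, ..., DG (m-1)`. -/
noncomputable def Mx (v DG : ℕ → Fin (m + 1) → MvPolynomial (Fin m) R) (r : ℕ)
    (u : ℕ → Fin (m + 1) → MvPolynomial (Fin m) R) :
    Matrix (Fin (m + 1)) (Fin (m + 1)) (MvPolynomial (Fin m) R) :=
  Matrix.of fun i j => if (j : ℕ) < r then u j i else if (j : ℕ) = r then v r i else DG (j - 1) i

section identities

variable (v DG u : ℕ → Fin (m + 1) → MvPolynomial (Fin m) R) (x : Fin m → R)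

theorem Mx_step_one (r : ℕ) (hr : r < m)
    (hrel : ∀ i, (X ⟨r, hr⟩ - C (x ⟨r, hr⟩)) * DG r i = v (r + 1) i - v r i) :
    (X ⟨r, hr⟩ - C (x ⟨r, hr⟩)) * (Mx v DG r u).det =
      (Mx v DG (r + 1) (Function.update u r (v r))).det := by
  set c : MvPolynomial (Fin m) R := X ⟨r, hr⟩ - C (x ⟨r, hr⟩) with hc
  set j0 : Fin (m + 1) := ⟨r, by omega⟩ with hj0
  set j1 : Fin (m + 1) := ⟨r + 1, by omega⟩ with hj1
  have hne : j0 ≠ j1 := by
    intro h
    have := congrArg Fin.val h
    simp [hj0, hj1] at this
  set B := Mx v DG r u with hB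
  have hA : Mx v DG (r + 1) (Function.update u r (v r)) =
      B.updateCol j1 (fun i => B i j0 + c * B i j1) := by
    ext1 i j
    rw [updateCol_apply]
    by_cases hj : j = j1
    · rw [if_pos hj, hj]
      simp only [hB, Mx, of_apply, hj1, hj0]
      rw [if_neg (by omega), if_pos trivial, if_neg (by omega), if_pos trivial,
        if_neg (by omega), if_neg (by omega)]
      have h1 : r + 1 - 1 = r := by omega
      rw [h1, hrel i]
      ring
    · rw [if_neg hj]
      have hjv : (j : ℕ) ≠ r + 1 := fun h => hj (Fin.ext h)
      simp only [hB, Mx, of_apply]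
      rcases lt_trichotomy (j : ℕ) r with h | h | h
      · rw [if_pos (by omega), if_pos h, Function.update_of_ne (by omega)]
      · rw [if_pos (by omega), if_neg (by omega), if_pos h, h, Function.update_self]
      · rw [if_neg (by omega), if_neg hjv, if_neg (by omega), if_neg (by omega)]
  rw [hA]
  have h2 : (fun i => B i j0 + c * B i j1) = (fun i => B i j0) + c • (fun i => B i j1) := by
    funext i
    simp
  rw [h2, det_updateCol_add, det_updateCol_smul, updateCol_eq_self]
  have h3 : (B.updateCol j1 fun i => B i j0).det = 0 := by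
    apply det_zero_of_column_eq hne
    intro i
    rw [updateCol_self, updateCol_ne hne]
  rw [h3, zero_add]

theorem Mx_step_two (r : ℕ) (hr : r < m)
    (hrel : ∀ i, (X ⟨r, hr⟩ - C (x ⟨r, hr⟩)) * DG r i = v (r + 1) i - v r i) :
    (Mx v DG r u).det = - (Mx v DG (r + 1) (Function.update u r (DG r))).det := by
  set c : MvPolynomial (Fin m) R := X ⟨r, hr⟩ - C (x ⟨r, hr⟩) with hc
  set j0 : Fin (m + 1) := ⟨r, by omega⟩ with hj0
  set j1 : Fin (m + 1) := ⟨r + 1, by omega⟩ with hj1
  have hne : j0 ≠ j1 := by
    intro h
    have := congrArg Fin.val h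
    simp [hj0, hj1] at this
  set B := (Mx v DG r u).submatrix id (Equiv.swap j0 j1) with hB
  have hBdet : B.det = - (Mx v DG r u).det := by
    rw [hB, det_permute', Equiv.Perm.sign_swap hne]
    simp
  have hB0 : ∀ i, B i j0 = DG r i := by
    intro i
    rw [hB, submatrix_apply, Equiv.swap_apply_left]
    simp only [Mx, of_apply, id, hj1]
    rw [if_neg (by omega), if_neg (by omega)]
    rfl
  have hB1 : ∀ i, B i j1 = v r i := by
    intro i
    rw [hB, submatrix_apply, Equiv.swap_apply_right]
    simp only [Mx, of_apply, id, hj0]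
    rw [if_neg (by omega), if_pos trivial]
  have hA : Mx v DG (r + 1) (Function.update u r (DG r)) =
      B.updateCol j1 (fun i => B i j1 + c * B i j0) := by
    ext1 i j
    rw [updateCol_apply]
    by_cases hj : j = j1
    · rw [if_pos hj, hj, hB0, hB1]
      simp only [Mx, of_apply, hj1]
      rw [if_neg (by omega), if_pos trivial, hrel i]
      ring
    · rw [if_neg hj]
      have hjv : (j : ℕ) ≠ r + 1 := fun h => hj (Fin.ext h)
      by_cases hj' : j = j0
      · rw [hj', hB0]
        simp only [Mx, of_apply, hj0]
        rw [if_pos (by omega), Function.update_self]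
      · have hjv' : (j : ℕ) ≠ r := fun h => hj' (Fin.ext h)
        rw [hB, submatrix_apply, Equiv.swap_apply_of_ne_of_ne hj' hj]
        simp only [Mx, of_apply, id]
        rcases lt_or_ge (j : ℕ) r with h | h
        · rw [if_pos (by omega), if_pos h, Function.update_of_ne (by omega)]
        · rw [if_neg (by omega), if_neg hjv, if_neg (by omega), if_neg (by omega)]
  rw [hA]
  have h2 : (fun i => B i j1 + c * B i j0) = (fun i => B i j1) + c • (fun i => B i j0) := by
    funext i
    simp
  rw [h2, det_updateCol_add, det_updateCol_smul, updateCol_eq_self]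
  have h3 : (B.updateCol j1 fun i => B i j0).det = 0 := by
    apply det_zero_of_column_eq hne
    intro i
    rw [updateCol_self, updateCol_ne hne]
  rw [h3, mul_zero, add_zero, hBdet, neg_neg]

end identities

/-- The bound for the degrees of the columns `v r`. -/
def bv (δ r : ℕ) (l : Fin m) : ℕ := if (l : ℕ) < r then δ else 0

/-- The bound for the degrees of the columns `DG r`. -/
def bD (δ r : ℕ) (l : Fin m) : ℕ := if (l : ℕ) < r then δ else if (l : ℕ) = r then δ - 1 else 0

theorem claim (δ : ℕ) (hδ : 2 ≤ δ) (v DG : ℕ → Fin (m + 1) → MvPolynomial (Fin m) R)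
    (x : Fin m → R)
    (hrel : ∀ r (hr : r < m), ∀ i,
      (X ⟨r, hr⟩ - C (x ⟨r, hr⟩)) * DG r i = v (r + 1) i - v r i)
    (hv : ∀ r ≤ m, ∀ i, InBox (bv δ r) (v r i)) (hD : ∀ r < m, ∀ i, InBox (bD δ r) (DG r i))
    (L : MvPolynomial (Fin m) R →ₗ[R] R)
    (hL : ∀ i p, InBox (fun _ => m * δ - 2) p → L (v m i * p) = 0) :
    ∀ k r, r + k = m → 1 ≤ r → ∀ (u : ℕ → Fin (m + 1) → MvPolynomial (Fin m) R)
      (b : ℕ → Fin m → ℕ) (p : MvPolynomial (Fin m) R) (a : Fin m → ℕ), InBox a p →
      (∀ j < r, ∀ i, InBox (b j) (u j i)) →
      (∀ l : Fin m, (l : ℕ) < r → a l + ∑ j ∈ range r, b j l ≤ r * δ - 2) →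
      (∀ l : Fin m, r ≤ (l : ℕ) → a l ≤ (l + 1) * δ - 1 ∧ ∀ j < r, b j l = 0) →
      L (p * (Mx v DG r u).det) = 0 := by
  intro k
  induction k with
  | zero =>
    intro r hrm hr1 u b p a hp hu h1 h2
    rw [add_zero] at hrm
    subst hrm
    rw [det_succ_column _ (Fin.last r), Finset.mul_sum, map_sum]
    apply Finset.sum_eq_zero
    intro i _
    have e1 : Mx v DG r u i (Fin.last r) = v r i := by
      simp [Mx]
    have e2 : InBox (∑ j : Fin r, b j)
        ((Mx v DG r u).submatrix i.succAbove (Fin.last r).succAbove).det := by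
      refine InBox.det _ (fun j => b j) ?_
      intro i' j'
      rw [submatrix_apply, Fin.succAbove_last]
      simp only [Mx, of_apply, Fin.val_castSucc, j'.2, if_true]
      exact hu _ j'.2 _
    have e3 : p * ((-1) ^ ((i : ℕ) + (Fin.last r : ℕ)) * Mx v DG r u i (Fin.last r) *
        ((Mx v DG r u).submatrix i.succAbove (Fin.last r).succAbove).det) =
        v r i * (C ((-1) ^ ((i : ℕ) + (Fin.last r : ℕ))) *
          (p * ((Mx v DG r u).submatrix i.succAbove (Fin.last r).succAbove).det)) := by
      rw [e1, map_pow, map_neg, map_one]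
      ring
    rw [e3]
    apply hL
    apply InBox.C_mul
    refine (hp.mul e2).mono fun l => ?_
    have := h1 l l.2
    rw [Finset.sum_range] at this
    simpa using this
  | succ k ih =>
    intro r hrm hr1 u b p a hp hu h1 h2
    have hr : r < m := by omega
    set l0 : Fin m := ⟨r, hr⟩ with hl0
    have hrδ : 2 ≤ r * δ := by nlinarith
    have hp' := X_sub_C_mul_dd l0 (x l0) p
    have hsplit : p = ev l0 (x l0) p + (X l0 - C (x l0)) * dd l0 (x l0) p := by
      rw [hp']; ring
    have hmul : p * (Mx v DG r u).det =
        - (ev l0 (x l0) p * (Mx v DG (r + 1) (Function.update u r (DG r))).det) +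
        dd l0 (x l0) p * (Mx v DG (r + 1) (Function.update u r (v r))).det := by
      conv_lhs => rw [hsplit]
      rw [add_mul]
      congr 1
      · rw [Mx_step_two v DG u x r hr (hrel r hr)]
        ring
      · rw [← Mx_step_one v DG u x r hr (hrel r hr)]
        ring
    rw [hmul, map_add, map_neg]
    have hA : L (ev l0 (x l0) p * (Mx v DG (r + 1) (Function.update u r (DG r))).det) = 0 := by
      apply ih (r + 1) (by omega) (by omega) _ (Function.update b r (bD δ r)) _ _ (hp.ev l0 (x l0))
      · intro j hj i
        by_cases hjr : j = r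
        · subst hjr
          rw [Function.update_self, Function.update_self]
          exact hD _ hr _
        · rw [Function.update_of_ne hjr, Function.update_of_ne hjr]
          exact hu j (by omega) i
      · intro l hl
        rw [Finset.sum_range_succ, Function.update_self]
        have hs : ∑ j ∈ range r, Function.update b r (bD δ r) j l = ∑ j ∈ range r, b j l := by
          apply Finset.sum_congr rfl
          intro j hj
          rw [Finset.mem_range] at hj
          rw [Function.update_of_ne (by omega)]
        rw [hs]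
        by_cases hlr : l = l0
        · subst hlr
          rw [Function.update_self]
          have h3 : ∑ j ∈ range r, b j l0 = 0 := by
            apply Finset.sum_eq_zero
            intro j hj
            exact (h2 l0 (le_refl r)).2 j (Finset.mem_range.1 hj)
          rw [h3]
          simp only [bD, hl0, lt_self_iff_false, if_false, if_true]
          have : (r + 1) * δ = r * δ + δ := by ring
          omega
        · rw [Function.update_of_ne hlr]
          have hlr' : (l : ℕ) ≠ r := fun h => hlr (Fin.ext h)
          have hlr'' : (l : ℕ) < r := by omega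
          have := h1 l hlr''
          simp only [bD, hlr'', if_true]
          have h4 : (r + 1) * δ = r * δ + δ := by ring
          omega
      · intro l hl
        have hlr : l ≠ l0 := by
          intro h
          rw [h] at hl
          simp [hl0] at hl
        rw [Function.update_of_ne hlr]
        refine ⟨(h2 l (by omega)).1, ?_⟩
        intro j hj
        by_cases hjr : j = r
        · subst hjr
          rw [Function.update_self]
          simp only [bD]
          rw [if_neg (by omega), if_neg (by omega)]
        · rw [Function.update_of_ne hjr]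
          exact (h2 l (by omega)).2 j (by omega)
    have hB : L (dd l0 (x l0) p * (Mx v DG (r + 1) (Function.update u r (v r))).det) = 0 := by
      apply ih (r + 1) (by omega) (by omega) _ (Function.update b r (bv δ r)) _ _ (hp.dd l0 (x l0))
      · intro j hj i
        by_cases hjr : j = r
        · subst hjr
          rw [Function.update_self, Function.update_self]
          exact hv _ hr.le _
        · rw [Function.update_of_ne hjr, Function.update_of_ne hjr]
          exact hu j (by omega) i
      · intro l hl
        rw [Finset.sum_range_succ, Function.update_self]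
        have hs : ∑ j ∈ range r, Function.update b r (bv δ r) j l = ∑ j ∈ range r, b j l := by
          apply Finset.sum_congr rfl
          intro j hj
          rw [Finset.mem_range] at hj
          rw [Function.update_of_ne (by omega)]
        rw [hs]
        have h4 : (r + 1) * δ = r * δ + δ := by ring
        by_cases hlr : l = l0
        · subst hlr
          rw [Function.update_self]
          have h3 : ∑ j ∈ range r, b j l0 = 0 := by
            apply Finset.sum_eq_zero
            intro j hj
            exact (h2 l0 (le_refl r)).2 j (Finset.mem_range.1 hj)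
          rw [h3]
          have h5 := (h2 l0 (le_refl r)).1
          simp only [bv, hl0, lt_self_iff_false, if_false]
          simp only [hl0] at h5
          omega
        · rw [Function.update_of_ne hlr]
          have hlr' : (l : ℕ) ≠ r := fun h => hlr (Fin.ext h)
          have hlr'' : (l : ℕ) < r := by omega
          have := h1 l hlr''
          simp only [bv, hlr'', if_true]
          omega
      · intro l hl
        have hlr : l ≠ l0 := by
          intro h
          rw [h] at hl
          simp [hl0] at hl
        rw [Function.update_of_ne hlr]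
        refine ⟨(h2 l (by omega)).1, ?_⟩
        intro j hj
        by_cases hjr : j = r
        · subst hjr
          rw [Function.update_self]
          simp only [bv]
          rw [if_neg (by omega)]
        · rw [Function.update_of_ne hjr]
          exact (h2 l (by omega)).2 j (by omega)
    rw [hA, hB]
    simp

/-- Columns `w, DG 0, ..., DG (m-1)`. -/
noncomputable def Dm (w : Fin (m + 1) → MvPolynomial (Fin m) R)
    (DG : ℕ → Fin (m + 1) → MvPolynomial (Fin m) R) :
    Matrix (Fin (m + 1)) (Fin (m + 1)) (MvPolynomial (Fin m) R) :=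
  Matrix.of fun i j => if (j : ℕ) = 0 then w i else DG (j - 1) i

section identities2

variable (v DG : ℕ → Fin (m + 1) → MvPolynomial (Fin m) R) (x : Fin m → R)

/-- The coefficients expressing `v r` in the columns of `Dm (v 0) DG`. -/
noncomputable def cf (r : ℕ) (j : Fin (m + 1)) : MvPolynomial (Fin m) R :=
  if h : 1 ≤ (j : ℕ) ∧ (j : ℕ) ≤ r then X ⟨j - 1, by omega⟩ - C (x ⟨j - 1, by omega⟩)
  else if (j : ℕ) = 0 then 1 else 0

theorem v_eq_sum (hrel : ∀ r (hr : r < m), ∀ i,
      (X ⟨r, hr⟩ - C (x ⟨r, hr⟩)) * DG r i = v (r + 1) i - v r i) (r : ℕ) (hr : r ≤ m)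
    (i : Fin (m + 1)) : v r i = ∑ j, cf x r j • Dm (v 0) DG i j := by
  induction r with
  | zero =>
    rw [Finset.sum_eq_single 0]
    · simp [cf, Dm]
    · intro j _ hj
      have : (j : ℕ) ≠ 0 := fun h => hj (Fin.ext h)
      simp only [cf]
      rw [dif_neg (by omega), if_neg this, zero_smul]
    · simp
  | succ r ih =>
    have h1 := hrel r (by omega) i
    have h2 : v (r + 1) i = v r i + (X ⟨r, hr⟩ - C (x ⟨r, hr⟩)) * DG r i := by
      rw [h1]; ring
    rw [h2, ih (by omega)]
    set j1 : Fin (m + 1) := ⟨r + 1, by omega⟩ with hj1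
    rw [← Finset.add_sum_erase _ _ (Finset.mem_univ j1),
      ← Finset.add_sum_erase _ (fun j => cf x (r + 1) j • Dm (v 0) DG i j) (Finset.mem_univ j1)]
    have h3 : cf x r j1 = 0 := by
      simp only [cf, hj1]
      rw [dif_neg (by omega), if_neg (by omega)]
    have h4 : cf x (r + 1) j1 = X ⟨r, hr⟩ - C (x ⟨r, hr⟩) := by
      simp only [cf, hj1]
      rw [dif_pos (by omega)]
      rfl
    have h5 : Dm (v 0) DG i j1 = DG r i := by
      simp [Dm, hj1]
    rw [h3, h4, h5, zero_smul, zero_add, smul_eq_mul, add_comm]
    congr 1
    apply Finset.sum_congr rfl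
    intro j hj
    have hjne : (j : ℕ) ≠ r + 1 := fun h => (Finset.mem_erase.1 hj).1 (Fin.ext h)
    congr 1
    simp only [cf]
    by_cases h : 1 ≤ (j : ℕ) ∧ (j : ℕ) ≤ r
    · rw [dif_pos h, dif_pos (by omega)]
    · rw [dif_neg h, dif_neg (by omega)]

theorem det_Dm_eq (hrel : ∀ r (hr : r < m), ∀ i,
      (X ⟨r, hr⟩ - C (x ⟨r, hr⟩)) * DG r i = v (r + 1) i - v r i) (r : ℕ) (hr : r ≤ m) :
    (Dm (v r) DG).det = (Dm (v 0) DG).det := by
  have h1 : Dm (v r) DG = (Dm (v 0) DG).updateCol 0 (fun i => ∑ j, cf x r j • Dm (v 0) DG i j) := by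
    ext1 i j
    rw [updateCol_apply]
    by_cases hj : j = 0
    · rw [if_pos hj, hj, ← v_eq_sum v DG x hrel r hr i]
      simp [Dm]
    · rw [if_neg hj]
      have : (j : ℕ) ≠ 0 := fun h => hj (Fin.ext h)
      simp [Dm, hj]
  rw [h1, det_updateCol_sum]
  simp [cf]

theorem X_sub_mul_det_Dm (hrel : ∀ r (hr : r < m), ∀ i,
      (X ⟨r, hr⟩ - C (x ⟨r, hr⟩)) * DG r i = v (r + 1) i - v r i) (r : ℕ) (hr : r < m) :
    (X ⟨r, hr⟩ - C (x ⟨r, hr⟩)) * (Dm (v 0) DG).det =
      (Mx v DG (r + 1) (fun j => if j = 0 then v 0 else DG (j - 1))).det := by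
  set j1 : Fin (m + 1) := ⟨r + 1, by omega⟩ with hj1
  have h1 : Mx v DG (r + 1) (fun j => if j = 0 then v 0 else DG (j - 1)) =
      (Dm (v 0) DG).updateCol j1 (fun i => ∑ j, cf x (r + 1) j • Dm (v 0) DG i j) := by
    ext1 i j
    rw [updateCol_apply]
    by_cases hj : j = j1
    · rw [if_pos hj, hj, ← v_eq_sum v DG x hrel (r + 1) (by omega) i]
      simp [Mx, hj1]
    · rw [if_neg hj]
      have hjne : (j : ℕ) ≠ r + 1 := fun h => hj (Fin.ext h)
      simp only [Mx, Dm, of_apply]
      by_cases h : (j : ℕ) < r + 1
      · rw [if_pos h]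
        by_cases h0 : (j : ℕ) = 0
        · rw [if_pos h0, if_pos h0]
        · rw [if_neg h0, if_neg h0]
      · rw [if_neg h, if_neg hjne, if_neg (by omega)]
  rw [h1, det_updateCol_sum]
  congr 1
  simp only [cf, hj1]
  rw [dif_pos (by omega)]
  rfl

end identities2

/-- The main identity. -/
theorem main_identity (δ : ℕ) (hδ : 2 ≤ δ) (v DG : ℕ → Fin (m + 1) → MvPolynomial (Fin m) R)
    (x : Fin m → R)
    (hrel : ∀ r (hr : r < m), ∀ i,
      (X ⟨r, hr⟩ - C (x ⟨r, hr⟩)) * DG r i = v (r + 1) i - v r i)
    (hv : ∀ r ≤ m, ∀ i, InBox (bv δ r) (v r i)) (hD : ∀ r < m, ∀ i, InBox (bD δ r) (DG r i))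
    (L : MvPolynomial (Fin m) R →ₗ[R] R)
    (hL : ∀ i p, InBox (fun _ => m * δ - 2) p → L (v m i * p) = 0)
    (α : MvPolynomial (Fin m) R) (hα : InBox (fun l => (l + 1) * δ - 1) α) :
    L (α * (Dm (v 0) DG).det) = eval x α * L (Dm (v 0) DG).det := by
  have key : ∀ r ≤ m, ∃ q : MvPolynomial (Fin m) R,
      InBox (fun l => if (l : ℕ) < r then 0 else (l + 1) * δ - 1) q ∧
      L (α * (Dm (v 0) DG).det) = L (q * (Dm (v 0) DG).det) ∧ eval x q = eval x α := by
    intro r
    induction r with
    | zero =>
      intro _
      exact ⟨α, by simpa using hα, rfl, rfl⟩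
    | succ r ih =>
      intro hr
      obtain ⟨q, hq, h1, h2⟩ := ih (by omega)
      set l0 : Fin m := ⟨r, by omega⟩ with hl0
      refine ⟨ev l0 (x l0) q, ?_, ?_, by rw [eval_ev, h2]⟩
      · refine (hq.ev l0 (x l0)).mono fun l => ?_
        by_cases hl : l = l0
        · rw [hl, Function.update_self]
          exact Nat.zero_le _
        · rw [Function.update_of_ne hl]
          have hl' : (l : ℕ) ≠ r := fun h => hl (Fin.ext h)
          split_ifs <;> omega
      · rw [h1, ← sub_eq_zero, ← map_sub, ← sub_mul, ← X_sub_C_mul_dd]
        have h3 : (X l0 - C (x l0)) * dd l0 (x l0) q * (Dm (v 0) DG).det =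
            dd l0 (x l0) q * (Mx v DG (r + 1) (fun j => if j = 0 then v 0 else DG (j - 1))).det := by
          rw [← X_sub_mul_det_Dm v DG x hrel r (by omega)]
          ring
        rw [h3]
        apply claim δ hδ v DG x hrel hv hD L hL (m - (r + 1)) (r + 1) (by omega) (by omega) _
          (fun j => if j = 0 then 0 else bD δ (j - 1)) _ _ (hq.dd l0 (x l0))
        · intro j hj i
          by_cases hj0 : j = 0
          · simp only [hj0, if_true]
            refine (hv 0 (by omega) i).mono fun l => ?_
            simp [bv]
          · simp only [hj0, if_false]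
            exact hD _ (by omega) i
        · intro l hl
          -- sum of the degree bounds
          have hsum : ∀ t : ℕ, ∑ j ∈ range (t + 1),
              (if j = 0 then 0 else bD δ (j - 1) : Fin m → ℕ) l =
              if (l : ℕ) < t then (t - (l : ℕ)) * δ - 1 else 0 := by
            intro t
            induction t with
            | zero => simp
            | succ t iht =>
              rw [Finset.sum_range_succ, iht]
              simp only [Nat.add_eq_zero_iff, one_ne_zero, and_false, if_false,
                Nat.add_sub_cancel, bD]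
              rcases lt_trichotomy (l : ℕ) t with h | h | h
              · rw [if_pos h, if_pos h, if_pos (by omega)]
                obtain ⟨e, he⟩ := Nat.exists_eq_add_of_lt h
                have e1 : t - (l : ℕ) = e + 1 := by omega
                have e2 : t + 1 - (l : ℕ) = e + 2 := by omega
                rw [e1, e2]
                have e3 : (e + 1) * δ = e * δ + δ := by ring
                have e4 : (e + 2) * δ = e * δ + 2 * δ := by ring
                omega
              · rw [if_neg (by omega), if_neg (by omega), if_pos h, if_pos (by omega)]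
                have e2 : t + 1 - (l : ℕ) = 1 := by omega
                rw [e2]
                omega
              · rw [if_neg (by omega), if_neg (by omega), if_neg (by omega), if_neg (by omega)]
          rw [hsum r]
          by_cases hl2 : l = l0
          · rw [hl2, Function.update_self]
            simp only [hl0, lt_self_iff_false, if_false]
            omega
          · rw [Function.update_of_ne hl2]
            have hl' : (l : ℕ) ≠ r := fun h => hl2 (Fin.ext h)
            have hl3 : (l : ℕ) < r := by omega
            rw [if_pos hl3, if_pos hl3, zero_add]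
            have e1 : (r - (l : ℕ)) * δ ≤ r * δ := Nat.mul_le_mul_right _ (Nat.sub_le _ _)
            have e2 : (r + 1) * δ = r * δ + δ := by ring
            omega
        · intro l hl
          have hl2 : l ≠ l0 := by
            intro h
            rw [h] at hl
            simp [hl0] at hl
          rw [Function.update_of_ne hl2]
          refine ⟨by rw [if_neg (by omega)], ?_⟩
          intro j hj
          by_cases hj0 : j = 0
          · simp [hj0]
          · simp only [hj0, if_false, bD]
            rw [if_neg (by omega), if_neg (by omega)]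
  obtain ⟨q, hq, h1, h2⟩ := key m le_rfl
  have h3 : InBox 0 q := hq.mono fun l => by
    simp [l.2]
  have h4 := eq_C_of_inBox_zero h3
  rw [h1, ← h2, h4, eval_C, ← smul_eq_C_mul, map_smul, smul_eq_mul]

end Pool.Agent.Helper56.Ulr
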