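import Mathlib

namespace Pool.Agent.Helper56.Ulr

open MvPolynomial

/-- The point `(e_0, ..., e_m)` of elementary symmetric polynomials in `m` variables. -/
noncomputable def zpt (k : Type) [CommRing k] (m : ℕ) : Fin (m + 1) → MvPolynomial (Fin m) k :=
  fun i => esymm (Fin m) k i

/-- The Jacobian determinant of the elementary symmetric polynomials `e_1, ..., e_m`. -/
noncomputable def wdet (k : Type) [CommRing k] (m : ℕ) : MvPolynomial (Fin m) k :=
  (Matrix.of fun i j : Fin m => pderiv j (esymm (Fin m) k (i + 1))).det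

/-- Elementary symmetric polynomials without the variable `j`. -/
noncomputable def Ej (k : Type) [CommRing k] (m : ℕ) (j : Fin m) (n : ℕ) : MvPolynomial (Fin m) k :=
  ∑ t ∈ Finset.powersetCard n (Finset.univ.erase j), ∏ i ∈ t, X i

lemma pderiv_prod_notMem (k : Type) [CommRing k] (m : ℕ) (j : Fin m) (t : Finset (Fin m))
    (hj : j ∉ t) : pderiv j (∏ i ∈ t, (X i : MvPolynomial (Fin m) k)) = 0 := by
  induction t using Finset.induction_on with
  | empty => simp
  | insert a t ha ih =>
    rw [Finset.mem_insert, not_or] at hj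
    rw [Finset.prod_insert ha, Derivation.leibniz, ih hj.2, pderiv_X_of_ne (Ne.symm hj.1)]
    simp

lemma pderiv_esymm (k : Type) [CommRing k] (m : ℕ) (j : Fin m) (n : ℕ) :
    pderiv j (esymm (Fin m) k (n + 1)) = Ej k m j n := by
  have h1 : (Finset.univ : Finset (Fin m)) = insert j (Finset.univ.erase j) :=
    (Finset.insert_erase (Finset.mem_univ j)).symm
  have hj : j ∉ (Finset.univ : Finset (Fin m)).erase j := by simp
  unfold esymm Ej
  conv_lhs => rw [h1]
  rw [Finset.powersetCard_succ_insert hj, Finset.sum_union, map_add, map_sum, Finset.sum_image,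
    map_sum]
  · have h2 : ∀ t ∈ Finset.powersetCard (n+1) ((Finset.univ : Finset (Fin m)).erase j),
        pderiv j (∏ i ∈ t, (X i : MvPolynomial (Fin m) k)) = 0 := by
      intro t ht
      apply pderiv_prod_notMem
      intro hjt
      exact hj ((Finset.mem_powersetCard.1 ht).1 hjt)
    rw [Finset.sum_eq_zero h2, zero_add]
    refine Finset.sum_congr rfl fun t ht => ?_
    have hjt : j ∉ t := fun h => hj ((Finset.mem_powersetCard.1 ht).1 h)
    rw [Finset.prod_insert hjt, Derivation.leibniz, pderiv_prod_notMem k m j t hjt, pderiv_X_self]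
    simp
  · intro t ht t' ht' htt
    have hjt : j ∉ t := fun h => hj ((Finset.mem_powersetCard.1 ht).1 h)
    have hjt' : j ∉ t' := fun h => hj ((Finset.mem_powersetCard.1 ht').1 h)
    have := congrArg (fun s => Finset.erase s j) htt
    simpa [Finset.erase_insert hjt, Finset.erase_insert hjt'] using this
  · rw [Finset.disjoint_left]
    intro t ht ht'
    rw [Finset.mem_image] at ht'
    obtain ⟨t', _, rfl⟩ := ht'
    exact hj ((Finset.mem_powersetCard.1 ht).1 (Finset.mem_insert_self _ _))

lemma wdet_eq (k : Type) [CommRing k] (m : ℕ) :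
    wdet k m = (Matrix.of fun i j : Fin m => Ej k m j i).det := by
  unfold wdet
  congr 1
  ext i j
  simp [pderiv_esymm]

lemma key_id (k : Type) [CommRing k] (m : ℕ) (j : Fin m) (y : MvPolynomial (Fin m) k) :
    ∑ n : Fin m, ((-1) ^ (n:ℕ) * y ^ (m - 1 - n)) * Ej k m j n =
      ∏ t ∈ Finset.univ.erase j, (y - X t) := by
  have h := congrArg (Polynomial.eval y) (Multiset.prod_X_sub_X_eq_sum_esymm
    (((Finset.univ : Finset (Fin m)).erase j).val.map (fun t => (X t : MvPolynomial (Fin m) k))))
  have hcard : Multiset.card (((Finset.univ : Finset (Fin m)).erase j).val.map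
      (fun t => (X t : MvPolynomial (Fin m) k))) = m - 1 := by
    rw [Multiset.card_map, Finset.card_val, Finset.card_erase_of_mem (Finset.mem_univ j)]
    simp
  rw [hcard, Nat.sub_add_cancel (Nat.one_le_of_lt j.2)] at h
  rw [Polynomial.eval_finsetSum, Multiset.map_map] at h
  have h2 : Polynomial.eval y (Multiset.map ((fun t => Polynomial.X - Polynomial.C t) ∘
      fun t => (X t : MvPolynomial (Fin m) k)) ((Finset.univ : Finset (Fin m)).erase j).val).prod =
      ∏ t ∈ Finset.univ.erase j, (y - X t) := by
    have : (Multiset.map ((fun t => Polynomial.X - Polynomial.C t) ∘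
      fun t => (X t : MvPolynomial (Fin m) k)) ((Finset.univ : Finset (Fin m)).erase j).val).prod =
      ∏ t ∈ Finset.univ.erase j, (Polynomial.X - Polynomial.C (X t : MvPolynomial (Fin m) k)) := rfl
    rw [this, Polynomial.eval_prod]
    simp
  rw [h2] at h
  rw [h, Finset.sum_range]
  refine Finset.sum_congr rfl fun n _ => ?_
  have h3 : Multiset.esymm (((Finset.univ : Finset (Fin m)).erase j).val.map
      (fun t => (X t : MvPolynomial (Fin m) k))) n = Ej k m j n := by
    unfold Ej
    rw [Finset.esymm_map_val]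
  rw [h3]
  simp
  ring

theorem wdet_ne_zero (k : Type) [Field k] (m : ℕ) : wdet k m ≠ 0 := by
  rw [wdet_eq]
  intro h0
  have h : ((Matrix.of fun l n : Fin m => ((-1) ^ (n:ℕ) * (X l : MvPolynomial (Fin m) k) ^ (m - 1 - n))) *
      (Matrix.of fun i j : Fin m => Ej k m j i)) =
      Matrix.diagonal (fun j => ∏ t ∈ Finset.univ.erase j, ((X j : MvPolynomial (Fin m) k) - X t)) := by
    ext1 l j
    rw [Matrix.mul_apply]
    simp only [Matrix.of_apply]
    rw [key_id, Matrix.diagonal_apply]
    split_ifs with hlj
    · subst hlj; rfl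
    · apply Finset.prod_eq_zero (i := l)
      · simp [hlj]
      · simp
  have h1 := congrArg Matrix.det h
  rw [Matrix.det_mul, h0, mul_zero, Matrix.det_diagonal] at h1
  have h2 := h1.symm
  rw [Finset.prod_eq_zero_iff] at h2
  obtain ⟨j, _, hj⟩ := h2
  rw [Finset.prod_eq_zero_iff] at hj
  obtain ⟨t, ht, hjt⟩ := hj
  rw [sub_eq_zero] at hjt
  have := X_injective hjt
  simp at ht
  exact ht this.symm

lemma degreeOf_prod_X (k : Type) [Field k] (m : ℕ) (l : Fin m) (t : Finset (Fin m)) :
    degreeOf l (∏ i ∈ t, (X i : MvPolynomial (Fin m) k)) ≤ if l ∈ t then 1 else 0 := by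
  refine (degreeOf_prod_le l t _).trans ?_
  simp only [degreeOf_X]
  simp

lemma degreeOf_Ej (k : Type) [Field k] (m : ℕ) (l j : Fin m) (n : ℕ) :
    degreeOf l (Ej k m j n) ≤ if l = j then 0 else 1 := by
  unfold Ej
  refine (degreeOf_sum_le l _ _).trans ?_
  apply Finset.sup_le
  intro t ht
  refine (degreeOf_prod_X k m l t).trans ?_
  split_ifs with h1 h2
  · subst h2
    have := (Finset.mem_powersetCard.1 ht).1 h1
    simp at this
  · exact le_rfl
  · exact le_rfl
  · exact zero_le_one

/-- every variable has degree at most `m - 1` in `wdet` -/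
theorem degreeOf_wdet (k : Type) [Field k] (m : ℕ) (l : Fin m) :
    degreeOf l (wdet k m) + 1 ≤ m := by
  have hm : 1 ≤ m := Nat.one_le_of_lt l.2
  have : degreeOf l (wdet k m) ≤ m - 1 := by
    rw [wdet_eq, Matrix.det_apply]
    refine (degreeOf_sum_le l _ _).trans ?_
    apply Finset.sup_le
    intro σ _
    have h1 : degreeOf l (Equiv.Perm.sign σ • ∏ i, (Matrix.of fun i j : Fin m => Ej k m j i) (σ i) i) ≤
        degreeOf l (∏ i, (Matrix.of fun i j : Fin m => Ej k m j i) (σ i) i) := by
      rcases Int.units_eq_one_or (Equiv.Perm.sign σ) with h | h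
      · rw [h, one_smul]
      · rw [h, Units.neg_smul, one_smul, degreeOf_neg]
    refine h1.trans ((degreeOf_prod_le l _ _).trans ?_)
    simp only [Matrix.of_apply]
    calc ∑ j, degreeOf l (Ej k m j (σ j)) ≤ ∑ j, (if l = j then 0 else 1) :=
          Finset.sum_le_sum fun j _ => degreeOf_Ej k m l j _
      _ = ∑ j ∈ Finset.univ.erase l, 1 := by
          rw [← Finset.add_sum_erase _ _ (Finset.mem_univ l)]
          simp only [if_true, zero_add]
          refine Finset.sum_congr rfl fun j hj => ?_
          rw [if_neg (fun h => (Finset.mem_erase.1 hj).1 h.symm)]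
      _ = m - 1 := by simp
  omega

/-- `wdet` is alternating -/
theorem rename_wdet (k : Type) [Field k] (m : ℕ) (σ : Equiv.Perm (Fin m)) :
    rename σ (wdet k m) = (Equiv.Perm.sign σ : ℤ) • wdet k m := by
  unfold wdet
  have h1 : rename σ (Matrix.of fun i j : Fin m => pderiv j (esymm (Fin m) k (i + 1))).det =
      ((Matrix.of fun i j : Fin m => pderiv j (esymm (Fin m) k (i + 1))).submatrix id σ).det := by
    rw [AlgHom.map_det]
    congr 1
    ext1 i j
    simp only [AlgHom.mapMatrix_apply, Matrix.map_apply, Matrix.of_apply, Matrix.submatrix_apply, id]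
    rw [← pderiv_rename σ.injective, rename_esymm]
  rw [h1, Matrix.det_permute']
  simp



lemma aeval_zpt (k : Type) [Field k] (m : ℕ) (s : MvPolynomial (Fin (m + 1)) k) :
    aeval (zpt k m) s = aeval (fun i : Fin m => esymm (Fin m) k (i + 1))
      (Polynomial.eval 1 (finSuccEquiv k m s)) := by
  have h : (aeval (zpt k m) : MvPolynomial (Fin (m+1)) k →ₐ[k] MvPolynomial (Fin m) k) =
      (aeval (fun i : Fin m => esymm (Fin m) k (i + 1))).comp
      (((Polynomial.aeval (1 : MvPolynomial (Fin m) k)).restrictScalars k).comp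
        (finSuccEquiv k m).toAlgHom) := by
    apply algHom_ext
    intro i
    refine Fin.cases ?_ (fun i => ?_) i
    · simp [zpt, finSuccEquiv_X_zero, esymm_zero]
    · simp [zpt, finSuccEquiv_X_succ]
  have h2 := congrArg (fun f => f s) h
  simp only [AlgHom.comp_apply] at h2
  rw [h2]
  congr 1

/-- substituting `(e_0, ..., e_m)` is injective on homogeneous polynomials -/
theorem aeval_zpt_injective (k : Type) [Field k] (m K : ℕ) (s : MvPolynomial (Fin (m + 1)) k)
    (hs : s.IsHomogeneous K) (h : aeval (zpt k m) s = 0) : s = 0 := by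
  rw [aeval_zpt] at h
  have h1 : Polynomial.eval 1 (finSuccEquiv k m s) = 0 := by
    apply esymmAlgHom_fin_injective k (le_refl m)
    apply Subtype.ext
    rw [esymmAlgHom_apply, h]
    simp
  have hdeg : (finSuccEquiv k m s).natDegree < K + 1 := by
    by_cases hs0 : s = 0
    · subst hs0; simp
    · rw [natDegree_finSuccEquiv]
      have := degreeOf_le_totalDegree s 0
      have h2 := hs.totalDegree hs0
      omega
  rw [Polynomial.eval_eq_sum_range' hdeg] at h1
  simp only [one_pow, mul_one] at h1
  have h3 : ∀ i ≤ K, (finSuccEquiv k m s).coeff i = 0 := by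
    intro i hi
    have h4 := congrArg (homogeneousComponent (K - i)) h1
    rw [map_sum, map_zero] at h4
    rw [Finset.sum_eq_single i] at h4
    · rwa [homogeneousComponent_of_mem (hs.finSuccEquiv_coeff_isHomogeneous i (K - i) (by omega)),
        if_pos rfl] at h4
    · intro b hb hbi
      have hb' : b < K + 1 := Finset.mem_range.1 hb
      rw [homogeneousComponent_of_mem (hs.finSuccEquiv_coeff_isHomogeneous b (K - b) (by omega)),
        if_neg (by omega)]
    · intro hi'
      exact absurd (Finset.mem_range.2 (by omega)) hi'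
  have h5 : finSuccEquiv k m s = 0 := by
    ext1 i
    rw [Polynomial.coeff_zero]
    rcases le_or_gt i K with h6 | h6
    · exact h3 i h6
    · exact Polynomial.coeff_eq_zero_of_natDegree_lt (by omega)
  exact (map_eq_zero_iff _ (finSuccEquiv k m).injective).1 h5

lemma degreeOf_zpt (k : Type) [Field k] (m : ℕ) (i : Fin (m+1)) (l : Fin m) :
    degreeOf l (zpt k m i) ≤ 1 := by
  unfold zpt esymm
  refine (degreeOf_sum_le l _ _).trans ?_
  apply Finset.sup_le
  intro t _
  refine (degreeOf_prod_X k m l t).trans ?_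
  split_ifs <;> omega

/-- degree control for the substitution -/
theorem degreeOf_aeval_zpt (k : Type) [Field k] (m K : ℕ) (s : MvPolynomial (Fin (m + 1)) k)
    (hs : s.IsHomogeneous K) (l : Fin m) : degreeOf l (aeval (zpt k m) s) ≤ K := by
  rw [aeval_def, eval₂_eq]
  refine (degreeOf_sum_le l _ _).trans ?_
  apply Finset.sup_le
  intro d hd
  refine (degreeOf_mul_le l _ _).trans ?_
  have h1 : degreeOf l ((algebraMap k (MvPolynomial (Fin m) k)) (coeff d s)) = 0 := by
    rw [algebraMap_eq, degreeOf_C]
  rw [h1, zero_add]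
  refine (degreeOf_prod_le l _ _).trans ?_
  have h2 : ∑ i ∈ d.support, d i = K := by
    have := hs (mem_support_iff.1 hd)
    rw [Finsupp.weight_apply] at this
    simpa [Finsupp.sum] using this
  rw [← h2]
  refine Finset.sum_le_sum fun i _ => ?_
  refine (degreeOf_pow_le l _ _).trans ?_
  calc d i * degreeOf l (zpt k m i) ≤ d i * 1 := Nat.mul_le_mul_left _ (degreeOf_zpt k m i l)
    _ = d i := mul_one _



/-- Alternating polynomials with bounded degrees. -/
noncomputable def Alt (k : Type) [Field k] (m K : ℕ) : Submodule k (MvPolynomial (Fin m) k) where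
  carrier := {q | (∀ l, degreeOf l q + 1 ≤ K + m) ∧
    ∀ σ : Equiv.Perm (Fin m), rename σ q = (Equiv.Perm.sign σ : ℤ) • q}
  zero_mem' := by
    refine ⟨fun l => ?_, fun σ => by simp⟩
    have := l.2
    rw [degreeOf_zero]; omega
  add_mem' := by
    rintro a b ⟨ha, ha'⟩ ⟨hb, hb'⟩
    refine ⟨fun l => ?_, fun σ => by rw [map_add, ha', hb', smul_add]⟩
    have := degreeOf_add_le l a b
    have h1 := ha l
    have h2 := hb l
    rcases le_max_iff.1 this with h | h <;> omega
  smul_mem' := by
    rintro c a ⟨ha, ha'⟩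
    refine ⟨fun l => ?_, fun σ => by rw [map_smul, ha', smul_comm]⟩
    have h1 := ha l
    have h2 : degreeOf l (c • a) ≤ degreeOf l a := by
      rw [smul_eq_C_mul]
      refine (degreeOf_mul_le l _ _).trans ?_
      rw [degreeOf_C, zero_add]
    omega

/-- Alternating sum. -/
noncomputable def AS (k : Type) [Field k] (m : ℕ) :
    MvPolynomial (Fin m) k →ₗ[k] MvPolynomial (Fin m) k :=
  ∑ σ : Equiv.Perm (Fin m), (Equiv.Perm.sign σ : ℤ) • (rename σ : _ →ₐ[k] _).toLinearMap

lemma AS_apply (k : Type) [Field k] (m : ℕ) (p : MvPolynomial (Fin m) k) :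
    AS k m p = ∑ σ : Equiv.Perm (Fin m), (Equiv.Perm.sign σ : ℤ) • rename σ p := by
  unfold AS
  rw [LinearMap.sum_apply]
  rfl

lemma degreeOf_zsmul_sign (k : Type) [Field k] (m : ℕ) (l : Fin m) (σ : Equiv.Perm (Fin m))
    (p : MvPolynomial (Fin m) k) :
    degreeOf l ((Equiv.Perm.sign σ : ℤ) • p) = degreeOf l p := by
  rcases Int.units_eq_one_or (Equiv.Perm.sign σ) with h | h
  · rw [h]; simp
  · rw [h]; simp

lemma AS_mem (k : Type) [Field k] (m K : ℕ) (p : MvPolynomial (Fin m) k)
    (hp : ∀ l, degreeOf l p + 1 ≤ K + m) : AS k m p ∈ Alt k m K := by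
  refine ⟨fun l => ?_, fun τ => ?_⟩
  · rw [AS_apply]
    have h1 : degreeOf l (∑ σ : Equiv.Perm (Fin m), (Equiv.Perm.sign σ : ℤ) • rename σ p) ≤ K + m - 1 := by
      refine (degreeOf_sum_le l _ _).trans ?_
      apply Finset.sup_le
      intro σ _
      rw [degreeOf_zsmul_sign]
      have h2 : degreeOf (σ (σ.symm l)) (rename σ p) = degreeOf (σ.symm l) p :=
        degreeOf_rename_of_injective σ.injective (σ.symm l)
      rw [Equiv.apply_symm_apply] at h2
      rw [h2]
      have := hp (σ.symm l)
      omega
    have := l.2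
    omega
  · rw [AS_apply, map_sum, Finset.smul_sum]
    rw [← Equiv.sum_comp (Equiv.mulLeft τ⁻¹)]
    refine Finset.sum_congr rfl fun σ _ => ?_
    rw [Equiv.coe_mulLeft, map_zsmul, rename_rename, smul_smul]
    congr 1
    · simp
    · congr 1
      have : (⇑τ ∘ ⇑(τ⁻¹ * σ)) = ⇑σ := by
        funext x; simp
      rw [this]

/-- Exponent vector of a set. -/
noncomputable def exv {m K : ℕ} (t : {t // t ∈ Finset.powersetCard m (Finset.range (K + m))}) :
    Fin m →₀ ℕ :=
  Finsupp.equivFunOnFinite.symm (fun i => t.1.orderEmbOfFin (Finset.mem_powersetCard.1 t.2).2 i)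

/-- Coefficients at increasing exponents. -/
noncomputable def evAlt (k : Type) [Field k] (m K : ℕ) :
    Alt k m K →ₗ[k] ({t // t ∈ Finset.powersetCard m (Finset.range (K + m))} → k) :=
  LinearMap.pi (fun t => (MvPolynomial.lcoeff k (exv t)).comp (Alt k m K).subtype)

lemma coeff_perm (k : Type) [Field k] (m : ℕ) (σ : Equiv.Perm (Fin m)) (q : MvPolynomial (Fin m) k)
    (hq : rename σ q = (Equiv.Perm.sign σ : ℤ) • q) (d : Fin m →₀ ℕ) :
    coeff (d.mapDomain σ) q = (Equiv.Perm.sign σ : ℤ) • coeff d q := by
  have h1 := coeff_rename_mapDomain σ σ.injective q d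
  rw [hq] at h1
  have h2 : coeff (d.mapDomain σ) ((Equiv.Perm.sign σ : ℤ) • q) =
      (Equiv.Perm.sign σ : ℤ) • coeff (d.mapDomain σ) q := by
    rcases Int.units_eq_one_or (Equiv.Perm.sign σ) with h | h
    · rw [h]; simp
    · rw [h]; simp
  rw [h2] at h1
  rw [← h1, smul_smul]
  simp

lemma ev_injective (k : Type) [Field k] [CharZero k] (m K : ℕ) : Function.Injective (evAlt k m K) := by
  rw [injective_iff_map_eq_zero]
  rintro ⟨q, hq1, hq2⟩ hq
  have h0 : ∀ t, coeff (exv t) q = 0 := fun t => congrFun hq t
  apply Subtype.ext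
  change q = 0
  ext d
  rw [coeff_zero]
  by_cases hinj : Function.Injective (fun i => d i)
  · -- sort
    by_contra hd
    set σ := Tuple.sort (fun i => d i) with hσ
    have hmono : Monotone ((fun i => d i) ∘ σ) := Tuple.monotone_sort _
    have hsm : StrictMono ((fun i => d i) ∘ σ) := hmono.strictMono_of_injective (hinj.comp σ.injective)
    have hlt : ∀ i, d i < K + m := by
      intro i
      have h1 := hq1 i
      have h2 := monomial_le_degreeOf i (mem_support_iff.2 hd)
      omega
    set t : Finset ℕ := Finset.univ.image ((fun i => d i) ∘ σ) with ht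
    have htm : t ∈ Finset.powersetCard m (Finset.range (K + m)) := by
      rw [Finset.mem_powersetCard]
      constructor
      · intro x hx
        obtain ⟨i, _, rfl⟩ := Finset.mem_image.1 hx
        exact Finset.mem_range.2 (hlt _)
      · rw [ht, Finset.card_image_of_injective _ hsm.injective]; simp
    have h1 : (fun i => d i) ∘ σ = t.orderEmbOfFin (Finset.mem_powersetCard.1 htm).2 :=
      Finset.orderEmbOfFin_unique _ (fun x => Finset.mem_image_of_mem _ (Finset.mem_univ x)) hsm
    have h2 : exv ⟨t, htm⟩ = d.mapDomain ⇑σ⁻¹ := by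
      ext i
      have h3 : d.mapDomain ⇑σ⁻¹ i = d (σ i) := by
        have := Finsupp.mapDomain_apply (σ⁻¹).injective d (σ i)
        simp
      rw [h3]
      have h4 := congrFun h1 i
      simp only [Function.comp_apply] at h4
      rw [h4]; rfl
    have h3 := coeff_perm k m σ⁻¹ q (hq2 σ⁻¹) d
    rw [← h2, h0] at h3
    rcases Int.units_eq_one_or (Equiv.Perm.sign σ⁻¹) with h | h
    · rw [h] at h3; simp at h3; exact hd h3.symm
    · rw [h] at h3; simp at h3; exact hd h3
  · rw [Function.Injective] at hinj
    push Not at hinj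
    obtain ⟨i, j, hij, hne⟩ := hinj
    have h3 := coeff_perm k m (Equiv.swap i j) q (hq2 _) d
    have h4 : d.mapDomain (Equiv.swap i j) = d := by
      ext x
      have h5 := Finsupp.mapDomain_apply (Equiv.swap i j).injective d (Equiv.swap i j x)
      rw [Equiv.swap_apply_self] at h5
      rw [h5]
      by_cases hx : x = i
      · subst hx; simp only [Equiv.swap_apply_left]; exact hij.symm
      · by_cases hx' : x = j
        · subst hx'; simp only [Equiv.swap_apply_right]; exact hij
        · rw [Equiv.swap_apply_of_ne_of_ne hx hx']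
    rw [h4, Equiv.Perm.sign_swap hne] at h3
    simp at h3
    exact self_eq_neg.1 h3



lemma finrank_hom_ge (k : Type) [Field k] (m K : ℕ)
    [FiniteDimensional k (homogeneousSubmodule (Fin (m+1)) k K)] :
    (K + m).choose m ≤ Module.finrank k (homogeneousSubmodule (Fin (m+1)) k K) := by
  classical
  let e := Sym.equivNatSum (Fin (m+1)) K
  let f : Sym (Fin (m+1)) K → homogeneousSubmodule (Fin (m+1)) k K := fun P =>
    ⟨monomial (e P : Fin (m+1) →₀ ℕ) 1, by
      rw [mem_homogeneousSubmodule]
      apply isHomogeneous_monomial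
      have := (e P).2
      exact this⟩
  have hli : LinearIndependent k f := by
    have h1 : LinearIndependent k (fun P => (homogeneousSubmodule (Fin (m+1)) k K).subtype (f P)) := by
      have h2 := (basisMonomials (Fin (m+1)) k).linearIndependent
      have h3 : Function.Injective (fun P : Sym (Fin (m+1)) K => (e P : Fin (m+1) →₀ ℕ)) :=
        Subtype.val_injective.comp e.injective
      have h4 := h2.comp _ h3
      have h5 : (fun P => (homogeneousSubmodule (Fin (m+1)) k K).subtype (f P)) =
          (basisMonomials (Fin (m+1)) k) ∘ (fun P : Sym (Fin (m+1)) K => (e P : Fin (m+1) →₀ ℕ)) := by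
        funext P
        simp [f]
      rw [h5]
      exact h4
    exact LinearIndependent.of_comp _ h1
  have h := hli.fintype_card_le_finrank
  rw [Sym.card_sym_eq_multichoose, Fintype.card_fin, Nat.multichoose_eq] at h
  have h5 : (m + 1 + K - 1).choose K = (K + m).choose m := by
    rw [show m + 1 + K - 1 = K + m by omega]
    rw [Nat.choose_symm_add]
  rwa [h5] at h

/-- The trace map for `(P^1)^m → P^m`. -/
theorem exists_trace (k : Type) [Field k] [CharZero k] (m K : ℕ) :
    ∃ T : MvPolynomial (Fin m) k →ₗ[k] MvPolynomial (Fin (m + 1)) k,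
      ∀ p, (∀ l, degreeOf l p + 1 ≤ K + m) → (T p).IsHomogeneous K ∧
        wdet k m * aeval (zpt k m) (T p) =
          ∑ σ : Equiv.Perm (Fin m), (Equiv.Perm.sign σ : ℤ) • rename σ p := by
  classical
  set V := homogeneousSubmodule (Fin (m+1)) k K with hV
  set g : V →ₗ[k] MvPolynomial (Fin m) k := (LinearMap.mulLeft k (wdet k m)).comp
    ((aeval (zpt k m) : MvPolynomial (Fin (m+1)) k →ₐ[k] _).toLinearMap.comp V.subtype) with hg
  have hgapp : ∀ s : V, g s = wdet k m * aeval (zpt k m) s.1 := fun s => rfl
  have hgAlt : ∀ s : V, g s ∈ Alt k m K := by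
    intro s
    have hs : s.1.IsHomogeneous K := s.2
    rw [hgapp]
    refine ⟨fun l => ?_, fun σ => ?_⟩
    · have h1 := degreeOf_mul_le l (wdet k m) (aeval (zpt k m) s.1)
      have h2 := degreeOf_wdet k m l
      have h3 := degreeOf_aeval_zpt k m K s.1 hs l
      omega
    · rw [map_mul, rename_wdet, smul_mul_assoc]
      congr 2
      have h4 : (rename σ : MvPolynomial (Fin m) k →ₐ[k] _).comp (aeval (zpt k m)) =
          (aeval (zpt k m) : MvPolynomial (Fin (m+1)) k →ₐ[k] _) := by
        apply algHom_ext
        intro i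
        simp [zpt, rename_esymm]
      have := congrArg (fun f => f s.1) h4
      simpa using this
  set ι : V →ₗ[k] Alt k m K := g.codRestrict (Alt k m K) hgAlt with hι
  have hιinj : Function.Injective ι := by
    rw [injective_iff_map_eq_zero]
    intro s hs
    have h1 : g s = 0 := congrArg Subtype.val hs
    rw [hgapp] at h1
    rcases mul_eq_zero.1 h1 with h | h
    · exact absurd h (wdet_ne_zero k m)
    · exact Subtype.ext (aeval_zpt_injective k m K s.1 s.2 h)
  have hfA : FiniteDimensional k (Alt k m K) := FiniteDimensional.of_injective _ (ev_injective k m K)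
  have hfV : FiniteDimensional k V := FiniteDimensional.of_injective _ hιinj
  have h1 : Module.finrank k V ≤ Module.finrank k (Alt k m K) :=
    LinearMap.finrank_le_finrank_of_injective hιinj
  have h2 : Module.finrank k (Alt k m K) ≤ (K + m).choose m := by
    have := LinearMap.finrank_le_finrank_of_injective (ev_injective k m K)
    rwa [Module.finrank_fintype_fun_eq_card, Fintype.card_coe, Finset.card_powersetCard,
      Finset.card_range] at this
  have h3 : (K + m).choose m ≤ Module.finrank k V := finrank_hom_ge k m K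
  have h4 : Module.finrank k V = Module.finrank k (Alt k m K) := by omega
  have hsurj : Function.Surjective ι :=
    (LinearMap.injective_iff_surjective_of_finrank_eq_finrank h4).1 hιinj
  have hginj : Function.Injective g := by
    intro a b hab
    exact hιinj (Subtype.ext hab)
  obtain ⟨lam, hlam⟩ := LinearMap.exists_leftInverse_of_injective g (LinearMap.ker_eq_bot.2 hginj)
  refine ⟨V.subtype.comp (lam.comp (AS k m)), fun p hp => ?_⟩
  obtain ⟨s, hs⟩ := hsurj ⟨AS k m p, AS_mem k m K p hp⟩
  have hs' : g s = AS k m p := congrArg Subtype.val hs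
  have h5 : lam (AS k m p) = s := by
    rw [← hs']
    exact congrArg (fun f => f s) hlam
  have h6 : (V.subtype.comp (lam.comp (AS k m))) p = s.1 := by
    change (lam (AS k m p)).1 = s.1
    rw [h5]
  rw [h6]
  refine ⟨s.2, ?_⟩
  rw [← hgapp, hs', AS_apply]

end Pool.Agent.Helper56.Ulr
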