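import Pool.Agent.Helper56.Ulr.Formal3
import Pool.Agent.Helper56.Ulr.Trace
import Pool.Agent.Helper56.Ulr.Assoc

namespace Pool.Agent.Helper56.Ulr

open MvPolynomial Matrix Pool.Agent.Helper56.Disc

variable {m : ℕ}

/-- Pullback of forms along `(P^1)^m → P^m`. -/
noncomputable def EE (m : ℕ) : MvPolynomial (Fin (m + 1)) ℂ →ₐ[ℂ] MvPolynomial (Fin m) ℂ :=
  aeval (zpt ℂ m)

/-- The trace. -/
noncomputable def TT (m K : ℕ) : MvPolynomial (Fin m) ℂ →ₗ[ℂ] MvPolynomial (Fin (m + 1)) ℂ :=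
  (exists_trace ℂ m K).choose

theorem TT_spec (m K : ℕ) (p : MvPolynomial (Fin m) ℂ) (hp : ∀ l, degreeOf l p + 1 ≤ K + m) :
    (TT m K p).IsHomogeneous K ∧ wdet ℂ m * EE m (TT m K p) =
      ∑ σ : Equiv.Perm (Fin m), (Equiv.Perm.sign σ : ℤ) • rename σ p :=
  (exists_trace ℂ m K).choose_spec p hp

theorem EE_injective (K : ℕ) (s : MvPolynomial (Fin (m + 1)) ℂ) (hs : s.IsHomogeneous K)
    (h : wdet ℂ m * EE m s = 0) : s = 0 := by
  rcases mul_eq_zero.1 h with h | h
  · exact absurd h (wdet_ne_zero ℂ m)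
  · exact aeval_zpt_injective ℂ m K s hs h

theorem rename_EE (σ : Equiv.Perm (Fin m)) (g : MvPolynomial (Fin (m + 1)) ℂ) :
    rename σ (EE m g) = EE m g := by
  unfold EE
  have h : (rename σ).comp (aeval (zpt ℂ m)) = aeval (zpt ℂ m) := by
    apply MvPolynomial.algHom_ext
    intro i
    rw [AlgHom.comp_apply, aeval_X, zpt]
    exact rename_esymm (Fin m) ℂ _ σ
  exact DFunLike.congr_fun h g

theorem degreeOf_EE {K : ℕ} (g : MvPolynomial (Fin (m + 1)) ℂ) (hg : g.IsHomogeneous K)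
    (l : Fin m) : degreeOf l (EE m g) ≤ K := degreeOf_aeval_zpt ℂ m K g hg l

theorem TT_mul (K k : ℕ) (g : MvPolynomial (Fin (m + 1)) ℂ) (hg : g.IsHomogeneous k)
    (p : MvPolynomial (Fin m) ℂ) (hp : ∀ l, degreeOf l p + 1 ≤ K + m) :
    TT m (K + k) (EE m g * p) = g * TT m K p := by
  obtain ⟨h1, h2⟩ := TT_spec m K p hp
  obtain ⟨h3, h4⟩ := TT_spec m (K + k) (EE m g * p) (fun l => by
    have e1 := degreeOf_mul_le l (EE m g) p
    have e2 := degreeOf_EE g hg l
    have e3 := hp l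
    omega)
  rw [← sub_eq_zero]
  apply EE_injective (K + k)
  · refine h3.sub ?_
    have h5 := hg.mul h1
    rwa [add_comm k K] at h5
  · rw [map_sub, map_mul (EE m) g, mul_sub, h4]
    have h5 : wdet ℂ m * (EE m g * EE m (TT m K p)) =
        EE m g * (wdet ℂ m * EE m (TT m K p)) := by ring
    rw [h5, h2, Finset.mul_sum, ← Finset.sum_sub_distrib]
    apply Finset.sum_eq_zero
    intro σ _
    rw [map_mul, rename_EE, mul_smul_comm, sub_self]

theorem TT_wdet (K : ℕ) (s : MvPolynomial (Fin (m + 1)) ℂ) (hs : s.IsHomogeneous K) :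
    TT m K (wdet ℂ m * EE m s) = C (m.factorial : ℂ) * s := by
  obtain ⟨h3, h4⟩ := TT_spec m K (wdet ℂ m * EE m s) (fun l => by
    have e1 := degreeOf_mul_le l (wdet ℂ m) (EE m s)
    have e2 := degreeOf_EE s hs l
    have e3 := degreeOf_wdet ℂ m l
    omega)
  rw [← sub_eq_zero]
  apply EE_injective K
  · exact h3.sub (hs.C_mul _)
  · rw [map_sub, map_mul (EE m) (C _), mul_sub, h4]
    have h5 : ∀ σ : Equiv.Perm (Fin m), (Equiv.Perm.sign σ : ℤ) • rename σ (wdet ℂ m * EE m s) =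
        wdet ℂ m * EE m s := by
      intro σ
      rw [map_mul, rename_EE, rename_wdet, smul_mul_assoc, smul_smul]
      rcases Int.units_eq_one_or (Equiv.Perm.sign σ) with h | h
      · rw [h]; simp
      · rw [h]; simp
    rw [Finset.sum_congr rfl fun σ _ => h5 σ, Finset.sum_const, Finset.card_univ,
      Fintype.card_perm, Fintype.card_fin]
    have h6 : EE m (C (m.factorial : ℂ)) = C (m.factorial : ℂ) := by
      unfold EE
      rw [aeval_C, algebraMap_eq]
    rw [h6, nsmul_eq_mul, ← map_natCast (C : ℂ →+* MvPolynomial (Fin m) ℂ)]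
    ring

/-- The functional attached to the form `F`. -/
noncomputable def LL (m N : ℕ) (F : MvPolynomial (Fin (m + 1)) ℂ) :
    MvPolynomial (Fin m) ℂ →ₗ[ℂ] ℂ where
  toFun p := apolar F (TT m N p)
  map_add' p q := by rw [map_add, apolar_add_right]
  map_smul' a p := by
    rw [map_smul, smul_eq_C_mul, apolar_C_mul_right]
    rfl

theorem LL_apply (m N : ℕ) (F : MvPolynomial (Fin (m + 1)) ℂ) (p : MvPolynomial (Fin m) ℂ) :
    LL m N F p = apolar F (TT m N p) := rfl

theorem LL_perp (δ : ℕ) (hδ : 2 ≤ δ) (hm : 1 ≤ m) (F : MvPolynomial (Fin (m + 1)) ℂ)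
    (g : Fin (m + 1) → MvPolynomial (Fin (m + 1)) ℂ) (hg : ∀ i, (g i).IsHomogeneous δ)
    (hF : Perp ((m + 1) * (δ - 1)) δ F g) (i : Fin (m + 1)) (p : MvPolynomial (Fin m) ℂ)
    (hp : InBox (fun _ => m * δ - 2) p) : LL m ((m + 1) * (δ - 1)) F (EE m (g i) * p) = 0 := by
  obtain ⟨ε, rfl⟩ := Nat.exists_eq_add_of_le hδ
  have e0 : (m + 1) * (2 + ε - 1) = (m + 1) * ε + m + 1 := by
    have : 2 + ε - 1 = ε + 1 := by omega
    rw [this]; ring
  have e1 : 2 + ε ≤ (m + 1) * (2 + ε - 1) := by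
    rw [e0]
    nlinarith
  have hdeg : ∀ l, degreeOf l p + 1 ≤ (m + 1) * (2 + ε - 1) - (2 + ε) + m := by
    intro l
    have h1 := hp l
    have h2 : m * (2 + ε) = 2 * m + m * ε := by ring
    have h3 : (m + 1) * ε = m * ε + ε := by ring
    have h4 : 2 ≤ m * (2 + ε) := by nlinarith
    simp only at h1
    rw [e0]
    omega
  have h1 := TT_mul ((m + 1) * (2 + ε - 1) - (2 + ε)) (2 + ε) (g i) (hg i) p hdeg
  rw [Nat.sub_add_cancel e1] at h1
  rw [LL_apply, h1]
  exact hF i _ (TT_spec m _ p hdeg).1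

/-- chain rule -/
theorem pderiv_EE (l : Fin m) (g : MvPolynomial (Fin (m + 1)) ℂ) :
    pderiv l (EE m g) = ∑ k, EE m (pderiv k g) * pderiv l (zpt ℂ m k) := by
  unfold EE
  induction g using MvPolynomial.induction_on with
  | C a => simp
  | add p q hp hq =>
    rw [map_add, map_add, hp, hq, ← Finset.sum_add_distrib]
    apply Finset.sum_congr rfl
    intro k _
    rw [map_add, map_add]
    ring
  | mul_X p t hp =>
    have hR : ∀ k, aeval (zpt ℂ m) (pderiv k (p * X t)) * pderiv l (zpt ℂ m k) =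
        aeval (zpt ℂ m) (pderiv k p) * pderiv l (zpt ℂ m k) * zpt ℂ m t +
          (if k = t then aeval (zpt ℂ m) p * pderiv l (zpt ℂ m k) else 0) := by
      intro k
      rw [pderiv_mul, map_add, map_mul, map_mul, aeval_X]
      by_cases hk : k = t
      · rw [if_pos hk, hk, pderiv_X_self, map_one]
        ring
      · rw [if_neg hk, pderiv_X_of_ne (Ne.symm hk), map_zero]
        ring
    rw [Finset.sum_congr rfl fun k _ => hR k, Finset.sum_add_distrib, ← Finset.sum_mul,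
      Finset.sum_ite_eq' Finset.univ t, if_pos (Finset.mem_univ t), map_mul, pderiv_mul, hp,
      aeval_X]

theorem det_zpt (m : ℕ) :
    (Matrix.of fun k j : Fin (m + 1) => if h : (j : ℕ) = 0 then zpt ℂ m k else
      pderiv ⟨(j : ℕ) - 1, by omega⟩ (zpt ℂ m k)).det = wdet ℂ m := by
  rw [det_succ_row_zero, Finset.sum_eq_single 0]
  · have h1 : zpt ℂ m 0 = 1 := by
      unfold zpt
      simp
    rw [of_apply, dif_pos (show ((0 : Fin (m + 1)) : ℕ) = 0 from rfl), h1, Fin.val_zero,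
      pow_zero, one_mul, one_mul]
    unfold wdet
    congr 1
  · intro j _ hj
    have hj' : (j : ℕ) ≠ 0 := fun h => hj (Fin.ext h)
    rw [of_apply, dif_neg hj']
    have h1 : zpt ℂ m 0 = 1 := by
      unfold zpt
      simp
    rw [h1, pderiv_one]
    ring
  · simp

theorem jac_formula (δ : ℕ) (g : Fin (m + 1) → MvPolynomial (Fin (m + 1)) ℂ)
    (hg : ∀ i, (g i).IsHomogeneous δ) :
    C (δ : ℂ) * (Matrix.of fun i j : Fin (m + 1) =>
      if h : (j : ℕ) = 0 then EE m (g i) else pderiv ⟨(j : ℕ) - 1, by omega⟩ (EE m (g i))).det =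
      wdet ℂ m * EE m (jac g) := by
  set M : Matrix (Fin (m + 1)) (Fin (m + 1)) (MvPolynomial (Fin m) ℂ) :=
    Matrix.of fun i j : Fin (m + 1) =>
      if h : (j : ℕ) = 0 then EE m (g i) else pderiv ⟨(j : ℕ) - 1, by omega⟩ (EE m (g i)) with hM
  set Q : Matrix (Fin (m + 1)) (Fin (m + 1)) (MvPolynomial (Fin m) ℂ) :=
    Matrix.of fun k j : Fin (m + 1) => if h : (j : ℕ) = 0 then zpt ℂ m k else
      pderiv ⟨(j : ℕ) - 1, by omega⟩ (zpt ℂ m k) with hQ
  have hM0 : ∀ i, M i 0 = EE m (g i) := by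
    intro i
    rw [hM, of_apply, dif_pos (show ((0 : Fin (m + 1)) : ℕ) = 0 from rfl)]
  have hQ0 : ∀ i, Q i 0 = zpt ℂ m i := by
    intro i
    rw [hQ, of_apply, dif_pos (show ((0 : Fin (m + 1)) : ℕ) = 0 from rfl)]
  have h1 : M.updateCol 0 ((C (δ : ℂ) : MvPolynomial (Fin m) ℂ) • fun i => M i 0) =
      (Matrix.of fun i k => EE m (pderiv k (g i))) * Q := by
    ext1 i j
    rw [updateCol_apply, Matrix.mul_apply]
    by_cases hj : j = 0
    · rw [if_pos hj, hj]
      rw [Pi.smul_apply, smul_eq_mul, hM0]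
      have h2 := (hg i).sum_X_mul_pderiv
      have h3 := congrArg (EE m) h2
      rw [map_sum] at h3
      have h4 : EE m (δ • g i) = C (δ : ℂ) * EE m (g i) := by
        rw [map_nsmul, nsmul_eq_mul, map_natCast]
      rw [← h4, ← h3]
      apply Finset.sum_congr rfl
      intro k _
      rw [map_mul, mul_comm, hQ0, of_apply]
      congr 1
      unfold EE
      rw [aeval_X]
    · rw [if_neg hj]
      have hj' : (j : ℕ) ≠ 0 := fun h => hj (Fin.ext h)
      simp only [hM, hQ, of_apply, dif_neg hj']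
      exact pderiv_EE _ _
  have h2 := congrArg Matrix.det h1
  rw [det_updateCol_smul, updateCol_eq_self, det_mul] at h2
  have h3 : Q.det = wdet ℂ m := det_zpt m
  have h4 : (Matrix.of fun i k => EE m (pderiv k (g i))).det = EE m (jac g) := by
    unfold jac
    rw [AlgHom.map_det]
    rfl
  rw [h2, h3, h4, mul_comm]

theorem main_scalar (δ : ℕ) (hδ : 2 ≤ δ) (hm : 1 ≤ m) (F : MvPolynomial (Fin (m + 1)) ℂ)
    (g : Fin (m + 1) → MvPolynomial (Fin (m + 1)) ℂ) (hg : ∀ i, (g i).IsHomogeneous δ)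
    (hF : Perp ((m + 1) * (δ - 1)) δ F g) :
    ∃ c : ℂ, Phi δ (LL m ((m + 1) * (δ - 1)) F) * Bz δ (fun i => EE m (g i)) =
        c • (1 : Matrix (IA m δ) (IA m δ) ℂ) ∧
      c * (Fintype.card (IA m δ) : ℂ) * (δ : ℂ) = (m.factorial : ℂ) * apolar F (jac g) := by
  have hG : ∀ i, InBox (fun _ => δ) (EE m (g i)) := fun i l => degreeOf_EE (g i) (hg i) l
  obtain ⟨c, hc⟩ := exists_scalar δ hδ (fun i => EE m (g i)) hG
    (LL m ((m + 1) * (δ - 1)) F) (fun i p hp => LL_perp δ hδ hm F g hg hF i p hp)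
  refine ⟨c, hc, ?_⟩
  have h1 := trace_eq δ (by omega) (fun i => EE m (g i)) hG (LL m ((m + 1) * (δ - 1)) F)
  rw [hc, trace_smul, trace_one, smul_eq_mul, eval_kern] at h1
  rw [h1]
  have h2 := jac_formula δ g hg
  have h3 := congrArg (LL m ((m + 1) * (δ - 1)) F) h2
  rw [← smul_eq_C_mul, map_smul, smul_eq_mul, LL_apply m _ F (wdet ℂ m * _),
    TT_wdet _ _ (jac_isHomogeneous δ g hg), apolar_C_mul_right] at h3
  rw [← h3, mul_comm]

end Pool.Agent.Helper56.Ulr
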